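import Mathlib
import Pool.Agent.Lib.H13R.D
import Pool.Agent.Lib.H55K.T8
import Pool.Agent.Lib.H55K.T9C
import Pool.Agent.Lib.H55K.Y3

/-! # H13R: a point of order p fixed by the inertia group over M -/

open NumberField IsDedekindDomain WeierstrassCurve

namespace H13R

open H55P (IQ embF eF LF Per IsHecke Pt ac Inert Dec Nm UnitP)
open H35P (WAB Ker tt GoodW IntW)
open H55K.MG (VC Crd)
open H55K H55K.TQ

variable {F : Type} [Field F] [NumberField F] {W₀ : WeierstrassCurve (𝓞 F)} {p : ℕ}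

omit [NumberField F] in
/-- Transport of a point of order p along an equality of curves. -/
theorem c2_tr {M Ω : Type} [Field M] [Field Ω] [DecidableEq Ω] [Algebra F Ω] [Algebra M Ω]
    {W₁ : WeierstrassCurve F} {W₂ : WeierstrassCurve M} (h : W₁⁄Ω = W₂⁄Ω) {p : ℕ} {T : Pt W₁ Ω} (hT : p • T = 0)
    (h0 : T ≠ 0) : ∃ T' : Pt W₂ Ω, p • T' = 0 ∧ T' ≠ 0 ∧ xc T' = xc T ∧ yc T' = yc T := by
  have key : ∀ (E₁ E₂ : WeierstrassCurve Ω) (_ : E₁ = E₂) (T : E₁.toAffine.Point), p • T = 0 → T ≠ 0 →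
      ∃ T' : E₂.toAffine.Point, p • T' = 0 ∧ T' ≠ 0 ∧ xc T' = xc T ∧ yc T' = yc T := by
    intro E₁ E₂ hE T hT h0
    subst hE
    exact ⟨T, hT, h0, rfl, rfl⟩
  exact key _ _ h T hT h0

/-- Chunk C2 (M). nos_up (T5.lean) and descent (T7B.lean) for the number field M in place of F (they are stated for any number field F and Ω an algebraic closure; Ω is an algebraic closure of M, g : Ω ≃ₐ[M] Ω gives g.restrictScalars F in M.fixingSubgroup), for the curve (WAB A B)⁄M = WAB A B over M (map_id of coefficients; ((WAB A B)⁄M)⁄Ω = (WAB A B)⁄Ω: transport the point T: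
equal curves, T = some x y; or cast), then good_of_V (T9C.lean) for M and the curve W₀⁄(𝓞 M) (its c₄, c₆ are the images; ((W₀⁄(𝓞 M))⁄M) = ((W₀⁄F)⁄M) by map_map): GoodAt ((W₀⁄F)⁄M) v, against hB. jj: c₄^3 = j₁ Δ for WAB A B as in T10.lean (y3_j), image in Ω; V contains the integers (t8_le). V(p) = 1: hV. -/
theorem core_bad (hΔ0 : W₀.Δ ≠ 0) (hj : ∃ j₀ : 𝓞 F, W₀.c₄ ^ 3 = j₀ * W₀.Δ) (hp : p.Prime) (h5 : 5 ≤ p) {A B : F}
    (hA : A = -(algebraMap (𝓞 F) F W₀.c₄) / 48) (hB' : B = -(algebraMap (𝓞 F) F W₀.c₆) / 864)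
    (M : IntermediateField F (AlgebraicClosure F)) [NumberField M] [DecidableEq (AlgebraicClosure F)] (hB : BadM W₀ M)
    {v : HeightOneSpectrum (𝓞 M)} (hΔ : algebraMap (𝓞 F) (𝓞 M) W₀.Δ ∈ v.asIdeal) {V : ValuationSubring (AlgebraicClosure F)}
    (hv : ∀ a : 𝓞 M, a ∈ v.asIdeal → V.valuation ((a : M) : AlgebraicClosure F) < 1)
    (hV : V.valuation (p : AlgebraicClosure F) = 1) {T : Pt (WAB A B) (AlgebraicClosure F)} (hT : p • T = 0) (h0 : T ≠ 0)
    (hfix : ∀ g ∈ M.fixingSubgroup, Inert V g → ac (WAB A B) g T = T) : False := by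
  have halg : Algebra.IsAlgebraic M (AlgebraicClosure F) := Algebra.IsAlgebraic.tower_top (K := F) M
  have hcl : IsAlgClosure M (AlgebraicClosure F) := ⟨inferInstance, halg⟩
  obtain ⟨W₁, hW₁⟩ : ∃ W₁ : WeierstrassCurve (𝓞 M), W₁ = W₀.map (algebraMap (𝓞 F) (𝓞 M)) := ⟨_, rfl⟩
  obtain ⟨A', hA'⟩ : ∃ A' : M, A' = algebraMap F M A := ⟨_, rfl⟩
  obtain ⟨B', hB''⟩ : ∃ B' : M, B' = algebraMap F M B := ⟨_, rfl⟩
  have hc4 : algebraMap (𝓞 M) M W₁.c₄ = algebraMap F M (algebraMap (𝓞 F) F W₀.c₄) := by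
    rw [hW₁, WeierstrassCurve.map_c₄, ← IsScalarTower.algebraMap_apply, ← IsScalarTower.algebraMap_apply]
  have hc6 : algebraMap (𝓞 M) M W₁.c₆ = algebraMap F M (algebraMap (𝓞 F) F W₀.c₆) := by
    rw [hW₁, WeierstrassCurve.map_c₆, ← IsScalarTower.algebraMap_apply, ← IsScalarTower.algebraMap_apply]
  have hA1 : A' = -(algebraMap (𝓞 M) M W₁.c₄) / 48 := by
    rw [hc4, hA', hA, map_div₀, map_neg, map_ofNat]
  have hB1 : B' = -(algebraMap (𝓞 M) M W₁.c₆) / 864 := by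
    rw [hc6, hB'', hB', map_div₀, map_neg, map_ofNat]
  have hW1Δ : W₁.Δ = algebraMap (𝓞 F) (𝓞 M) W₀.Δ := by
    rw [hW₁, WeierstrassCurve.map_Δ]
  have hW1c : W₁.c₄ = algebraMap (𝓞 F) (𝓞 M) W₀.c₄ := by
    rw [hW₁, WeierstrassCurve.map_c₄]
  have hΔ1 : W₁.Δ ≠ 0 := by
    rw [hW1Δ]
    exact (map_ne_zero_iff _ (FaithfulSMul.algebraMap_injective (𝓞 F) (𝓞 M))).2 hΔ0
  have hd := y3_ne W₁ hA1 hB1 hΔ1
  have hcur : (WAB A B)⁄(AlgebraicClosure F) = (WAB A' B')⁄(AlgebraicClosure F) := by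
    have e1 : algebraMap M (AlgebraicClosure F) A' = algebraMap F (AlgebraicClosure F) A := by
      rw [hA', ← IsScalarTower.algebraMap_apply]
    have e2 : algebraMap M (AlgebraicClosure F) B' = algebraMap F (AlgebraicClosure F) B := by
      rw [hB'', ← IsScalarTower.algebraMap_apply]
    apply WeierstrassCurve.ext
    · change algebraMap F (AlgebraicClosure F) 0 = algebraMap M (AlgebraicClosure F) 0
      rw [map_zero, map_zero]
    · change algebraMap F (AlgebraicClosure F) 0 = algebraMap M (AlgebraicClosure F) 0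
      rw [map_zero, map_zero]
    · change algebraMap F (AlgebraicClosure F) 0 = algebraMap M (AlgebraicClosure F) 0
      rw [map_zero, map_zero]
    · exact e1.symm
    · exact e2.symm
  obtain ⟨T', hT', h0', hx', hy'⟩ := c2_tr hcur hT h0
  have hfix' : ∀ g : AlgebraicClosure F ≃ₐ[M] AlgebraicClosure F, Inert V g → ac (WAB A' B') g T' = T' := by
    intro g hg
    have h1 : g.restrictScalars F ∈ M.fixingSubgroup := by
      rw [IntermediateField.mem_fixingSubgroup_iff]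
      intro x hx
      exact g.commutes ⟨x, hx⟩
    have h2 : Inert V (g.restrictScalars F) := fun x hx => hg x hx
    have h3 := hfix _ h1 h2
    obtain ⟨a1, a2, -⟩ := MG.ac_crd (W := WAB A B) (g.restrictScalars F) T
    obtain ⟨b1, b2, b3⟩ := MG.ac_crd (W := WAB A' B') g T'
    rw [h3] at a1 a2
    refine pt_ext (fun h => h0' (b3.1 h)) h0' ?_ ?_
    · rw [b1, hx']
      exact a1.symm
    · rw [b2, hy']
      exact a2.symm
  have hΔA : (WAB A' B').Δ ≠ 0 := by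
    have e : (WAB A' B').Δ = -16 * (4 * A' ^ 3 + 27 * B' ^ 2) := by
      unfold WAB WeierstrassCurve.Δ WeierstrassCurve.b₂ WeierstrassCurve.b₄ WeierstrassCurve.b₆ WeierstrassCurve.b₈
      ring
    rw [e]
    exact mul_ne_zero (by norm_num) hd
  have hj' : ∃ j₀ : 𝓞 M, W₁.c₄ ^ 3 = j₀ * W₁.Δ := by
    obtain ⟨j₀, hj₀⟩ := hj
    refine ⟨algebraMap (𝓞 F) (𝓞 M) j₀, ?_⟩
    rw [hW1c, hW1Δ, ← map_pow, hj₀, map_mul]
  obtain ⟨j₁, hj₁⟩ := y3_j W₁ hA1 hB1 hj'
  have hc4' : (WAB A' B').c₄ ^ 3 = (j₁ : M) * (WAB A' B').Δ := by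
    have e1 : (WAB A' B').Δ = -16 * (4 * A' ^ 3 + 27 * B' ^ 2) := by
      unfold WAB WeierstrassCurve.Δ WeierstrassCurve.b₂ WeierstrassCurve.b₄ WeierstrassCurve.b₆ WeierstrassCurve.b₈
      ring
    have e2 : (WAB A' B').c₄ = -48 * A' := by
      unfold WAB WeierstrassCurve.c₄ WeierstrassCurve.b₂ WeierstrassCurve.b₄
      ring
    rw [e1, e2]
    linear_combination (16 : M) * hj₁
  have hjj : ((WAB A' B')⁄(AlgebraicClosure F)).c₄ ^ 3 =
      ak (AlgebraicClosure F) j₁ * ((WAB A' B')⁄(AlgebraicClosure F)).Δ := by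
    have e1 : ((WAB A' B')⁄(AlgebraicClosure F)).c₄ = algebraMap M (AlgebraicClosure F) (WAB A' B').c₄ :=
      WeierstrassCurve.map_c₄ _ _
    have e2 : ((WAB A' B')⁄(AlgebraicClosure F)).Δ = algebraMap M (AlgebraicClosure F) (WAB A' B').Δ :=
      WeierstrassCurve.map_Δ _ _
    rw [e1, e2, ← map_pow, hc4', map_mul]
  have hv' : ∀ a : 𝓞 M, a ∈ v.asIdeal → V.valuation (ak (AlgebraicClosure F) a) < 1 := hv
  have hdes := descent hv' (nos_up hΔA (t8_le V j₁) hjj hp h5 hV hT' h0' hfix')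
  have hgood := good_of_V W₁ hA1 hB1 v hv' hdes
  have hcur2 : W₁⁄M = (W₀⁄F)⁄M := by
    rw [hW₁]
    change (W₀.map (algebraMap (𝓞 F) (𝓞 M))).map (algebraMap (𝓞 M) M) = (W₀.map (algebraMap (𝓞 F) F)).map (algebraMap F M)
    rw [WeierstrassCurve.map_map, WeierstrassCurve.map_map, ← IsScalarTower.algebraMap_eq, ← IsScalarTower.algebraMap_eq]
  rw [hcur2] at hgood
  exact hB v hΔ hgood

end H13R
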