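import Mathlib
import Pool.Agent.Lib.H13R.C2
import Pool.Agent.Lib.H55K.BH1
import Pool.Agent.Lib.H55K.MM
import Pool.Agent.Lib.H55K.T11A
import Pool.Agent.Lib.H55K.T9B
import Pool.Agent.Lib.H55K.T9D
import Pool.Agent.Lib.H55P.S12

/-! # H13R: bad primes stay bad in p-extensions of M -/

open NumberField IsDedekindDomain WeierstrassCurve

namespace H13R

open H55P (IQ embF eF LF Per IsHecke Pt ac Inert Dec Nm UnitP PExt)
open H35P (WAB Ker tt GoodW IntW)
open H55K.MG (VC Crd)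
open H55K H55K.TQ

variable {F : Type} [Field F] [NumberField F] [IQ F] {W₀ : WeierstrassCurve (𝓞 F)} {Om : ℂ}
    {m : Ideal (𝓞 F)} {ψ : Ideal (𝓞 F) →*₀ 𝓞 F} {p : ℕ}

/-- The prime below in a smaller intermediate field. -/
theorem c3_below {F : Type} [Field F] [NumberField F] {Ω : Type} [Field Ω] [Algebra F Ω] {M K : IntermediateField F Ω}
    [NumberField M] [NumberField K] (hMK : M ≤ K) (w : HeightOneSpectrum (𝓞 K)) :
    ∃ v : HeightOneSpectrum (𝓞 M), ∀ (a : 𝓞 M) (b : 𝓞 K), ((a : M) : Ω) = ((b : K) : Ω) → (a ∈ v.asIdeal ↔ b ∈ w.asIdeal) := by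
  letI : Algebra M K := (IntermediateField.inclusion hMK).toRingHom.toAlgebra
  refine ⟨⟨w.asIdeal.under (𝓞 M), inferInstance, mt Ideal.eq_bot_of_comap_eq_bot w.ne_bot⟩, fun a b hab => ?_⟩
  have h1 : algebraMap (𝓞 M) (𝓞 K) a = b := by
    apply RingOfIntegers.ext
    apply Subtype.ext
    rw [← hab]
    rfl
  change algebraMap (𝓞 M) (𝓞 K) a ∈ w.asIdeal ↔ _
  rw [h1]

/-- A point of order p. -/
theorem c3_point {A B : F} {Ω : Type} [Field Ω] [DecidableEq Ω] [Algebra F Ω] {j : Ω →+* ℂ}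
    {act : 𝓞 F →+* AddMonoid.End (Pt (WAB A B) Ω)} (h : CMA F A B Om j act) (hp : p.Prime) :
    ∃ T : Pt (WAB A B) Ω, p • T = 0 ∧ T ≠ 0 := by
  have hp0 : ((p : ℕ) : 𝓞 F) ≠ 0 := by
    intro h0
    exact hp.ne_zero (by exact_mod_cast h0)
  obtain ⟨T₀, hT₀, -, hT₁, -⟩ := h.gen ((p : ℕ) : 𝓞 F) hp0
  refine ⟨T₀, ?_, ?_⟩
  · have h1 : act ((p : ℕ) : 𝓞 F) T₀ = 0 := hT₀
    rw [map_natCast] at h1
    rw [← AddMonoid.End.natCast_apply]
    exact h1
  · intro h0
    have h1 := (hT₁ 1).1 (by rw [h0]; exact map_zero _)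
    exact t8_dvd hp h1

/-- p is a unit at the primes of the discriminant. -/
theorem c3_vp (hp : PrimeH F W₀ p) {Ω : Type} [Field Ω] [Algebra F Ω] {M : IntermediateField F Ω} [NumberField M]
    {V : ValuationSubring Ω} {v : HeightOneSpectrum (𝓞 M)}
    (hv : ∀ a : 𝓞 M, a ∈ v.asIdeal → V.valuation ((a : M) : Ω) < 1)
    (hΔ : algebraMap (𝓞 F) (𝓞 M) W₀.Δ ∈ v.asIdeal) : V.valuation (p : Ω) = 1 := by
  have hpv : (p : 𝓞 M) ∉ v.asIdeal := by
    intro h0
    obtain ⟨x, hx, y, hy, hxy⟩ := Ideal.isCoprime_iff_exists.1 hp.cop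
    obtain ⟨c, rfl⟩ := Ideal.mem_span_singleton'.1 hx
    obtain ⟨d, rfl⟩ := Ideal.mem_span_singleton'.1 hy
    have h1 := congrArg (algebraMap (𝓞 F) (𝓞 M)) hxy
    rw [map_add, map_mul, map_mul, map_natCast, map_one] at h1
    have h2 : (1 : 𝓞 M) ∈ v.asIdeal := by
      rw [← h1]
      exact Ideal.add_mem _ (Ideal.mul_mem_left _ _ hΔ) (Ideal.mul_mem_left _ _ h0)
    exact v.isPrime.ne_top ((Ideal.eq_top_iff_one _).2 h2)
  have hv' : ∀ a : 𝓞 M, a ∈ v.asIdeal → V.valuation (ak Ω a) < 1 := hv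
  have h1 := t8_val hv' hpv
  have e : ak Ω ((p : ℕ) : 𝓞 M) = (p : Ω) := by
    have e1 : (((p : ℕ) : 𝓞 M) : M) = (p : M) := map_natCast (algebraMap (𝓞 M) M) p
    unfold ak
    rw [e1, map_natCast]
  rwa [e] at h1

/-- Chunk C3 (M). bad_K (T10.lean) and good_down (T8.lean) with the base M: V from exists_V for K, v = the prime of M below w (Algebra M K by inclusion; V(a) < 1 for a in v), Δ in v (m ≤ the prime of F below w: hH.supp), V(p) = 1 (p not in v because Δ in v; coprime). GMd from gmd_of_good. For g in M.fixingSubgroup with Inert V g: g^(p^k) in L.fixingSubgroup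
(H55P.PExt.pow, S12.lean), it fixes K, inert_triv (T1.lean): it fixes the points killed by p, fix_all: g does. A point T ≠ 0 killed by p (hact.gen as in good_down). core_bad (C2.lean). -/
theorem bad_KR (hH : BaseH F W₀ Om m ψ) (hp : PrimeH F W₀ p) {M L K : IntermediateField F (AlgebraicClosure F)}
    [NumberField M] [NumberField K] (hL : PExt p M L) (hMK : M ≤ K) (hKL : K ≤ L) (hB : BadM W₀ M)
    (w : HeightOneSpectrum (𝓞 K)) (hw : H55P.mK K m ≤ w.asIdeal) : ¬ GoodAt ((W₀⁄F)⁄K) w := by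
  classical
  intro hgood
  obtain ⟨V, hV⟩ := exists_V K w
  obtain ⟨j, hj⟩ := exists_j F (AlgebraicClosure F)
  obtain ⟨A, hA⟩ : ∃ A : F, A = -(algebraMap (𝓞 F) F W₀.c₄) / 48 := ⟨_, rfl⟩
  obtain ⟨B, hB'⟩ : ∃ B : F, B = -(algebraMap (𝓞 F) F W₀.c₆) / 864 := ⟨_, rfl⟩
  have hd := y3_ne W₀ hA hB' hH.data.ell
  have hper : Per F (embF F A) (embF F B) Om := by
    have e1 : embF F A = -(eF F W₀.c₄) / 48 := by
      rw [hA, map_div₀, map_neg, map_ofNat]
      rfl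
    have e2 : embF F B = -(eF F W₀.c₆) / 864 := by
      rw [hB', map_div₀, map_neg, map_ofNat]
      rfl
    rw [e1, e2]
    exact hH.data.per
  obtain ⟨act, hact⟩ := exists_CMA F A B Om j hd hper hj
  obtain ⟨u, huw⟩ : ∃ u : HeightOneSpectrum (𝓞 F), u.asIdeal = w.asIdeal.under (𝓞 F) :=
    ⟨⟨w.asIdeal.under (𝓞 F), inferInstance, mt Ideal.eq_bot_of_comap_eq_bot w.ne_bot⟩, rfl⟩
  have hmu : m ≤ u.asIdeal := by
    rw [huw]
    exact Ideal.map_le_iff_le_comap.1 hw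
  have hΔu : W₀.Δ ∈ u.asIdeal := (hH.supp u).2 hmu
  have hΔw : algebraMap (𝓞 F) (𝓞 K) W₀.Δ ∈ w.asIdeal := by
    rw [huw] at hΔu
    exact hΔu
  obtain ⟨v, hvw⟩ := c3_below hMK w
  have hv : ∀ a : 𝓞 M, a ∈ v.asIdeal → V.valuation ((a : M) : AlgebraicClosure F) < 1 := by
    intro a ha
    have h1 : ∃ b : 𝓞 K, ((a : M) : AlgebraicClosure F) = ((b : K) : AlgebraicClosure F) := by
      refine ⟨⟨⟨((a : M) : AlgebraicClosure F), hMK (a : M).2⟩, ?_⟩, rfl⟩
      have h2 : IsIntegral ℤ (a : M) := a.isIntegral_coe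
      have h3 : IsIntegral ℤ ((IntermediateField.inclusion hMK) (a : M)) :=
        h2.map ((IntermediateField.inclusion hMK).toRingHom.toIntAlgHom)
      exact h3
    obtain ⟨b, hb⟩ := h1
    rw [hb]
    exact hV b ((hvw a b hb).1 ha)
  have hΔv : algebraMap (𝓞 F) (𝓞 M) W₀.Δ ∈ v.asIdeal := (hvw _ (algebraMap (𝓞 F) (𝓞 K) W₀.Δ) rfl).2 hΔw
  have hVp : V.valuation (p : AlgebraicClosure F) = 1 := c3_vp hp hv hΔv
  have hGM := gmd_of_good W₀ hA hB' w hV hgood
  have hΔA : (WAB A B).Δ ≠ 0 := by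
    have e : (WAB A B).Δ = -16 * (4 * A ^ 3 + 27 * B ^ 2) := by
      unfold WAB WeierstrassCurve.Δ WeierstrassCurve.b₂ WeierstrassCurve.b₄ WeierstrassCurve.b₆ WeierstrassCurve.b₈
      ring
    rw [e]
    exact mul_ne_zero (by norm_num) hd
  obtain ⟨k, hk⟩ := H55P.PExt.pow p hp.prime M L hL
  obtain ⟨T, hT, hT0⟩ := c3_point hact hp.prime
  refine core_bad hH.data.ell (jint_of hH.data.per hH.data.ell) hp.prime hp.five hA hB' M hB hΔv hv hVp hT hT0 ?_
  intro g hgM hg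
  refine fix_all hact hp.prime ((unr_iff hp.prime).1 hp.unr) g (k := k) ?_ T hT
  intro P hP
  refine inert_triv hΔA hGM (g ^ (p ^ k)) ?_ ?_ p hVp P hP
  · intro x hx
    exact (IntermediateField.mem_fixingSubgroup_iff L _).1 (hk g hgM) x (hKL hx)
  · have h1 : g ∈ H55P.inS F V := hg
    exact pow_mem h1 (p ^ k)

open Classical in
/-- Chunk C3 (M). bad_tors (T11B.lean) with the base M (PExt.pow, core_bad). -/
theorem bad_torsR (hH : BaseH F W₀ Om m ψ) (hp : PrimeH F W₀ p) {M L K : IntermediateField F (AlgebraicClosure F)}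
    [NumberField M] (hL : PExt p M L) (hKL : K ≤ L) (hB : BadM W₀ M) {V : ValuationSubring (AlgebraicClosure F)}
    {v : HeightOneSpectrum (𝓞 M)} (hv : ∀ a : 𝓞 M, a ∈ v.asIdeal → V.valuation ((a : M) : AlgebraicClosure F) < 1)
    (hΔ : algebraMap (𝓞 F) (𝓞 M) W₀.Δ ∈ v.asIdeal) (T : Pt (W₀⁄F) (AlgebraicClosure F)) (hT : p • T = 0)
    (hf : ∀ s ∈ K.fixingSubgroup, Inert V s → ac (W₀⁄F) s T = T) : T = 0 := by
  obtain ⟨A, hA⟩ : ∃ A : F, A = -(algebraMap (𝓞 F) F W₀.c₄) / 48 := ⟨_, rfl⟩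
  obtain ⟨B, hB'⟩ : ∃ B : F, B = -(algebraMap (𝓞 F) F W₀.c₆) / 864 := ⟨_, rfl⟩
  have hell := hH.data.ell
  have hd := y3_ne W₀ hA hB' hell
  obtain ⟨j, hj⟩ := exists_j F (AlgebraicClosure F)
  have hper : Per F (embF F A) (embF F B) Om := by
    have e1 : embF F A = -(eF F W₀.c₄) / 48 := by
      rw [hA, map_div₀, map_neg, map_ofNat]
      rfl
    have e2 : embF F B = -(eF F W₀.c₆) / 864 := by
      rw [hB', map_div₀, map_neg, map_ofNat]
      rfl
    rw [e1, e2]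
    exact hH.data.per
  obtain ⟨act, hC⟩ := exists_CMA F A B Om j hd hper hj
  have hjint := jint_of hH.data.per hell
  obtain ⟨Kg, u, hG⟩ := exists_gmod (Ω := AlgebraicClosure F) hd (y3_j W₀ hA hB' hjint) V
  have hunr := (unr_iff hp.prime).1 hp.unr
  have hVp : V.valuation (p : AlgebraicClosure F) = 1 := c3_vp hp hv hΔ
  have hΔA : (WAB A B).Δ ≠ 0 := by
    have e : (WAB A B).Δ = -16 * (4 * A ^ 3 + 27 * B ^ 2) := by
      unfold WAB WeierstrassCurve.Δ WeierstrassCurve.b₂ WeierstrassCurve.b₄ WeierstrassCurve.b₆ WeierstrassCurve.b₈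
      ring
    rw [e]
    exact mul_ne_zero (by norm_num) hd
  obtain ⟨r, s, t, hVC⟩ := vc_short W₀ hA hB'
  have hVC' := vc_map (algebraMap F (AlgebraicClosure F)) hVC
  have hΔ1 : ((WAB A B).map (algebraMap F (AlgebraicClosure F))).Δ ≠ 0 := by
    rw [WeierstrassCurve.map_Δ]
    exact (map_ne_zero _).2 hΔA
  have hΔ2 : ((W₀⁄F).map (algebraMap F (AlgebraicClosure F))).Δ ≠ 0 := by
    have e : (W₀⁄F).Δ = algebraMap (𝓞 F) F W₀.Δ := WeierstrassCurve.map_Δ _ _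
    rw [WeierstrassCurve.map_Δ, e]
    refine (map_ne_zero _).2 fun h1 => hell ?_
    exact (map_eq_zero_iff _ (FaithfulSMul.algebraMap_injective (𝓞 F) F)).1 h1
  obtain ⟨Θ, hΘ⟩ : ∃ Θ : Pt (WAB A B) (AlgebraicClosure F) ≃+ Pt (W₀⁄F) (AlgebraicClosure F),
      Crd (algebraMap F (AlgebraicClosure F) 1) (algebraMap F (AlgebraicClosure F) r)
        (algebraMap F (AlgebraicClosure F) s) (algebraMap F (AlgebraicClosure F) t) Θ := MG.vc_iso hVC' hΔ1 hΔ2
  have hcom : ∀ (g : AlgebraicClosure F ≃ₐ[F] AlgebraicClosure F) (P : Pt (WAB A B) (AlgebraicClosure F)),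
      ac (W₀⁄F) g (Θ P) = Θ (ac (WAB A B) g P) := by
    intro g P
    by_cases hP : P = 0
    · subst hP
      rw [map_zero, map_zero, map_zero, map_zero]
    · obtain ⟨a1, a2, a3⟩ := hΘ P hP
      obtain ⟨b1, b2, b3⟩ := MG.ac_crd (W := WAB A B) g P
      have hP' : ac (WAB A B) g P ≠ 0 := fun h => hP (b3.1 h)
      obtain ⟨c1, c2, c3⟩ := hΘ _ hP'
      obtain ⟨d1, d2, d3⟩ := MG.ac_crd (W := W₀⁄F) g (Θ P)
      have e2 := congrArg g a2
      have e3 := congrArg g a3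
      simp only [map_add, map_mul, map_pow, map_one, AlgEquiv.commutes, one_pow, one_mul, mul_one] at e2 e3 c2 c3
      have f2 : xc (ac (W₀⁄F) g (Θ P)) = xc (Θ (ac (WAB A B) g P)) := by
        rw [d1]
        linear_combination c2 - e2 - b1
      refine pt_ext (fun h => a1 (d3.1 h)) c1 f2 ?_
      rw [d2]
      rw [d1] at f2
      linear_combination c3 - e3 - b2 - (algebraMap F (AlgebraicClosure F) s) * f2
  by_contra h0
  obtain ⟨T', hT'⟩ := Θ.surjective T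
  have hT0 : T' ≠ 0 := by
    rintro rfl
    exact h0 (by rw [← hT', map_zero])
  have hTp : p • T' = 0 := by
    apply Θ.injective
    rw [map_nsmul, hT', hT, map_zero]
  obtain ⟨k, hk⟩ := H55P.PExt.pow p hp.prime M L hL
  refine core_bad hell hjint hp.prime hp.five hA hB' M hB hΔ hv hVp hTp hT0 ?_
  intro g hgM hg
  refine fix_all hC hp.prime hunr g (k := k) ?_ T' hTp
  intro P hP
  have hI : Inert V (g ^ (p ^ k)) := by
    have h1 : g ∈ H55P.inS F V := hg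
    exact pow_mem h1 (p ^ k)
  refine fix_from_one hC hG hp.prime hp.five hVp (g ^ (p ^ k)) hI hTp hT0 ?_ P hP
  apply Θ.injective
  rw [← hcom, hT']
  refine hf _ ?_ hI
  exact (IntermediateField.mem_fixingSubgroup_iff K _).2 fun x hx =>
    (IntermediateField.mem_fixingSubgroup_iff L _).1 (hk g hgM) x (hKL hx)

end H13R
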