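import Mathlib
import Pool.Agent.Lib.H55K.Y9
import Pool.Agent.Lib.H55P.CL

/-! # H13R: the Galois closure over F is unramified at p -/

open NumberField IsDedekindDomain WeierstrassCurve

namespace H13R

open H55P (PExt UnrP)

variable {F : Type} [Field F] [NumberField F] {p : ℕ}

/-- Chunk A1 (S/M). L = clos ⊥ K (H55P/CL.lean, the Galois closure of K over the bottom field), N = a finite normal extension of F in Ω containing K
(IntermediateField.normalClosure F K Ω, K is finite over F: H13X.yn1_fin). The proof of H55K.TQ.unr_clos (F1.lean) with N in place of L: clos_ram ⊥ K N bot_le hKN (all s map N to itself), y9_up, y9_ram, y9_unr, unrP_sub. FiniteDimensional: clos_le. -/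
theorem unr_closF (hp : p.Prime) (hpu : UnrP p F) {K : IntermediateField F (AlgebraicClosure F)} [NumberField K] (hU : UnrP p K) :
    ∃ (L : IntermediateField F (AlgebraicClosure F)) (_ : NumberField L), FiniteDimensional F L ∧ K ≤ L ∧
      (∀ s : AlgebraicClosure F ≃ₐ[F] AlgebraicClosure F, ∀ x ∈ L, s x ∈ L) ∧ UnrP p L := by
  classical
  have hKf : FiniteDimensional F K := by
    have : IsScalarTower ℚ F K := IsScalarTower.of_algebraMap_eq' (Subsingleton.elim _ _)
    exact Module.Finite.of_restrictScalars_finite ℚ F K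
  obtain ⟨N, hN⟩ : ∃ N : IntermediateField F (AlgebraicClosure F), N = IntermediateField.normalClosure F K (AlgebraicClosure F) := ⟨_, rfl⟩
  have hNf : FiniteDimensional F N := by
    rw [hN]
    infer_instance
  have hKN : K ≤ N := by
    rw [hN]
    exact K.le_normalClosure
  have hNn : ∀ s : AlgebraicClosure F ≃ₐ[F] AlgebraicClosure F, ∀ x ∈ N, s x ∈ N := by
    intro s x hx
    have hnor : Normal F N := by
      rw [hN]
      infer_instance
    have h1 := (IntermediateField.normal_iff_forall_map_le'.1 hnor) s
    exact h1 ⟨x, hx, rfl⟩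
  have hbf : FiniteDimensional F (⊥ : IntermediateField F (AlgebraicClosure F)) := inferInstance
  have hbn : NumberField (⊥ : IntermediateField F (AlgebraicClosure F)) := H16C.FR_numberField _
  have hle : H55P.clos (⊥ : IntermediateField F (AlgebraicClosure F)) K ≤ N :=
    H55P.clos_le ⊥ K N hKN fun s _ => hNn s
  have hCf : FiniteDimensional F (H55P.clos (⊥ : IntermediateField F (AlgebraicClosure F)) K) := H55P.finDim_of_le hle
  have hCn : NumberField (H55P.clos (⊥ : IntermediateField F (AlgebraicClosure F)) K) := H16C.FR_numberField _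
  refine ⟨_, hCn, hCf, H55P.le_clos _ _, fun s x hx => H55P.clos_norm ⊥ K s ?_ x hx, ?_⟩
  · rw [IntermediateField.fixingSubgroup_bot]
    exact Subgroup.mem_top s
  refine H55P.unrP_sub p hp _ hpu fun v hv hpv => ?_
  obtain ⟨v', h1⟩ := H55K.y9_up (Ω := AlgebraicClosure F) v
  have hr' := (H55K.y9_ram h1 _).2 hv
  have h3 : H55P.Ram (⊥ : IntermediateField F (AlgebraicClosure F)) K v'.asIdeal :=
    H55P.clos_ram ⊥ K N bot_le hKN (fun s _ => hNn s) v' hr'
  exact H55K.y9_unr K hU ((H55K.y9_ram h1 K).1 h3) hpv

end H13R
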