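import Mathlib
import Pool.Agent.Lib.H13R.A1
import Pool.Agent.Lib.H13R.B2
import Pool.Agent.Lib.H28T.W1
import Pool.Agent.Lib.H55K.DM

/-! # H13R: the auxiliary prime of M -/

open NumberField IsDedekindDomain WeierstrassCurve

namespace H13R

open H55P H55R
open H35P (WAB Ker tt)
open H55K H55K.TQ
open H28T

variable {F : Type} [Field F] [NumberField F] [IQ F] {W₀ : WeierstrassCurve (𝓞 F)} {Om : ℂ}
    {m : Ideal (𝓞 F)} {ψ : Ideal (𝓞 F) →*₀ 𝓞 F} {p : ℕ}

/-- Chunk B3 (M). K = L from unr_closF (A1.lean) for M; C = the field generated over K by a primitive p-th root of unity ζ of Ω (IntermediateField.adjoin F of K and ζ; or adjoin K {ζ} as IntermediateField K Ω and restrictScalars F): Galois over F (K is normal over F,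
all conjugates of ζ are powers of ζ), finrank K C ≤ p - 1 (ζ is a root of the cyclotomic polynomial of degree p - 1: minpoly divides it). exists_niceR: w. v = the prime w.under (𝓞 M) of M (M ≤ K ≤ C; make C an M-algebra), v₀ = w.under (𝓞 F). inertiaDeg of w over F is 1 (fs F C v₀ = 1: Ideal.inertiaDegIn_eq_inertiaDeg as at the end of cb3_niceG), so inertiaDeg of v over F is 1
(inertiaDeg_tower), relNorm v = v₀ (H55K.DD.below (D8.lean): relNorm = v₀^inertiaDeg), and the residue fields of v and v₀ are isomorphic, Nat.card of the points: use H55K.pts_w (DM.lean; hH.deu, hH.supp) for v: the number of points is Nm (1 - ψ (relNorm v)) = Nm (1 - ψ v₀) = the number of points over v₀ (hH.deu), not divisible by p. hecke: Nm x = absNorm (span {x}) (definition of Nm). modulus: mK M m ≤ v iff m ≤ v₀ (DD.below), hH.supp. -/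
theorem exists_goodGR (hH : BaseH F W₀ Om m ψ) (hp : PrimeH F W₀ p) (M : IntermediateField F (AlgebraicClosure F)) [NumberField M]
    (hU : UnrP p M) : ∃ v, GoodG p W₀ m ψ M v := by
  classical
  obtain ⟨K, nK, fK, hMK, hsK, hUK⟩ := unr_closF hp.prime hp.unr hU
  have hpF : Fact p.Prime := ⟨hp.prime⟩
  have hp0 : NeZero p := ⟨hp.prime.ne_zero⟩
  have hNK : Normal F K := by
    rw [IntermediateField.normal_iff_forall_map_le']
    intro σ
    rintro _ ⟨x, hx, rfl⟩
    exact hsK σ x hx
  have hGK : IsGalois F K := { to_normal := hNK }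
  obtain ⟨C, iC, hC, iK, hCy⟩ := W1_ex p K
  let iF : Algebra F C := ((algebraMap K C).comp (algebraMap F K)).toAlgebra
  have hT : IsScalarTower F K C := IsScalarTower.of_algebraMap_eq fun x => rfl
  let iM : Algebra M C := ((algebraMap K C).comp (IntermediateField.inclusion hMK).toRingHom).toAlgebra
  have hTM : IsScalarTower F M C := IsScalarTower.of_algebraMap_eq fun x => rfl
  have hN : Normal F C := W1_normal p K C
  have hGC : IsGalois F C := { to_normal := hN }
  have hGKC : IsGalois K C := IsCyclotomicExtension.isGalois {p} K C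
  let ζ : C := IsCyclotomicExtension.zeta p K C
  have hζ : IsPrimitiveRoot ζ p := IsCyclotomicExtension.zeta_spec p K C
  have hdeg : Module.finrank K C ∣ p - 1 := by
    rw [← IsGalois.card_aut_eq_finrank K C, ← ZMod.card_units p, ← Nat.card_eq_fintype_card]
    refine Subgroup.card_dvd_of_injective (hζ.autToPow K) ?_
    exact IsPrimitiveRoot.autToPow_injective K hζ
  have hdeg' : Module.finrank K C ≤ p - 1 :=
    Nat.le_of_dvd (by have := hp.five; omega) hdeg
  obtain ⟨w, hw1, hw2, hw3⟩ := exists_niceR hH hp K C hUK hζ hdeg'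
  have hwpr := w.isPrime
  have hwmax := w.isMaximal
  let v : HeightOneSpectrum (𝓞 M) := w.under (𝓞 M)
  have hvmax := v.isMaximal
  obtain ⟨v₁, e1, e2, e3, e4⟩ := DD.below (F := F) (K := M) (m := m) v
  have hv₁ : v₁ = w.under (𝓞 F) := by
    apply HeightOneSpectrum.ext
    rw [e1]
    show (w.asIdeal.under (𝓞 M)).under (𝓞 F) = w.asIdeal.under (𝓞 F)
    rw [Ideal.under_under]
  obtain ⟨g1, g2, g3⟩ := hw1
  rw [← hv₁] at g1 g2 g3 hw3
  have hfd : v.asIdeal.inertiaDeg (𝓞 F) = 1 := by
    have hl1 : w.asIdeal.LiesOver v₁.asIdeal := ⟨by rw [hv₁]; rfl⟩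
    have hl2 : w.asIdeal.LiesOver v.asIdeal := ⟨rfl⟩
    have h1 : w.asIdeal.inertiaDeg (𝓞 F) = 1 := by
      rw [← Ideal.inertiaDegIn_eq_inertiaDeg v₁.asIdeal w.asIdeal Gal(C/F)]
      exact hw3
    have h2 := Ideal.inertiaDeg_tower (R := 𝓞 F) v.asIdeal w.asIdeal
    rw [h1] at h2
    exact Nat.eq_one_of_mul_eq_one_right h2.symm
  have hrel : Ideal.relNorm (𝓞 F) v.asIdeal = v₁.asIdeal := by
    rw [e2, hfd, pow_one]
  have d1 : algebraMap (𝓞 F) (𝓞 M) W₀.Δ ∉ v.asIdeal := by
    intro h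
    apply g1
    rw [e1]
    exact h
  have d2 : ¬ mK M m ≤ v.asIdeal := by
    intro h
    exact g1 ((hH.supp v₁).2 (e4.1 h))
  have d3 : (p : 𝓞 M) ∉ v.asIdeal := by
    intro h
    apply g2
    rw [e1]
    show algebraMap (𝓞 F) (𝓞 M) (p : 𝓞 F) ∈ v.asIdeal
    rw [map_natCast]
    exact h
  have d5 : ¬ p ∣ Nm (1 - ψ (Ideal.relNorm (𝓞 F) v.asIdeal)) := by
    rw [hrel, ← hH.deu v₁ g1]
    exact g3
  refine ⟨v, d1, d2, d3, ?_, d5⟩
  rw [pts_w hH.data.hecke (fun v hv _ => hH.deu v hv) v d1 d2]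
  exact d5

end H13R
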