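import Mathlib
import Pool.Agent.Lib.H13R.B3
import Pool.Agent.Lib.H13R.C3
import Pool.Agent.Lib.H55K.NA7
import Pool.Agent.Lib.H55P.I4

/-! # H13R: Selmer groups in the tower over M -/

open NumberField IsDedekindDomain WeierstrassCurve

namespace H13R

open H55P (IQ embF eF LF Per IsHecke Pt ac acR Inert Dec Nm UnitP Ram RamF PExt SelG ShaG PtsG clos UnrP)
open H35P (WAB Ker tt GoodW IntW)
open H55K.MG (VC Crd)
open H55K.TQ

variable {F : Type} [Field F] [NumberField F] [IQ F] {W₀ : WeierstrassCurve (𝓞 F)} {Om : ℂ}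
    {m : Ideal (𝓞 F)} {ψ : Ideal (𝓞 F) →*₀ 𝓞 F} {p : ℕ}

open Classical in
/-- There is no p-torsion over the fields in p-extensions of M. -/
theorem tors_KR (hH : BaseH F W₀ Om m ψ) (hp : PrimeH F W₀ p) {M L K : IntermediateField F (AlgebraicClosure F)}
    [NumberField M] (hUM : UnrP p M) (hL : PExt p M L) (hK : K ≤ L) (T : Pt (W₀⁄F) (AlgebraicClosure F)) (hT : p • T = 0)
    (hf : ∀ s ∈ K.fixingSubgroup, ac (W₀⁄F) s T = T) : T = 0 := by
  obtain ⟨v, hv⟩ := exists_goodGR hH hp M hUM
  have hLf : FiniteDimensional F L := hL.fin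
  have hMf : FiniteDimensional F M := H55P.finDim_of_le hL.le
  have hE : (W₀⁄F).IsElliptic := H55P.gen_ell W₀ hH.data.ell
  exact H55P.tors_tower (W₀⁄F) p hp.prime M L hL
    (fun T hT hf => H55P.tors_of_prime W₀ p hp.prime M v hv.disc hv.res hv.pts T hT hf) K hK T hT hf

open Classical in
/-- The tower theorem over M. -/
theorem selR (hH : BaseH F W₀ Om m ψ) (hp : PrimeH F W₀ p) {M L K : IntermediateField F (AlgebraicClosure F)}
    [NumberField M] [NumberField K] (hUM : UnrP p M) (hB : BadM W₀ M) (hL : PExt p M L) (hMK : M ≤ K) (hK : K ≤ L)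
    (hU : UnrP p K) (hN : NoRel p W₀ M K) (hS : SelG p W₀ M) : SelG p W₀ K ∧ ShaG p W₀ K ∧ PtsG p W₀ K := by
  have hLf : FiniteDimensional F L := hL.fin
  have hKf : FiniteDimensional F K := H55P.finDim_of_le hK
  have hMf : FiniteDimensional F M := H55P.finDim_of_le hL.le
  have hell : (W₀⁄F).IsElliptic := H55P.gen_ell W₀ hH.data.ell
  obtain ⟨v₀, hv₀⟩ := exists_goodGR hH hp M hUM
  have hC' := H55P.clos_pext p hp.prime M K L hL hMK hK
  have h0 : ∀ T : Pt (W₀⁄F) (AlgebraicClosure F), p • T = 0 →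
      (∀ s ∈ M.fixingSubgroup, ac (W₀⁄F) s T = T) → T = 0 := fun T hT hf =>
    H55P.tors_of_prime W₀ p hp.prime M v₀ hv₀.disc hv₀.res hv₀.pts T hT hf
  have hSK : H55P.SelZero (W₀⁄F) p K := H55K.NB.sel_towerB W₀ p hp.prime M (clos M K) hC' h0
    (fun s _ t _ T hT => H55K.NB.comm_tors hH hp.prime s t T hT)
    (fun v hv => by
      have hv' := H55P.clos_ram M K L hMK hK hL.norm v hv
      have hn := H55P.ram_norm p hp.prime M L hL K hMK hK hU v hv'
      refine ⟨fun hpv => ?_, ?_⟩
      · have h1 : v.asIdeal ∣ Ideal.span {(p : 𝓞 M)} := by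
          rw [Ideal.dvd_iff_le, Ideal.span_singleton_le_iff_mem]
          exact hpv
        have h2 := map_dvd Ideal.absNorm h1
        rw [Ideal.absNorm_span_natCast] at h2
        obtain ⟨k, -, hk⟩ := (Nat.dvd_prime_pow hp.prime).1 h2
        have hk0 : k ≠ 0 := by
          rintro rfl
          rw [pow_zero, Ideal.absNorm_eq_one_iff] at hk
          exact v.isPrime.ne_top hk
        have h3 : p ∣ Ideal.absNorm v.asIdeal := by
          rw [hk]
          exact dvd_pow_self p hk0
        have h4 : 0 < Ideal.absNorm v.asIdeal := by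
          rw [hk]
          exact pow_pos hp.prime.pos k
        have h5 : p ∣ 1 := by
          have h6 := Nat.dvd_sub h3 hn
          rwa [Nat.sub_sub_self h4] at h6
        exact hp.prime.one_lt.ne' (Nat.dvd_one.1 h5)
      by_cases hΔ : algebraMap (𝓞 F) (𝓞 M) W₀.Δ ∈ v.asIdeal
      · right
        intro V hV T hT hf
        exact bad_torsR hH hp hL (H55P.clos_le M K L hK hL.norm) hB (V := V) (v := v) (fun a ha => (hV _).1 ha) hΔ T hT hf
      · left
        exact ⟨hΔ, hN v hv' hΔ⟩) hS K hMK (H55P.le_clos M K)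
  exact ⟨hSK, H55P.sha_zero (W₀⁄F) p hp.prime K hSK, H55P.pts_fin (W₀⁄F) p hp.prime K hSK⟩

open Classical in
/-- Descent of the vanishing of the Selmer group from K to M. -/
theorem sel_downR (hH : BaseH F W₀ Om m ψ) (hp : PrimeH F W₀ p) {M L K : IntermediateField F (AlgebraicClosure F)}
    [NumberField M] (hUM : UnrP p M) (hL : PExt p M L) (hMK : M ≤ K) (hK : K ≤ L) (hS : SelG p W₀ K) : SelG p W₀ M := by
  have hLf : FiniteDimensional F L := hL.fin
  induction hn : Module.finrank F K using Nat.strong_induction_on generalizing K with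
  | _ n ih =>
    rcases eq_or_ne K M with rfl | hne
    · exact hS
    obtain ⟨N, hMN, hNK, hdeg, hnorm⟩ := H55P.chain_step p hp.prime M K L hL hMK hK hne
    have hKf : FiniteDimensional F K := H55P.finDim_of_le hK
    have hNf : FiniteDimensional F N := H55P.finDim_of_le hNK
    have hNpos : 0 < Module.finrank F N := Module.finrank_pos
    have hlt : Module.finrank F N < n := by
      rw [← hn, hdeg]
      exact lt_mul_of_one_lt_right hNpos hp.prime.one_lt
    refine ih _ hlt hMN (hNK.trans hK) ?_ rfl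
    refine H55P.sel_down (W₀⁄F) p N K hNK (fun s hs t ht => ?_) (fun T hT hf => tors_KR hH hp hUM hL hK T hT hf) hS
    rw [IntermediateField.mem_fixingSubgroup_iff] at ht ⊢
    intro x hx
    have e : (s * t * s⁻¹) x = s (t (s⁻¹ x)) := rfl
    have h1 : s⁻¹ x ∈ K := hnorm s⁻¹ (inv_mem hs) x hx
    rw [e, ht _ h1]
    exact s.apply_symm_apply x

end H13R
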