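import Mathlib
import Pool.Agent.Lib.H35P.FG
import Pool.Agent.Lib.H55K.M3A

/-! # H13R: congruent points, any equation of good reduction -/

open NumberField WeierstrassCurve

namespace H13R

open H35P (WAB Ker GoodW IntW)
open H55K H55K.MG

variable {k : Type} [Field k] [DecidableEq k] {W : WeierstrassCurve k} {V : ValuationSubring k}

/-- xc, yc of a sum of affine points with integral slope is integral: the sum is not in the kernel. -/
theorem r1_sum (hI : IntW W V) {x₁ y₁ x₂ y₂ : k} (h₁ : W.toAffine.Nonsingular x₁ y₁) (h₂ : W.toAffine.Nonsingular x₂ y₂)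
    (hc : ¬ (x₁ = x₂ ∧ y₁ = W.toAffine.negY x₂ y₂)) (hx1 : x₁ ∈ V) (hx2 : x₂ ∈ V)
    (hl : W.toAffine.slope x₁ x₂ y₁ y₂ ∈ V) :
    ¬ Ker V ((Affine.Point.some x₁ y₁ h₁ : W.toAffine.Point) + Affine.Point.some x₂ y₂ h₂) := by
  rw [Affine.Point.add_some hc]
  intro hK
  have hK' : 1 < V.valuation (W.toAffine.addX x₁ x₂ (W.toAffine.slope x₁ x₂ y₁ y₂)) := hK
  refine absurd hK' (not_lt.2 ((V.valuation_le_one_iff _).2 ?_))
  unfold Affine.addX
  exact sub_mem (sub_mem (sub_mem (add_mem (pow_mem hl 2) (mul_mem hI.a1 hl)) hI.a2) hx1) hx2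

omit [DecidableEq k] in
theorem r1_div {a b : k} (ha : a ∈ V) (hb : V.valuation b = 1) : a / b ∈ V := by
  rw [← V.valuation_le_one_iff, map_div₀, hb, div_one]
  exact (V.valuation_le_one_iff _).2 ha

/-- Chunk R1 (M), pure algebra (the converse of H55K.MG.cong_ker, M3A.lean; compare H35P.rd, RD.lean, whose private lemmas RD_le, RD_mul_lt may be copied). P not in Ker, Q - P in Ker. (1) Q is not in Ker: otherwise P = Q - (Q - P) in Ker (H35P.ker_sub h.toIntW). So the coordinates x₁, y₁ of P and x₂, y₂ of Q are in V (int_crd). P - Q in Ker (H35P.ker_neg).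
Write -Q = (x₂, n), n = negY x₂ y₂ = -y₂ - a₁ x₂ - a₃ (in V). P - Q = P + (-Q) (sub_eq_add_neg, Affine.Point.neg_some, Affine.Point.add_some), its x-coordinate is addX x₁ x₂ l = l^2 + a₁ l - a₂ - x₁ - x₂, l the slope of (x₁, y₁), (x₂, n). KEY: if l is in V then addX is in V, so P - Q is not in Ker (unless P + (-Q) = 0 by add_of_Y_eq: then P = Q and the claim is trivial).
(2) V(x₁ - x₂) < 1: otherwise it is 1 (both in V), l = (y₁ - n)/(x₁ - x₂) (slope_of_X_ne) is in V: contradiction. (3) V(y₁ - y₂) < 1: otherwise V(y₁ - y₂) = 1, so P ≠ Q. If x₁ ≠ x₂: the identity (y₁ - n)(y₁ - y₂) = (x₁ - x₂) G with G = x₁^2 + x₁ x₂ + x₂^2 + a₂ (x₁ + x₂) + a₄ - a₁ y₁ (hkey in the proof of unit_diff, from the two equations) gives l = (y₁ - n)/(x₁ - x₂) = G/(y₁ - y₂), in V: contradiction.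
If x₁ = x₂: Affine.Y_eq_of_X_eq gives y₁ = n (y₁ ≠ y₂), P = -Q, P + (-Q) = 2 P, slope_of_Y_ne: l = (3 x₁^2 + 2 a₂ x₁ + a₄ - a₁ y₁)/(y₁ - negY x₁ y₁) and negY x₁ y₁ = y₂ (negY_negY), so l is in V: contradiction. -/
theorem cls_convR (h : GoodW W V) {P Q : W.toAffine.Point} (hP : ¬ Ker V P) (hK : Ker V (Q - P)) : ¬ Ker V Q ∧
    V.valuation (xc Q - xc P) < 1 ∧ V.valuation (yc Q - yc P) < 1 := by
  have hI : IntW W V := h.toIntW
  have hQ : ¬ Ker V Q := by
    intro hQ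
    apply hP
    have h1 := H35P.ker_sub hI _ _ hQ hK
    rwa [sub_sub_cancel] at h1
  refine ⟨hQ, ?_⟩
  obtain ⟨hP0, hPx, hPy⟩ := int_crd h hP
  obtain ⟨hQ0, hQx, hQy⟩ := int_crd h hQ
  have hK2 : Ker V (P - Q) := by
    have h1 := (H35P.ker_neg (Q - P)).2 hK
    rwa [neg_sub] at h1
  rcases P with _ | ⟨x₁, y₁, h₁⟩
  · exact absurd rfl hP0
  rcases Q with _ | ⟨x₂, y₂, h₂⟩
  · exact absurd rfl hQ0
  change V.valuation (x₂ - x₁) < 1 ∧ V.valuation (y₂ - y₁) < 1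
  have hx1 : x₁ ∈ V := hPx
  have hx2 : x₂ ∈ V := hQx
  have hy1 : y₁ ∈ V := hPy
  have hy2 : y₂ ∈ V := hQy
  have hE1 := (Affine.equation_iff ..).1 h₁.1
  have hE2 := (Affine.equation_iff ..).1 h₂.1
  rw [sub_eq_add_neg, Affine.Point.neg_some] at hK2
  have hneg : W.toAffine.negY x₂ y₂ = -y₂ - W.a₁ * x₂ - W.a₃ := rfl
  have hnV : W.toAffine.negY x₂ y₂ ∈ V := by
    rw [hneg]
    exact sub_mem (sub_mem (neg_mem hy2) (mul_mem hI.a1 hx2)) hI.a3
  by_cases hc : x₁ = x₂ ∧ y₁ = W.toAffine.negY x₂ (W.toAffine.negY x₂ y₂)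
  · have hyy : y₁ = y₂ := by rw [hc.2, Affine.negY_negY]
    rw [hc.1, hyy, sub_self, sub_self, map_zero]
    exact ⟨zero_lt_one, zero_lt_one⟩
  have hslope : W.toAffine.slope x₁ x₂ y₁ (W.toAffine.negY x₂ y₂) ∉ V := fun hl =>
    r1_sum hI h₁ ((Affine.nonsingular_neg ..).2 h₂) hc hx1 hx2 hl hK2
  have hXlt : V.valuation (x₁ - x₂) < 1 := by
    refine lt_of_le_of_ne ((V.valuation_le_one_iff _).2 (sub_mem hx1 hx2)) fun he => ?_
    have hne : x₁ ≠ x₂ := by
      rintro rfl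
      rw [sub_self, map_zero] at he
      exact zero_ne_one he
    apply hslope
    rw [Affine.slope_of_X_ne hne]
    exact r1_div (sub_mem hy1 hnV) he
  have hYlt : V.valuation (y₁ - y₂) < 1 := by
    refine lt_of_le_of_ne ((V.valuation_le_one_iff _).2 (sub_mem hy1 hy2)) fun he => ?_
    have hyne : y₁ ≠ y₂ := by
      rintro rfl
      rw [sub_self, map_zero] at he
      exact zero_ne_one he
    by_cases hxx : x₁ = x₂
    · have hneg1 : y₁ = W.toAffine.negY x₂ y₂ := (Affine.Y_eq_of_X_eq h₁.1 h₂.1 hxx).resolve_left hyne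
      have hy' : y₁ ≠ W.toAffine.negY x₂ (W.toAffine.negY x₂ y₂) := fun hh => hc ⟨hxx, hh⟩
      apply hslope
      rw [Affine.slope_of_Y_ne hxx hy']
      have e : y₁ - W.toAffine.negY x₁ y₁ = y₁ - y₂ := by
        have e1 : W.toAffine.negY x₁ y₁ = y₂ := by
          rw [hneg1, hxx, Affine.negY_negY]
        rw [e1]
      rw [e]
      have h2V : (2 : k) ∈ V := by exact_mod_cast natCast_mem V 2
      have h3V : (3 : k) ∈ V := by exact_mod_cast natCast_mem V 3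
      exact r1_div (sub_mem (add_mem (add_mem (mul_mem h3V (pow_mem hx1 2)) (mul_mem (mul_mem h2V hI.a2) hx1)) hI.a4)
        (mul_mem hI.a1 hy1)) he
    · have hxx0 : x₁ - x₂ ≠ 0 := sub_ne_zero.2 hxx
      have hid : (y₁ - W.toAffine.negY x₂ y₂) * (y₁ - y₂) =
          (x₁ - x₂) * (x₁ ^ 2 + x₁ * x₂ + x₂ ^ 2 + W.a₂ * (x₁ + x₂) + W.a₄ - W.a₁ * y₁) := by
        rw [hneg]
        linear_combination hE1 - hE2
      apply hslope
      rw [Affine.slope_of_X_ne hxx]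
      have e : (y₁ - W.toAffine.negY x₂ y₂) / (x₁ - x₂) =
          (x₁ ^ 2 + x₁ * x₂ + x₂ ^ 2 + W.a₂ * (x₁ + x₂) + W.a₄ - W.a₁ * y₁) / (y₁ - y₂) := by
        rw [div_eq_div_iff hxx0 (sub_ne_zero.2 hyne), hid]
        ring
      rw [e]
      exact r1_div (sub_mem (add_mem (add_mem (add_mem (add_mem (pow_mem hx1 2) (mul_mem hx1 hx2)) (pow_mem hx2 2))
        (mul_mem hI.a2 (add_mem hx1 hx2))) hI.a4) (mul_mem hI.a1 hy1)) he
  refine ⟨?_, ?_⟩
  · rw [Valuation.map_sub_swap]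
    exact hXlt
  · rw [Valuation.map_sub_swap]
    exact hYlt

end H13R
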