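import Mathlib
import Pool.Agent.Lib.H13R.R1
import Pool.Agent.Lib.H55K.G9B
import Pool.Agent.Lib.H55K.M4B

/-! # H13R: counting the points of the reduction, any equation of good reduction, any number field -/

open NumberField IsDedekindDomain WeierstrassCurve

namespace H13R

open H55P (IQ embF eF LF Per IsHecke Pt ac Inert Dec Nm)
open H35P (WAB Ker tt GoodW IntW)
open H55K H55K.MG

/-- The kernel of reduction as a subgroup. -/
def kerR {k : Type} [Field k] [DecidableEq k] {W : WeierstrassCurve k} {V : ValuationSubring k} (h : GoodW W V) :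
    AddSubgroup W.toAffine.Point where
  carrier := {P | Ker V P}
  add_mem' := fun hP hQ => H35P.ker_add h.toIntW _ _ hP hQ
  zero_mem' := trivial
  neg_mem' := fun hP => (H35P.ker_neg _).2 hP

variable {F : Type} [Field F] [NumberField F] {Ω : Type} [Field Ω] [DecidableEq Ω]
  [Algebra F Ω] {V : ValuationSubring Ω}

omit [NumberField F] [DecidableEq Ω] in
theorem r2_mul {x y : Ω} (hx : V.valuation x ≤ 1) (hy : V.valuation y ≤ 1) : V.valuation (x * y) ≤ 1 := by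
  rw [map_mul]
  exact mul_le_one' hx hy

omit [NumberField F] [DecidableEq Ω] in
theorem r2_add {x y : Ω} (hx : V.valuation x ≤ 1) (hy : V.valuation y ≤ 1) : V.valuation (x + y) ≤ 1 :=
  (Valuation.map_add _ _ _).trans (max_le hx hy)

omit [NumberField F] [DecidableEq Ω] in
theorem r2_eval (W₀ : WeierstrassCurve (𝓞 F)) (a b : 𝓞 F) : ak Ω (g9E W₀ a b) =
    ak Ω b ^ 2 + ak Ω W₀.a₁ * ak Ω a * ak Ω b + ak Ω W₀.a₃ * ak Ω b -
      (ak Ω a ^ 3 + ak Ω W₀.a₂ * ak Ω a ^ 2 + ak Ω W₀.a₄ * ak Ω a + ak Ω W₀.a₆) := by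
  unfold g9E
  simp only [← g9h_eq, map_sub, map_add, map_mul, map_pow]

omit [NumberField F] [DecidableEq Ω] in
/-- Existence of a lift of a point modulo v. -/
theorem r2_lift [IsAlgClosed Ω] (W₀ : WeierstrassCurve (𝓞 F)) (hG : GoodW ((W₀⁄F)⁄Ω) V) (a b : 𝓞 F)
    (hE : V.valuation (ak Ω (g9E W₀ a b)) < 1) : ∃ X : Pt (W₀⁄F) Ω, ¬ Ker V X ∧ xc X = ak Ω a ∧
      V.valuation (yc X - ak Ω b) < 1 := by
  set β : Ω := ak Ω W₀.a₁ * ak Ω a + ak Ω W₀.a₃ with hβ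
  set γ : Ω := -(ak Ω a ^ 3 + ak Ω W₀.a₂ * ak Ω a ^ 2 + ak Ω W₀.a₄ * ak Ω a + ak Ω W₀.a₆) with hγ
  obtain ⟨z, hz⟩ : ∃ z : Ω, z ^ 2 + β * z + γ = 0 := by
    have hd : (Polynomial.X ^ 2 + Polynomial.C β * Polynomial.X + Polynomial.C γ : Polynomial Ω).degree = 2 := by
      compute_degree!
    obtain ⟨z, hz⟩ := IsAlgClosed.exists_root (Polynomial.X ^ 2 + Polynomial.C β * Polynomial.X +
      Polynomial.C γ : Polynomial Ω) (by rw [hd]; norm_num)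
    refine ⟨z, ?_⟩
    rw [Polynomial.IsRoot.def] at hz
    simpa using hz
  have hid : (ak Ω b - z) * (ak Ω b - (-β - z)) = ak Ω (g9E W₀ a b) := by
    rw [r2_eval]
    linear_combination -hz
  have hprod : V.valuation (ak Ω b - z) * V.valuation (ak Ω b - (-β - z)) < 1 := by
    rw [← map_mul, hid]
    exact hE
  have hΔ : ((W₀⁄F)⁄Ω).Δ ≠ 0 := by
    intro h
    have h4 := hG.disc
    rw [h, map_zero] at h4
    exact zero_ne_one h4
  have hpt : ∀ y' : Ω, y' ^ 2 + β * y' + γ = 0 → V.valuation (ak Ω b - y') < 1 → ∃ X : Pt (W₀⁄F) Ω, ¬ Ker V X ∧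
      xc X = ak Ω a ∧ V.valuation (yc X - ak Ω b) < 1 := by
    intro y' hy' hv'
    have heq : ((W₀⁄F)⁄Ω).toAffine.Equation (ak Ω a) y' := by
      rw [Affine.equation_iff]
      have e1 : ((W₀⁄F)⁄Ω).a₁ = ak Ω W₀.a₁ := rfl
      have e2 : ((W₀⁄F)⁄Ω).a₂ = ak Ω W₀.a₂ := rfl
      have e3 : ((W₀⁄F)⁄Ω).a₃ = ak Ω W₀.a₃ := rfl
      have e4 : ((W₀⁄F)⁄Ω).a₄ = ak Ω W₀.a₄ := rfl
      have e6 : ((W₀⁄F)⁄Ω).a₆ = ak Ω W₀.a₆ := rfl
      rw [e1, e2, e3, e4, e6]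
      linear_combination hy'
    have hns := (Affine.equation_iff_nonsingular_of_Δ_ne_zero (W := ((W₀⁄F)⁄Ω).toAffine) hΔ).1 heq
    refine ⟨.some _ _ hns, ?_, rfl, ?_⟩
    · exact not_lt.2 (ak_le V a)
    · rw [Valuation.map_sub_swap]
      exact hv'
  by_cases h1 : V.valuation (ak Ω b - z) < 1
  · exact hpt z hz h1
  · have h7 : V.valuation (ak Ω b - (-β - z)) < 1 := by
      by_contra h8
      push Not at h1 h8
      exact absurd hprod (not_lt.2 (one_le_mul h1 h8))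
    exact hpt (-β - z) (by linear_combination hz) h7

/-- The class of a lift is fixed by the Frobenius element. -/
theorem r2_fix (W₀ : WeierstrassCurve (𝓞 F)) (hG : GoodW ((W₀⁄F)⁄Ω) V) (v : HeightOneSpectrum (𝓞 F))
    (hv : ∀ a : 𝓞 F, a ∈ v.asIdeal → V.valuation (ak Ω a) < 1) (s : Ω ≃ₐ[F] Ω)
    (hs : ∀ x ∈ V, V.valuation (s x - x ^ Ideal.absNorm v.asIdeal) < 1) (a b : 𝓞 F) {X : Pt (W₀⁄F) Ω}
    (hX : ¬ Ker V X) (hx : V.valuation (xc X - ak Ω a) < 1) (hy : V.valuation (yc X - ak Ω b) < 1) :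
    Ker V (ac (W₀⁄F) s X - X) := by
  obtain ⟨hX0, hxV, hyV⟩ := int_crd hG hX
  have hxi := (V.valuation_le_one_iff _).2 hxV
  have hyi := (V.valuation_le_one_iff _).2 hyV
  obtain ⟨a1, a2, a3⟩ := ac_crd s X
  have e1 : V.valuation (xc X ^ Ideal.absNorm v.asIdeal - xc X) < 1 := (g9_frob hv hxi).2 ⟨a, hx⟩
  have e2 : V.valuation (yc X ^ Ideal.absNorm v.asIdeal - yc X) < 1 := (g9_frob hv hyi).2 ⟨b, hy⟩
  have e3 := g9_tri (hs _ hxV) e1
  have e4 := g9_tri (hs _ hyV) e2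
  have hsX : ¬ Ker V (ac (W₀⁄F) s X) := by
    rw [ker_crd (fun h => hX0 (a3.1 h)), a1, not_lt]
    have : s (xc X) = (s (xc X) - xc X) + xc X := by ring
    rw [this]
    exact r2_add e3.le hxi
  apply cong_ker hG hsX hX
  · rw [a1]
    exact e3
  · rw [a2]
    exact e4

/-- A fixed class comes from a point modulo v. -/
theorem r2_conv (W₀ : WeierstrassCurve (𝓞 F)) (hG : GoodW ((W₀⁄F)⁄Ω) V) (v : HeightOneSpectrum (𝓞 F))
    (hv : ∀ a : 𝓞 F, a ∈ v.asIdeal → V.valuation (ak Ω a) < 1) (s : Ω ≃ₐ[F] Ω)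
    (hs : ∀ x ∈ V, V.valuation (s x - x ^ Ideal.absNorm v.asIdeal) < 1) {X : Pt (W₀⁄F) Ω}
    (hX : ¬ Ker V X) (hk : Ker V (ac (W₀⁄F) s X - X)) : ∃ a b : 𝓞 F, g9E W₀ a b ∈ v.asIdeal ∧
      V.valuation (xc X - ak Ω a) < 1 ∧ V.valuation (yc X - ak Ω b) < 1 := by
  obtain ⟨hX0, hxV, hyV⟩ := int_crd hG hX
  have hxi := (V.valuation_le_one_iff _).2 hxV
  have hyi := (V.valuation_le_one_iff _).2 hyV
  obtain ⟨a1, a2, a3⟩ := ac_crd s X
  obtain ⟨-, hx1, hy1⟩ := cls_convR hG hX hk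
  rw [a1] at hx1
  rw [a2] at hy1
  have e1 : V.valuation (xc X ^ Ideal.absNorm v.asIdeal - xc X) < 1 := by
    refine g9_tri ?_ hx1
    rw [Valuation.map_sub_swap]
    exact hs _ hxV
  have e2 : V.valuation (yc X ^ Ideal.absNorm v.asIdeal - yc X) < 1 := by
    refine g9_tri ?_ hy1
    rw [Valuation.map_sub_swap]
    exact hs _ hyV
  obtain ⟨a, ha⟩ := (g9_frob hv hxi).1 e1
  obtain ⟨b, hb⟩ := (g9_frob hv hyi).1 e2
  refine ⟨a, b, ?_, ha, hb⟩
  rw [← g9_ker hv, r2_eval]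
  have heq : yc X ^ 2 + ak Ω W₀.a₁ * xc X * yc X + ak Ω W₀.a₃ * yc X =
      xc X ^ 3 + ak Ω W₀.a₂ * xc X ^ 2 + ak Ω W₀.a₄ * xc X + ak Ω W₀.a₆ := by
    rcases X with _ | ⟨x, y, hn⟩
    · exact absurd rfl hX0
    · exact (Affine.equation_iff _ _).1 hn.1
  have hga := ak_le V a
  have hgb := ak_le V b
  set x' := ak Ω a
  set y' := ak Ω b
  have h7 : y' ^ 2 + ak Ω W₀.a₁ * x' * y' + ak Ω W₀.a₃ * y' -
      (x' ^ 3 + ak Ω W₀.a₂ * x' ^ 2 + ak Ω W₀.a₄ * x' + ak Ω W₀.a₆) =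
      -((yc X - y') * (yc X + y' + ak Ω W₀.a₁ * x' + ak Ω W₀.a₃)) +
        (xc X - x') * (xc X ^ 2 + xc X * x' + x' ^ 2 + ak Ω W₀.a₂ * (xc X + x') + ak Ω W₀.a₄ +
          -(ak Ω W₀.a₁ * yc X)) := by
    linear_combination heq
  rw [h7]
  refine Valuation.map_add_lt _ ?_ (g9_mul ha ?_)
  · rw [Valuation.map_neg]
    exact g9_mul hb (r2_add (r2_add (r2_add hyi hgb) (r2_mul (ak_le V _) hga)) (ak_le V _))
  · rw [sq, sq]
    refine r2_add (r2_add (r2_add (r2_add (r2_add (r2_mul hxi hxi) (r2_mul hxi hga)) (r2_mul hga hga))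
      (r2_mul (ak_le V _) (r2_add hxi hga))) (ak_le V _)) ?_
    rw [Valuation.map_neg]
    exact r2_mul (ak_le V _) hyi

/-- The class c is the class of the lifts of the point P. -/
def r2R (W₀ : WeierstrassCurve (𝓞 F)) (hG : GoodW ((W₀⁄F)⁄Ω) V) (v : HeightOneSpectrum (𝓞 F))
    (P : (W₀⁄(𝓞 F ⧸ v.asIdeal)).toAffine.Point) (c : Pt (W₀⁄F) Ω ⧸ kerR hG) : Prop :=
  (P = 0 ∧ c = 0) ∨ ∃ (a b : 𝓞 F) (h : (W₀⁄(𝓞 F ⧸ v.asIdeal)).toAffine.Nonsingular (Ideal.Quotient.mk v.asIdeal a)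
    (Ideal.Quotient.mk v.asIdeal b)) (X : Pt (W₀⁄F) Ω), P = .some _ _ h ∧ c = (X : Pt (W₀⁄F) Ω ⧸ kerR hG) ∧
      ¬ Ker V X ∧ V.valuation (xc X - ak Ω a) < 1 ∧ V.valuation (yc X - ak Ω b) < 1

omit [DecidableEq Ω] in
theorem r2_sub (v : HeightOneSpectrum (𝓞 F))
    (hv : ∀ a : 𝓞 F, a ∈ v.asIdeal → V.valuation (ak Ω a) < 1) (a a' : 𝓞 F) :
    V.valuation (ak Ω a - ak Ω a') < 1 ↔ Ideal.Quotient.mk v.asIdeal a = Ideal.Quotient.mk v.asIdeal a' := by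
  have h1 : ak Ω a - ak Ω a' = ak Ω (a - a') := by
    simp only [← g9h_eq, map_sub]
  rw [h1, g9_ker hv, ← Ideal.Quotient.eq]

/-- Chunk R2 (M/L). Port of H55K.red_card (G9B.lean) to the equation W₀ itself: any residue characteristic, no short form, so it is simpler: g9x Ω W₀ a is replaced by ak Ω a, g9y Ω W₀ a b by ak Ω b. Reusable (any number field): g9_ker, g9_frob, g9_tri, g9_mul, g9E, g9_nons, g9h, g9h_eq, ak_le. The steps: (lift) V(ak (g9E W₀ a b)) < 1: there is X in Pt (W₀⁄F) Ω, not Ker, xc X = ak a,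
V(yc X - ak b) < 1: the monic polynomial T^2 + (a₁ a + a₃) T - (a^3 + a₂ a^2 + a₄ a + a₆) over Ω has a root z (IsAlgClosed), the other root is z' = -(a₁ a + a₃) - z and (ak b - z)(ak b - z') = ak (g9E W₀ a b) (the coefficients of (W₀⁄F)⁄Ω are ak W₀.a₁ and so on), so V(ak b - z) < 1 or V(ak b - z') < 1; a point on the curve is nonsingular: Δ ≠ 0 (hG.disc), Affine.equation_iff_nonsingular_of_Δ_ne_zero.
(fix) as g9_fix: a X as above satisfies Ker V (ac s X - X): xc X, yc X are congruent to elements of 𝓞 F, so x^q - x has value < 1 (g9_frob), s x is congruent to x (hs): cong_ker (M3A.lean); s X is not in Ker: its x-coordinate s x is congruent to x. (conv) as g9_conv: X not in Ker, Ker V (ac s X - X): cls_convR (R1.lean) and hs and g9_frob: xc X, yc X are congruent to ak a, ak b;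
the equation gives g9E W₀ a b in v (g9_ker; difference of two polynomial expressions at congruent integral arguments; int_crd). Then the bijection as in red_card. xc, yc of ac: H55K.xc_ac, yc_ac or MG.ac_crd (M4B.lean). -/
theorem red_cardR [IsAlgClosed Ω] (W₀ : WeierstrassCurve (𝓞 F)) (hG : GoodW ((W₀⁄F)⁄Ω) V)
    (v : HeightOneSpectrum (𝓞 F)) (hΔ : W₀.Δ ∉ v.asIdeal)
    (hv : ∀ a : 𝓞 F, a ∈ v.asIdeal → V.valuation (ak Ω a) < 1) (s : Ω ≃ₐ[F] Ω)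
    (hs : ∀ x ∈ V, V.valuation (s x - x ^ Ideal.absNorm v.asIdeal) < 1) :
    Nat.card (W₀⁄(𝓞 F ⧸ v.asIdeal)).toAffine.Point =
      Nat.card {c : Pt (W₀⁄F) Ω ⧸ kerR hG // ∃ X : Pt (W₀⁄F) Ω, (X : Pt (W₀⁄F) Ω ⧸ kerR hG) = c ∧
        Ker V (ac (W₀⁄F) s X - X)} := by
  -- every point has a class
  have htot : ∀ P : (W₀⁄(𝓞 F ⧸ v.asIdeal)).toAffine.Point, ∃ c : {c : Pt (W₀⁄F) Ω ⧸ kerR hG //
      ∃ X : Pt (W₀⁄F) Ω, (X : Pt (W₀⁄F) Ω ⧸ kerR hG) = c ∧ Ker V (ac (W₀⁄F) s X - X)},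
      r2R W₀ hG v P c.1 := by
    intro P
    rcases P with _ | ⟨x, y, h⟩
    · refine ⟨⟨0, 0, rfl, ?_⟩, Or.inl ⟨rfl, rfl⟩⟩
      rw [map_zero, sub_zero]
      trivial
    · obtain ⟨a, rfl⟩ := Ideal.Quotient.mk_surjective x
      obtain ⟨b, rfl⟩ := Ideal.Quotient.mk_surjective y
      obtain ⟨X, hX, hXx, hXy⟩ := r2_lift W₀ hG a b (hv _ ((g9_nons W₀ v hΔ a b).1 h))
      have hXx' : V.valuation (xc X - ak Ω a) < 1 := by
        rw [hXx, sub_self, map_zero]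
        exact zero_lt_one
      exact ⟨⟨(X : Pt (W₀⁄F) Ω ⧸ kerR hG), X, rfl, r2_fix W₀ hG v hv s hs a b hX hXx' hXy⟩,
        Or.inr ⟨a, b, h, X, rfl, rfl, hX, hXx', hXy⟩⟩
  choose f hf using htot
  apply Nat.card_eq_of_bijective f
  have hno : ∀ X : Pt (W₀⁄F) Ω, ¬ Ker V X → (X : Pt (W₀⁄F) Ω ⧸ kerR hG) ≠ 0 := by
    intro X hX h
    exact hX ((QuotientAddGroup.eq_zero_iff X).1 h)
  constructor
  · intro P P' hPP
    have h1 := hf P
    have h2 := hf P'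
    rw [← hPP] at h2
    rcases h1 with ⟨h1, h1'⟩ | ⟨a, b, h, X, hP, hc, hX, hx, hy⟩
    · rcases h2 with ⟨h2, h2'⟩ | ⟨a', b', h', X', hP', hc', hX', hx', hy'⟩
      · rw [h1, h2]
      · exact (hno X' hX' (hc'.symm.trans h1')).elim
    · rcases h2 with ⟨h2, h2'⟩ | ⟨a', b', h', X', hP', hc', hX', hx', hy'⟩
      · exact (hno X hX (hc.symm.trans h2')).elim
      · have h3 : Ker V (X' - X) := by
          have h4 := hc.symm.trans hc'
          rw [QuotientAddGroup.eq, neg_add_eq_sub] at h4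
          exact h4
        obtain ⟨-, h5, h6⟩ := cls_convR hG hX h3
        rw [Valuation.map_sub_swap] at h5 h6 hx hy
        have h7 : V.valuation (ak Ω a - ak Ω a') < 1 := g9_tri (g9_tri hx h5) hx'
        have h8 : V.valuation (ak Ω b - ak Ω b') < 1 := g9_tri (g9_tri hy h6) hy'
        rw [hP, hP', Affine.Point.some.injEq]
        exact ⟨(r2_sub v hv a a').1 h7, (r2_sub v hv b b').1 h8⟩
  · rintro ⟨c, X, rfl, hX⟩
    by_cases hXk : Ker V X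
    · refine ⟨0, ?_⟩
      apply Subtype.ext
      have h1 : (X : Pt (W₀⁄F) Ω ⧸ kerR hG) = 0 := (QuotientAddGroup.eq_zero_iff X).2 hXk
      show (f 0).1 = (X : Pt (W₀⁄F) Ω ⧸ kerR hG)
      rw [h1]
      rcases hf 0 with ⟨-, h2⟩ | ⟨a, b, h, X, hP, -⟩
      · exact h2
      · exact absurd hP.symm (Affine.Point.some_ne_zero _)
    · obtain ⟨a, b, hE, hx, hy⟩ := r2_conv W₀ hG v hv s hs hXk hX
      refine ⟨.some _ _ ((g9_nons W₀ v hΔ a b).2 hE), ?_⟩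
      apply Subtype.ext
      show (f _).1 = _
      rcases hf (.some _ _ ((g9_nons W₀ v hΔ a b).2 hE)) with ⟨h2, -⟩ | ⟨a', b', h', X', hP', hc', hX', hx', hy'⟩
      · exact absurd h2 (Affine.Point.some_ne_zero _)
      · rw [hc', QuotientAddGroup.eq, neg_add_eq_sub]
        rw [Affine.Point.some.injEq] at hP'
        rw [Valuation.map_sub_swap] at hx' hy'
        exact cong_ker hG hXk hX' (g9_tri (g9_tri hx ((r2_sub v hv a a').2 hP'.1)) hx')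
          (g9_tri (g9_tri hy ((r2_sub v hv b b').2 hP'.2)) hy')

end H13R
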