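import Mathlib
import Pool.Agent.Lib.H13R.R2
import Pool.Agent.Lib.H13X.XLK

/-! # H13R: a point of order l modulo v, over M -/

open NumberField IsDedekindDomain WeierstrassCurve

namespace H13R

open H55P (IQ embF eF LF Per IsHecke Pt ac Inert Dec Nm Coc PExt UnrP Ram RamF)
open H35P (WAB Ker tt GoodW IntW)
open H55K (Tor ak xc yc CMA Dta GV GMod)
open H55K H55K.MG
open H13S (Abv)

section cast

variable {k : Type} [Field k] [DecidableEq k]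

/-- The identity map between the groups of points of equal curves. -/
noncomputable def castPt {E₁ E₂ : WeierstrassCurve k} (h : E₁ = E₂) : E₁.toAffine.Point ≃+ E₂.toAffine.Point := by
  subst h
  exact AddEquiv.refl _

theorem castPt_some {E₁ E₂ : WeierstrassCurve k} (h : E₁ = E₂) (x y : k) (hn : E₁.toAffine.Nonsingular x y) :
    castPt h (.some x y hn) = .some x y (h ▸ hn) := by
  subst h
  rfl

theorem castPt_ker {E₁ E₂ : WeierstrassCurve k} (h : E₁ = E₂) (V : ValuationSubring k) (P : E₁.toAffine.Point) :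
    Ker V (castPt h P) ↔ Ker V P := by
  subst h
  exact Iff.rfl

end cast

section count

variable {F : Type} [Field F] [NumberField F] {Ω : Type} [Field Ω] [DecidableEq Ω]
  [Algebra F Ω] {V : ValuationSubring Ω}

/-- l divides the number of points modulo v: a point X not in the kernel of reduction, with l X in it and the class of X fixed by the Frobenius element. -/
theorem lk_X0 [IsAlgClosed Ω] (W₀ : WeierstrassCurve (𝓞 F)) (hG : GoodW ((W₀⁄F)⁄Ω) V)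
    (v₀ : HeightOneSpectrum (𝓞 F)) (hΔ : W₀.Δ ∉ v₀.asIdeal)
    (hv : ∀ a : 𝓞 F, a ∈ v₀.asIdeal → V.valuation (ak Ω a) < 1) {l : ℕ} (hl : l.Prime)
    (hpts : l ∣ Nat.card (W₀⁄(𝓞 F ⧸ v₀.asIdeal)).toAffine.Point)
    (s : Ω ≃ₐ[F] Ω) (hs : ∀ x ∈ V, V.valuation (s x - x ^ Ideal.absNorm v₀.asIdeal) < 1) :
    ∃ X : Pt (W₀⁄F) Ω, ¬ Ker V X ∧ Ker V (l • X) ∧ Ker V (ac (W₀⁄F) s X - X) := by
  have hm := v₀.isMaximal
  let C : AddSubgroup (Pt (W₀⁄F) Ω ⧸ kerR hG) :=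
    { carrier := {c | ∃ X : Pt (W₀⁄F) Ω, (X : Pt (W₀⁄F) Ω ⧸ kerR hG) = c ∧
        Ker V (ac (W₀⁄F) s X - X)}
      add_mem' := by
        rintro _ _ ⟨X, rfl, hX⟩ ⟨Y, rfl, hY⟩
        refine ⟨X + Y, rfl, ?_⟩
        have e : ac (W₀⁄F) s (X + Y) - (X + Y) = (ac (W₀⁄F) s X - X) + (ac (W₀⁄F) s Y - Y) := by
          rw [map_add]
          abel
        rw [e]
        exact (kerR hG).add_mem hX hY
      zero_mem' := by
        refine ⟨0, rfl, ?_⟩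
        rw [map_zero, sub_zero]
        trivial
      neg_mem' := by
        rintro _ ⟨X, rfl, hX⟩
        refine ⟨-X, rfl, ?_⟩
        have e : ac (W₀⁄F) s (-X) - (-X) = -(ac (W₀⁄F) s X - X) := by
          rw [map_neg]
          abel
        rw [e]
        exact (kerR hG).neg_mem hX }
  have hcard : Nat.card (W₀⁄(𝓞 F ⧸ v₀.asIdeal)).toAffine.Point = Nat.card C :=
    red_cardR W₀ hG v₀ hΔ hv s hs
  have hfin : Finite C := by
    let _ : Field (𝓞 F ⧸ v₀.asIdeal) := Ideal.Quotient.field _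
    have hf : Finite (𝓞 F ⧸ v₀.asIdeal) := Ideal.finiteQuotientOfFreeOfNeBot _ v₀.ne_bot
    have h1 : Finite (W₀⁄(𝓞 F ⧸ v₀.asIdeal)).toAffine.Point := H13X.lk_fin _
    have h2 : Nat.card (W₀⁄(𝓞 F ⧸ v₀.asIdeal)).toAffine.Point ≠ 0 := Nat.card_pos.ne'
    rw [hcard] at h2
    exact Nat.finite_of_card_ne_zero h2
  have hfact : Fact l.Prime := ⟨hl⟩
  rw [hcard] at hpts
  obtain ⟨⟨c, X, rfl, hX⟩, hc⟩ := exists_prime_addOrderOf_dvd_card' l hpts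
  have hc0 : ¬ Ker V X := by
    intro h
    have h1 : (⟨(X : Pt (W₀⁄F) Ω ⧸ kerR hG), X, rfl, hX⟩ : C) = 0 := by
      apply Subtype.ext
      exact (QuotientAddGroup.eq_zero_iff X).2 h
    rw [h1, addOrderOf_zero] at hc
    exact hl.one_lt.ne hc
  have hlX : Ker V (l • X) := by
    have h1 := addOrderOf_nsmul_eq_zero (⟨(X : Pt (W₀⁄F) Ω ⧸ kerR hG), X, rfl, hX⟩ : C)
    rw [hc] at h1
    have h2 : ((l • X : Pt (W₀⁄F) Ω) : Pt (W₀⁄F) Ω ⧸ kerR hG) = 0 := congrArg Subtype.val h1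
    exact (QuotientAddGroup.eq_zero_iff _).1 h2
  exact ⟨X, hc0, hlX, hX⟩

end count

section base

variable {F : Type} [Field F] {Ω : Type} [Field Ω] [DecidableEq Ω] [Algebra F Ω] (M : IntermediateField F Ω)

omit [DecidableEq Ω] in
theorem r3_eq (W₀ : WeierstrassCurve (𝓞 F)) : (((W₀⁄(𝓞 M))⁄M)⁄Ω) = ((W₀⁄F)⁄Ω) := rfl

theorem r3_ac (W₀ : WeierstrassCurve (𝓞 F)) (s : Ω ≃ₐ[M] Ω) (P : Pt ((W₀⁄(𝓞 M))⁄M) Ω) :
    castPt (r3_eq M W₀) (ac ((W₀⁄(𝓞 M))⁄M) s P) =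
      ac (W₀⁄F) (s.restrictScalars F) (castPt (r3_eq M W₀) P) := by
  rcases P with _ | ⟨x, y, h⟩
  · show castPt (r3_eq M W₀) (ac ((W₀⁄(𝓞 M))⁄M) s 0) =
      ac (W₀⁄F) (s.restrictScalars F) (castPt (r3_eq M W₀) 0)
    rw [map_zero, map_zero, map_zero]
  · rw [castPt_some]
    exact castPt_some (r3_eq M W₀) (s x) (s y) _

end base

variable {F : Type} [Field F] [NumberField F] {Ω : Type} [Field Ω] [DecidableEq Ω]
  [Algebra F Ω] [IsAlgClosure F Ω] {l : ℕ}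

theorem lk_XM (W₀ : WeierstrassCurve (𝓞 F)) (M : IntermediateField F Ω) [NumberField M] {v : HeightOneSpectrum (𝓞 M)}
    (hΔ : algebraMap (𝓞 F) (𝓞 M) W₀.Δ ∉ v.asIdeal) {V : ValuationSubring Ω} (hV : Abv M V v)
    (hG : GoodW ((W₀⁄F)⁄Ω) V) (hl : l.Prime)
    (hpts : l ∣ Nat.card (W₀⁄(𝓞 M ⧸ v.asIdeal)).toAffine.Point)
    {s : Ω ≃ₐ[F] Ω} (hsM : s ∈ M.fixingSubgroup) (hs : ∀ x ∈ V, V.valuation (s x - x ^ Ideal.absNorm v.asIdeal) < 1) :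
    ∃ X : Pt (W₀⁄F) Ω, ¬ Ker V X ∧ Ker V (l • X) ∧ Ker V (ac (W₀⁄F) s X - X) := by
  have hcl0 : IsAlgClosed Ω := IsAlgClosure.isAlgClosed F
  let s' : Ω ≃ₐ[M] Ω := AlgEquiv.ofRingEquiv (f := (s : Ω ≃+* Ω)) (fun x =>
    (IntermediateField.mem_fixingSubgroup_iff M s).1 hsM (x : Ω) x.2)
  have hss : s'.restrictScalars F = s := by
    ext x
    rfl
  have eΔ : (W₀⁄(𝓞 M)).Δ = algebraMap (𝓞 F) (𝓞 M) W₀.Δ := W₀.map_Δ _
  have hcur : (W₀⁄(𝓞 M))⁄(𝓞 M ⧸ v.asIdeal) = W₀⁄(𝓞 M ⧸ v.asIdeal) := rfl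
  have hG' : GoodW (((W₀⁄(𝓞 M))⁄M)⁄Ω) V := by
    rw [r3_eq]
    exact hG
  obtain ⟨X, h1, h2, h3⟩ := lk_X0 (F := M) (Ω := Ω) (V := V) (W₀⁄(𝓞 M)) hG' v (by rw [eΔ]; exact hΔ)
    (fun a ha => (hV.lt (a : M)).2 ((v.valuation_lt_one_iff_mem a).2 ha)) hl (by rw [hcur]; exact hpts) s' hs
  refine ⟨castPt (r3_eq M W₀) X, ?_, ?_, ?_⟩
  · rwa [castPt_ker]
  · rwa [← map_nsmul, castPt_ker]
  · have h4 := r3_ac M W₀ s' X
    rw [hss] at h4
    rw [← h4, ← map_sub, castPt_ker]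
    exact h3

end H13R
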