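import Mathlib
import Pool.Agent.Lib.H13X.XT
import Pool.Agent.Lib.H55K.M0
import Pool.Agent.Lib.H55K.M3A
import Pool.Agent.Lib.H55K.SD
import Pool.Agent.Lib.H55P.Z10

/-! # H13R: multiplication by l on the kernel of reduction, any residue characteristic -/

open NumberField IsDedekindDomain WeierstrassCurve

namespace H13R

open H55P (IQ embF eF LF Per IsHecke Pt ac Inert Dec Nm Coc PExt UnrP Ram RamF)
open H35P (WAB Ker tt GoodW IntW)
open H55K (Tor TN ak xc yc CMA Dta GV GMod cj cj_cj mul_cj cj_prime cj_dvd cj_nat Nm_cj Nm_mul Nm_nat)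
open H55K.MG
open H55K.S
open H13S (Abv)
open H13X

variable {F : Type} [Field F] [NumberField F] [IQ F] {A B : F} {Om : ℂ} {Ω : Type} [Field Ω] [DecidableEq Ω]
  [Algebra F Ω] {j : Ω →+* ℂ} {act : 𝓞 F →+* AddMonoid.End (Pt (WAB A B) Ω)} {l : ℕ}

/-- A point X with l X in the kernel of reduction is congruent to a point killed by l. -/
theorem surj_lR (h : CMA F A B Om j act) (W₀ : WeierstrassCurve (𝓞 F)) {r s t : F} (hVC : VC (WAB A B) (W₀⁄F) 1 r s t)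
    {Θ : Pt (WAB A B) Ω ≃+ Pt (W₀⁄F) Ω}
    (hΘ : Crd (algebraMap F Ω 1) (algebraMap F Ω r) (algebraMap F Ω s) (algebraMap F Ω t) Θ)
    {V : ValuationSubring Ω} (hG : GoodW ((W₀⁄F)⁄Ω) V) (hl : l.Prime) (h5 : 5 ≤ l) (hlV : V.valuation (l : Ω) = 1)
    {X : Pt (WAB A B) Ω} (hX : Ker V (Θ (l • X))) : ∃ T : Pt (WAB A B) Ω, l • T = 0 ∧ Ker V (Θ (X - T)) := by
  by_cases h0 : l • X = 0
  · refine ⟨X, h0, ?_⟩
    rw [sub_self, map_zero]
    trivial
  by_contra hcon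
  push Not at hcon
  have hl0 : (l : 𝓞 F) ≠ 0 := by exact_mod_cast hl.ne_zero
  obtain ⟨S, hS, -⟩ := H55K.exists_TN h hl0
  have hact : ∀ P : Pt (WAB A B) Ω, act (l : 𝓞 F) P = l • P := fun P => act_nat (act := act) l P
  have hne : act (l : 𝓞 F) X ≠ 0 := by rwa [hact]
  have he := h.e1x (l : 𝓞 F) S hl0 hS X hne
  have hakl : ak Ω (l : 𝓞 F) = (l : Ω) := by
    show algebraMap F Ω ((l : 𝓞 F) : F) = l
    simp
  rw [hakl, hact] at he
  -- coordinates
  have hc : ∀ P : Pt (WAB A B) Ω, P ≠ 0 → xc P = xc (Θ P) + algebraMap F Ω r := by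
    intro P hP
    obtain ⟨-, h1, -⟩ := hΘ P hP
    rw [h1, map_one]
    ring
  have hno : ∀ T : Pt (WAB A B) Ω, l • T = 0 → ¬ Ker V (Θ (X + T)) := by
    intro T hT hk
    refine hcon (-T) (by rw [smul_neg, hT, neg_zero]) ?_
    rwa [sub_neg_eq_add]
  have hin : ∀ P : Pt (WAB A B) Ω, ¬ Ker V (Θ P) → P ≠ 0 ∧ xc (Θ P) ∈ V := by
    intro P hP
    obtain ⟨h1, h2, -⟩ := int_crd hG hP
    exact ⟨fun h3 => h1 (by rw [h3, map_zero]), h2⟩
  have hX0 : ¬ Ker V (Θ X) := by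
    have := hno 0 (smul_zero _)
    rwa [add_zero] at this
  have hsum : ∑ T ∈ S, (xc (X + T) - xc T) ∈ V := by
    refine sum_mem fun T hT => ?_
    obtain ⟨h1, h2⟩ := (hS T).1 hT
    rw [hact] at h1
    have h3 : ¬ Ker V (Θ T) := by
      intro hk
      have h4 : Θ T = 0 := H35P.fg hG.toIntW (Θ T) l hlV (by rw [← map_nsmul, h1, map_zero]) hk
      exact h2 ((map_eq_zero_iff Θ Θ.injective).1 h4)
    obtain ⟨i1, i2⟩ := hin _ (hno T h1)
    obtain ⟨-, i3⟩ := hin _ h3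
    rw [hc _ i1, hc _ h2, add_sub_add_right_eq_sub]
    exact sub_mem i2 i3
  obtain ⟨h1, h2⟩ := hin _ hX0
  -- the number (l^2 - 1) r is integral at V
  obtain ⟨k, hk⟩ : ∃ k : ℕ, l ^ 2 = 24 * k + 1 := by
    have h3 : l % 24 = 1 ∨ l % 24 = 5 ∨ l % 24 = 7 ∨ l % 24 = 11 ∨ l % 24 = 13 ∨ l % 24 = 17 ∨ l % 24 = 19 ∨ l % 24 = 23 := by
      have a2 : ¬ 2 ∣ l := fun hd => by
        have := (Nat.prime_dvd_prime_iff_eq Nat.prime_two hl).1 hd
        omega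
      have a3 : ¬ 3 ∣ l := fun hd => by
        have := (Nat.prime_dvd_prime_iff_eq Nat.prime_three hl).1 hd
        omega
      omega
    have h4 : l ^ 2 % 24 = 1 := by
      rw [Nat.pow_mod]
      rcases h3 with h3 | h3 | h3 | h3 | h3 | h3 | h3 | h3 <;> rw [h3]
    exact ⟨l ^ 2 / 24, by omega⟩
  have hr : ∃ z ∈ V, (12 : Ω) * algebraMap F Ω r = z := by
    refine ⟨((W₀⁄F)⁄Ω).a₁ ^ 2 + 4 * ((W₀⁄F)⁄Ω).a₂, ?_, ?_⟩
    · refine add_mem (pow_mem hG.a1 2) (mul_mem ?_ hG.a2)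
      exact_mod_cast natCast_mem V 4
    · have e1 := hVC.h1
      have e2 := hVC.h2
      have f1 : (WAB A B).a₁ = 0 := rfl
      have f2 : (WAB A B).a₂ = 0 := rfl
      rw [f1] at e1 e2
      rw [f2] at e2
      have e3 : (12 : F) * r = (W₀⁄F).a₁ ^ 2 + 4 * (W₀⁄F).a₂ := by
        linear_combination (-4) * e2 + (-(W₀⁄F).a₁ - 2 * s) * e1
      have e4 := congrArg (algebraMap F Ω) e3
      rw [map_mul, map_ofNat, map_add, map_mul, map_pow, map_ofNat] at e4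
      exact e4
  obtain ⟨z, hz, hrz⟩ := hr
  have hkey : (l : Ω) ^ 2 * xc (Θ (l • X)) = xc (Θ X) + ∑ T ∈ S, (xc (X + T) - xc T) - (2 * (k : Ω)) * z := by
    rw [hc _ h0, hc _ h1] at he
    have e5 : (l : Ω) ^ 2 = 24 * (k : Ω) + 1 := by
      have e6 := congrArg (fun n : ℕ => (n : Ω)) hk
      push_cast at e6
      exact e6
    rw [← hrz]
    linear_combination he - algebraMap F Ω r * e5
  have hmem : (l : Ω) ^ 2 * xc (Θ (l • X)) ∈ V := by
    rw [hkey]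
    refine sub_mem (add_mem h2 hsum) (mul_mem ?_ hz)
    have : (2 : Ω) * (k : Ω) = ((2 * k : ℕ) : Ω) := by push_cast; ring
    rw [this]
    exact natCast_mem V _
  have hne' : Θ (l • X) ≠ 0 := fun h3 => h0 ((map_eq_zero_iff Θ Θ.injective).1 h3)
  have h6 := (ker_crd hne').1 hX
  rw [← V.valuation_le_one_iff, map_mul, map_pow, hlV, one_pow, one_mul] at hmem
  exact absurd h6 (not_lt.2 hmem)

end H13R
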