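import Mathlib
import Pool.Agent.Lib.H13R.R3
import Pool.Agent.Lib.H13R.R5
import Pool.Agent.Lib.H55K.M1B
import Pool.Agent.Lib.H55K.QC1C
import Pool.Agent.Lib.H55K.T9A
import Pool.Agent.Lib.H55P.S10

/-! # H13R: the link between the number of points and the decomposition group over M, any residue characteristic -/

open NumberField IsDedekindDomain WeierstrassCurve

namespace H13R

open H55P (IQ embF eF LF Per IsHecke Pt ac Inert Dec Nm Coc PExt UnrP Ram RamF)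
open H35P (WAB Ker tt GoodW IntW)
open H55K (Tor TN ak xc yc CMA Dta GV GMod cj cj_cj mul_cj cj_prime cj_dvd cj_nat Nm_cj Nm_mul Nm_nat)
open H55K.MG (VC Crd)
open H55K.TQ
open H55K.S
open H13S (Abv)
open H13X

variable {F : Type} [Field F] [NumberField F] [IQ F] {A B : F} {Om : ℂ} {Ω : Type} [Field Ω] [DecidableEq Ω]
  [Algebra F Ω] [IsAlgClosure F Ω] {j : Ω →+* ℂ} {act : 𝓞 F →+* AddMonoid.End (Pt (WAB A B) Ω)} {l : ℕ}

omit [NumberField F] [IQ F] [IsAlgClosure F Ω] in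
theorem r6_ker {W : WeierstrassCurve F} {V : ValuationSubring Ω} {s : Ω ≃ₐ[F] Ω} (hs : Dec V s) {P : Pt W Ω} (hP : Ker V P) :
    Ker V (ac W s P) := by
  rcases P with _ | ⟨x, y, h⟩
  · trivial
  · show 1 < V.valuation (s x)
    have h1 : 1 < V.valuation x := hP
    rw [← not_le, V.valuation_le_one_iff] at h1 ⊢
    exact fun h2 => h1 ((hs x).1 h2)

/-- The isomorphism of the short equation and of W₀ over Ω commutes with the Galois action. -/
theorem r6_iso (W₀ : WeierstrassCurve (𝓞 F)) (hell : W₀.Δ ≠ 0)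
    (hA : A = -(algebraMap (𝓞 F) F W₀.c₄) / 48) (hB : B = -(algebraMap (𝓞 F) F W₀.c₆) / 864) :
    ∃ (r s t : F) (Θ : Pt (WAB A B) Ω ≃+ Pt (W₀⁄F) Ω), VC (WAB A B) (W₀⁄F) 1 r s t ∧
      Crd (algebraMap F Ω 1) (algebraMap F Ω r) (algebraMap F Ω s) (algebraMap F Ω t) Θ ∧
      ∀ (g : Ω ≃ₐ[F] Ω) (P : Pt (WAB A B) Ω), ac (W₀⁄F) g (Θ P) = Θ (ac (WAB A B) g P) := by
  have hd := H55K.y3_ne W₀ hA hB hell
  have hΔA : (WAB A B).Δ ≠ 0 := by
    have e : (WAB A B).Δ = -16 * (4 * A ^ 3 + 27 * B ^ 2) := by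
      unfold WAB WeierstrassCurve.Δ WeierstrassCurve.b₂ WeierstrassCurve.b₄ WeierstrassCurve.b₆ WeierstrassCurve.b₈
      ring
    rw [e]
    exact mul_ne_zero (by norm_num) hd
  obtain ⟨r, s', t', hVC⟩ := vc_short W₀ hA hB
  have hVC' := vc_map (algebraMap F Ω) hVC
  have hΔ1 : ((WAB A B).map (algebraMap F Ω)).Δ ≠ 0 := by
    rw [WeierstrassCurve.map_Δ]
    exact (map_ne_zero _).2 hΔA
  have hΔ2 : ((W₀⁄F).map (algebraMap F Ω)).Δ ≠ 0 := by
    have e : (W₀⁄F).Δ = algebraMap (𝓞 F) F W₀.Δ := WeierstrassCurve.map_Δ _ _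
    rw [WeierstrassCurve.map_Δ, e]
    refine (map_ne_zero _).2 fun h1 => hell ?_
    exact (map_eq_zero_iff _ (FaithfulSMul.algebraMap_injective (𝓞 F) F)).1 h1
  obtain ⟨Θ, hΘ⟩ : ∃ Θ : Pt (WAB A B) Ω ≃+ Pt (W₀⁄F) Ω,
      Crd (algebraMap F Ω 1) (algebraMap F Ω r)
        (algebraMap F Ω s') (algebraMap F Ω t') Θ := H55K.MG.vc_iso hVC' hΔ1 hΔ2
  refine ⟨r, s', t', Θ, hVC, hΘ, ?_⟩
  intro g P
  by_cases hP : P = 0
  · subst hP
    rw [map_zero, map_zero, map_zero, map_zero]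
  · obtain ⟨a1, a2, a3⟩ := hΘ P hP
    obtain ⟨b1, b2, b3⟩ := H55K.MG.ac_crd (W := WAB A B) g P
    have hP' : ac (WAB A B) g P ≠ 0 := fun h => hP (b3.1 h)
    obtain ⟨c1, c2, c3⟩ := hΘ _ hP'
    obtain ⟨d1, d2, d3⟩ := H55K.MG.ac_crd (W := W₀⁄F) g (Θ P)
    have e2 := congrArg g a2
    have e3 := congrArg g a3
    simp only [map_add, map_mul, map_pow, map_one, AlgEquiv.commutes, one_pow, one_mul, mul_one] at e2 e3 c2 c3
    have f2 : xc (ac (W₀⁄F) g (Θ P)) = xc (Θ (ac (WAB A B) g P)) := by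
      rw [d1]
      linear_combination c2 - e2 - b1
    refine pt_ext (fun h => a1 (d3.1 h)) c1 f2 ?_
    rw [d2]
    rw [d1] at f2
    linear_combination c3 - e3 - b2 - (algebraMap F Ω s') * f2

/-- l divides the number of points modulo v: there is a point killed by l fixed by the decomposition group. -/
theorem lk_decR (hA : CMA F A B Om j act) (W₀ : WeierstrassCurve (𝓞 F)) (hell : W₀.Δ ≠ 0)
    (hA' : A = -(algebraMap (𝓞 F) F W₀.c₄) / 48) (hB' : B = -(algebraMap (𝓞 F) F W₀.c₆) / 864)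
    (M : IntermediateField F Ω) [NumberField M] {v : HeightOneSpectrum (𝓞 M)}
    (hΔ : algebraMap (𝓞 F) (𝓞 M) W₀.Δ ∉ v.asIdeal) {V : ValuationSubring Ω} (hV : Abv M V v) (hl : l.Prime) (h5 : 5 ≤ l)
    (hlv : (l : 𝓞 M) ∉ v.asIdeal) (hpts : l ∣ Nat.card (W₀⁄(𝓞 M ⧸ v.asIdeal)).toAffine.Point) :
    ∃ T : Pt (WAB A B) Ω, T ≠ 0 ∧ l • T = 0 ∧ ∀ s, DecN M V s → ac (WAB A B) s T = T := by
  have hcl0 : IsAlgClosed Ω := IsAlgClosure.isAlgClosed F
  have hal0 : Algebra.IsAlgebraic F Ω := IsAlgClosure.isAlgebraic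
  have hc0' : CharZero Ω := charZero_of_injective_algebraMap (algebraMap F Ω).injective
  have hbel : H55P.Below V M v.asIdeal := fun x => by
    rw [← v.valuation_lt_one_iff_mem (K := M) x]
    exact (hV.lt (x : M)).symm
  have hG : GoodW ((W₀⁄F)⁄Ω) V := H55P.good_below W₀ M V v hbel hΔ
  have hlV : V.valuation (l : Ω) = 1 := H55P.val_below M V v hbel l hlv
  obtain ⟨r, s', t', Θ, hVC, hΘ, hcom⟩ := r6_iso (Ω := Ω) W₀ hell hA' hB'
  obtain ⟨φ, hφ, hφD, hφF⟩ := exists_frobK M hV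
  obtain ⟨X', hc0, hlX, hX⟩ := lk_XM W₀ M hΔ hV hG hl hpts hφ hφF
  obtain ⟨X, rfl⟩ := Θ.surjective X'
  obtain ⟨T, hT, hXT⟩ := surj_lR hA W₀ hVC hΘ hG hl h5 hlV (X := X) (by rw [map_nsmul]; exact hlX)
  have hT0 : T ≠ 0 := by
    rintro rfl
    rw [sub_zero] at hXT
    exact hc0 hXT
  have hφT : ac (WAB A B) φ T = T := by
    have h1 : Θ (ac (WAB A B) φ T - T) = (ac (W₀⁄F) φ (Θ X) - Θ X) -
        (ac (W₀⁄F) φ (Θ (X - T)) - Θ (X - T)) := by
      rw [hcom, hcom, map_sub, map_sub, map_sub, map_sub]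
      abel
    have h2 : Ker V (Θ (ac (WAB A B) φ T - T)) := by
      rw [h1]
      exact (kerR hG).sub_mem hX ((kerR hG).sub_mem (r6_ker hφD hXT) hXT)
    have h3 : Θ (ac (WAB A B) φ T - T) = 0 := H35P.fg hG.toIntW _ l hlV (by
      rw [← map_nsmul, smul_sub, ← map_nsmul, hT, map_zero, sub_zero, map_zero]) h2
    exact sub_eq_zero.1 ((map_eq_zero_iff Θ Θ.injective).1 h3)
  refine ⟨T, hT0, hT, fun s hs => ?_⟩
  have hfin := lp_fin T
  have h0 := dec_gen (A := A) (B := B) (d := fun s => ac (WAB A B) s T - T) hV (fun s _ _ t _ _ => by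
      show ac (WAB A B) (s * t) T - T = (ac (WAB A B) s T - T) + ac (WAB A B) s (ac (WAB A B) t T - T)
      rw [ac_mul, map_sub]
      abel)
    ⟨IntermediateField.adjoin F {xc T, yc T}, hfin, fun s _ hs _ => by
      show ac (WAB A B) s T - T = 0
      rw [lp_adj s T hs, sub_self]⟩
    (fun s _ hi => by
      show ac (WAB A B) s T - T = 0
      have h4 : ac (W₀⁄F) s (Θ T) = Θ T := H55P.red_fix (W₀⁄F) V hG l hlV s hi (Θ T) (by
        rw [hcom, smul_sub, ← map_nsmul, ← map_nsmul, ← map_nsmul, hT, map_zero, map_zero, sub_zero])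
      rw [hcom] at h4
      rw [Θ.injective h4, sub_self])
    hφ hφD hφF (by show ac (WAB A B) φ T - T = 0; rw [hφT, sub_self]) hs.1 hs.2
  exact sub_eq_zero.1 h0

omit [IsAlgClosure F Ω] in
/-- A prime element π above l such that the decomposition group fixes all the points killed by π. -/
theorem lk_piR (hA : CMA F A B Om j act) (hl : l.Prime) (unr : ∀ v : HeightOneSpectrum (𝓞 F), (l : 𝓞 F) ∉ v.asIdeal ^ 2)
    (M : IntermediateField F Ω) {V : ValuationSubring Ω} {T : Pt (WAB A B) Ω} (hT0 : T ≠ 0) (hT : l • T = 0)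
    (hf : ∀ s, DecN M V s → ac (WAB A B) s T = T) :
    ∃ π : 𝓞 F, Prime π ∧ π ∣ (l : 𝓞 F) ∧ ∀ s, DecN M V s → ∀ R ∈ Tor act π, ac (WAB A B) s R = R := by
  have key : ∀ β : 𝓞 F, Prime β → ∀ T' ∈ Tor act β, T' ≠ 0 → (∀ s, DecN M V s → ac (WAB A B) s T' = T') →
      ∀ s, DecN M V s → ∀ R ∈ Tor act β, ac (WAB A B) s R = R := by
    intro β hβ T' hT' h0 hf' s hs R hR
    obtain ⟨a, rfl⟩ := H55K.tor_gen hA hβ hT' hR h0
    rw [ac_act hA, hf' s hs]
  have hTl : act (l : 𝓞 F) T = 0 := by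
    rw [act_nat (act := act)]
    exact hT
  obtain ⟨π, hπ, hd⟩ := exists_prime_above (F := F) hl
  rcases dichotomy hl unr hπ hd with ⟨-, -, h3⟩ | ⟨-, -, -, hll⟩
  · exact ⟨π, hπ, hd, key π hπ T (by rw [← tor_assoc h3]; exact hTl) hT0 hf⟩
  · have hd' : cj π ∣ (l : 𝓞 F) := by rw [cj_dvd, cj_nat]; exact hd
    by_cases h : act (cj π) T = 0
    · exact ⟨cj π, cj_prime hπ, hd', key (cj π) (cj_prime hπ) T h hT0 hf⟩
    · refine ⟨π, hπ, hd, key π hπ (act (cj π) T) ?_ h fun s hs => ?_⟩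
      · rw [mem_Tor, ← act_mul, hll]
        exact hTl
      · rw [ac_act hA, hf s hs]

end H13R
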