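import Mathlib
import Pool.Agent.Lib.H13R.A1
import Pool.Agent.Lib.H13X.XNB

/-! # H13R: the base fields -/

open NumberField IsDedekindDomain WeierstrassCurve

namespace H13R

open H55P (IQ embF eF LF Per IsHecke Pt ac Inert Dec Nm Coc PExt UnrP)
open H35P (WAB Ker tt)
open H55K.S
open H13S (Abv)
open H13X

variable {F : Type} [Field F] [NumberField F] [IQ F] {l : ℕ}

theorem g1_exp {N : IntermediateField F (AlgebraicClosure F)} [NumberField N]
    (V : ValuationSubring (AlgebraicClosure F)) (β : 𝓞 F) (hβ : Prime β) (hV : vo V β < 1)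
    (w : HeightOneSpectrum (𝓞 N)) (hw : Abv N V w) :
    ∃ f : ℕ, 0 < f ∧ Ideal.absNorm w.asIdeal = Nm β ^ f := by
  have hwp := w.isPrime
  have hwm := w.isMaximal
  have hbot : Ideal.span {β} ≠ ⊥ := by
    rw [Ne, Ideal.span_singleton_eq_bot]
    exact hβ.ne_zero
  have hp : (Ideal.span {β}).IsPrime := (Ideal.span_singleton_prime hβ.ne_zero).2 hβ
  have hm : (Ideal.span {β}).IsMaximal := hp.isMaximal hbot
  have hmem : algebraMap (𝓞 F) (𝓞 N) β ∈ w.asIdeal := by
    rw [← HeightOneSpectrum.valuation_lt_one_iff_mem (K := N), ← hw.lt]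
    exact hV
  have hlies : w.asIdeal.LiesOver (Ideal.span {β}) := by
    constructor
    refine hm.eq_of_le (Ideal.IsPrime.ne_top inferInstance) ?_
    rw [Ideal.span_singleton_le_iff_mem]
    exact hmem
  refine ⟨w.asIdeal.inertiaDeg (𝓞 F), Ideal.inertiaDeg_pos w.asIdeal (𝓞 F), ?_⟩
  rw [← Ideal.absNorm_pow_inertiaDeg (Ideal.span {β}) w.asIdeal]
  rfl

/-- The residue fields above l. -/
theorem g1_res (hl : l.Prime) {N : IntermediateField F (AlgebraicClosure F)} [NumberField N]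
    (V : ValuationSubring (AlgebraicClosure F)) (β : 𝓞 F) (hβ : Prime β) (hV : vo V β < 1) (hVl : V.valuation (l : AlgebraicClosure F) < 1) :
    ∃ q f : ℕ, 0 < f ∧ q = Nm β ^ f ∧ (∀ x ∈ N, x ∈ V → V.valuation (x ^ q - x) < 1) ∧
      (∃ φ ∈ N.fixingSubgroup, Dec V φ ∧ ∀ x ∈ V, V.valuation (φ x - x ^ q) < 1) ∧
      ∃ r : Fin q → AlgebraicClosure F, (∀ i, r i ∈ N ∧ V.valuation (r i) ≤ 1) ∧
        (∀ i i', i ≠ i' → V.valuation (r i - r i') = 1) ∧
        ∀ x ∈ N, x ∈ V → ∃ i, V.valuation (x - r i) < 1 := by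
  classical
  have hl0 : (l : AlgebraicClosure F) ≠ 0 := Nat.cast_ne_zero.2 hl.ne_zero
  have hlinv : ((l : AlgebraicClosure F)⁻¹) ∉ V := by
    rw [← V.valuation_le_one_iff, map_inv₀, not_le]
    exact (one_lt_inv₀ (zero_lt_iff.2 ((map_ne_zero _).2 hl0))).2 hVl
  have hN : ∃ x : N, (x : AlgebraicClosure F) ∉ V := by
    refine ⟨(l : N)⁻¹, ?_⟩
    have e : (((l : N)⁻¹ : N) : AlgebraicClosure F) = (l : AlgebraicClosure F)⁻¹ := by simp
    rw [e]
    exact hlinv
  obtain ⟨w, hw⟩ := H13S.exists_below N V hN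
  have hwm := w.isMaximal
  obtain ⟨f, hf0, hf⟩ := g1_exp V β hβ hV w hw
  obtain ⟨φ, hφN, hφD, hφ⟩ := exists_frobK N hw
  refine ⟨Ideal.absNorm w.asIdeal, f, hf0, hf, ?_, ⟨φ, hφN, hφD, hφ⟩, ?_⟩
  · intro x hx hxV
    have h1 := hφ x hxV
    have h2 : φ x = x := (IntermediateField.mem_fixingSubgroup_iff N φ).1 hφN x hx
    rw [h2] at h1
    rw [← neg_sub, Valuation.map_neg]
    exact h1
  · have hcard : Nat.card (𝓞 N ⧸ w.asIdeal) = Ideal.absNorm w.asIdeal := rfl
    have hfin : Finite (𝓞 N ⧸ w.asIdeal) := Ideal.finiteQuotientOfFreeOfNeBot _ w.ne_bot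
    have e : Fin (Ideal.absNorm w.asIdeal) ≃ (𝓞 N ⧸ w.asIdeal) := by
      rw [← hcard]
      exact (Finite.equivFin _).symm
    have hmk : ∀ y : 𝓞 N ⧸ w.asIdeal, Ideal.Quotient.mk w.asIdeal (Quotient.out y) = y := fun y =>
      Quotient.out_eq y
    refine ⟨fun i => (((Quotient.out (e i) : 𝓞 N) : N) : AlgebraicClosure F), fun i => ⟨?_, H13S.vw_int N V _⟩, ?_, ?_⟩
    · exact ((Quotient.out (e i) : 𝓞 N) : N).2
    · intro i i' hii
      have e1 : (((Quotient.out (e i) : 𝓞 N) : N) : AlgebraicClosure F) - (((Quotient.out (e i') : 𝓞 N) : N) : AlgebraicClosure F) =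
          (((Quotient.out (e i) - Quotient.out (e i') : 𝓞 N) : N) : AlgebraicClosure F) := by simp
      show V.valuation ((((Quotient.out (e i) : 𝓞 N) : N) : AlgebraicClosure F) - (((Quotient.out (e i') : 𝓞 N) : N) : AlgebraicClosure F)) = 1
      rw [e1]
      refine le_antisymm (H13S.vw_int N V _) (not_lt.1 fun h' => hii ?_)
      have h2 := (w.valuation_lt_one_iff_mem _).1 ((hw.lt _).1 h')
      rw [← Ideal.Quotient.eq_zero_iff_mem, map_sub, hmk, hmk, sub_eq_zero] at h2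
      exact e.injective h2
    · intro x hx hxV
      obtain ⟨y, hy⟩ := yn2_approx N V w hw ⟨x, hx⟩ hxV
      refine ⟨e.symm (Ideal.Quotient.mk w.asIdeal y), ?_⟩
      have h3 : y - Quotient.out (Ideal.Quotient.mk w.asIdeal y) ∈ w.asIdeal := by
        rw [← Ideal.Quotient.eq_zero_iff_mem, map_sub, hmk, sub_self]
      have h4 := (hw.lt _).2 ((w.valuation_lt_one_iff_mem _).2 h3)
      show V.valuation (x - (((Quotient.out (e (e.symm (Ideal.Quotient.mk w.asIdeal y))) : 𝓞 N) : N) : AlgebraicClosure F)) < 1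
      rw [e.apply_symm_apply]
      have e2 : x - (((Quotient.out (Ideal.Quotient.mk w.asIdeal y) : 𝓞 N) : N) : AlgebraicClosure F) =
          (x - ((y : N) : AlgebraicClosure F)) + (((y - Quotient.out (Ideal.Quotient.mk w.asIdeal y) : 𝓞 N) : N) : AlgebraicClosure F) := by
        have h5 : (((y - Quotient.out (Ideal.Quotient.mk w.asIdeal y) : 𝓞 N) : N) : AlgebraicClosure F) =
          ((y : N) : AlgebraicClosure F) - (((Quotient.out (Ideal.Quotient.mk w.asIdeal y) : 𝓞 N) : N) : AlgebraicClosure F) := by simp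
        rw [h5]
        ring
      rw [e2]
      exact V.valuation.map_add_lt hy h4

open Classical in
/-- Number fields N in which l is unramified satisfy Nb. -/
theorem nb_ofR (hl : l.Prime) (hlF : UnrP l F) {N : IntermediateField F (AlgebraicClosure F)} [NumberField N]
    (hU : UnrP l N) : Nb l N := by
  obtain ⟨L₀, hLn, hLf, hNL, hn, hUL⟩ := unr_closF hl hlF hU
  refine ⟨H55P.finDim_of_le hNL, ?_, ?_⟩
  · intro V h s hs
    have hVne : ∃ x : L₀, (x : AlgebraicClosure F) ∉ V := by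
      have hl0 : (l : AlgebraicClosure F) ≠ 0 := Nat.cast_ne_zero.2 hl.ne_zero
      refine ⟨(l : L₀)⁻¹, fun hmem => ?_⟩
      have h1 : V.valuation ((((l : L₀))⁻¹ : L₀) : AlgebraicClosure F) ≤ 1 := (V.valuation_le_one_iff _).2 hmem
      have h2 : ((((l : L₀))⁻¹ : L₀) : AlgebraicClosure F) = (l : AlgebraicClosure F)⁻¹ := by push_cast; rfl
      rw [h2] at h1
      have h3 : V.valuation ((l : AlgebraicClosure F) * (l : AlgebraicClosure F)⁻¹) < 1 := by
        rw [map_mul]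
        exact mul_lt_one_of_lt_of_le h h1
      rw [mul_inv_cancel₀ hl0, map_one] at h3
      exact lt_irrefl _ h3
    refine IntermediateField.fixingSubgroup_le hNL (H13X.inert_triv hn hVne ?_ hs)
    intro v₀ hv₀ hr
    obtain ⟨W, hW, hle⟩ := hr
    have hlv : (l : 𝓞 F) ∈ v₀.asIdeal := by
      rw [hv₀]
      simpa using h
    have h1 : (l : 𝓞 L₀) ∈ W ^ 2 := by
      have := hle (Ideal.mem_map_of_mem (algebraMap (𝓞 F) (𝓞 L₀)) hlv)
      rwa [map_natCast] at this
    have h2 : W ^ 2 ∣ Ideal.span {(l : 𝓞 L₀)} := by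
      rw [Ideal.dvd_iff_le, Ideal.span_singleton_le_iff_mem]
      exact h1
    have h3 : IsUnit W := hUL W (by rwa [← sq])
    exact hW.ne_top (Ideal.isUnit_iff.1 h3)
  · intro V β hβ h1 h2
    exact g1_res hl V β hβ h1 h2

end H13R
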