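import Mathlib
import Pool.Agent.Lib.H13R.G1
import Pool.Agent.Lib.H13X.XS

/-! # H13R: one step of degree l, and the chain, over M -/

open NumberField IsDedekindDomain WeierstrassCurve

namespace H13R

open H55P (IQ embF eF LF Per IsHecke Pt ac Inert Dec Nm Coc PExt UnrP Ram RamF)
open H35P (WAB Ker tt)
open H55K (Tor ak xc yc CMA Dta GV GMod cj cj_cj mul_cj cj_prime cj_dvd cj_nat Nm_cj Nm_mul Nm_nat)
open H55K (Abw exists_abw)
open H55K.S
open H55R (Pl)
open H13S (Abv)
open H13Z (SelNon)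
open H13X

section step

variable {F : Type} [Field F] [NumberField F] [IQ F] {A B : F} {Om : ℂ} {Ω : Type} [Field Ω] [DecidableEq Ω]
  [Algebra F Ω] [IsAlgClosure F Ω] {j : Ω →+* ℂ} {act : 𝓞 F →+* AddMonoid.End (Pt (WAB A B) Ω)} {mo : Ideal (𝓞 F)}
  {ψ : Ideal (𝓞 F) →*₀ 𝓞 F} {π : 𝓞 F} {l : ℕ}

/-- One step. -/
theorem sel_stepR (D : Dat A B Om j act mo ψ π l) {N N' : IntermediateField F Ω} [NumberField N] [NumberField N']
    (hN : Nb l N) (hN' : Nb l N') (hUN : UnrP l N) (hNN : N ≤ N')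
    (hn : ∀ s ∈ N.fixingSubgroup, ∀ x ∈ N', s x ∈ N')
    (hd : Module.finrank F N' = Module.finrank F N * l) {w : HeightOneSpectrum (𝓞 N)}
    (hlw : (l : 𝓞 N) ∉ w.asIdeal) (hr : Ram N N' w.asIdeal)
    (hfx : ∀ V : ValuationSubring Ω, Abv N V w → ∀ s, DecN N V s → ∀ T ∈ Tor act π, ac (WAB A B) s T = T) :
    SelNon (WAB A B) l N' := by
  have hN'f : FiniteDimensional F N' := hN'.fin
  have hNf : FiniteDimensional F N := hN.fin
  obtain ⟨L, hLT⟩ := exists_TB D.cma π D.pr N
  have hLf : FiniteDimensional F L := hLT.fin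
  have hLn : NumberField L := NumberField.of_module_finite F L
  obtain ⟨m, hm⟩ := exists_GN D hLT hUN hlw hfx
  obtain ⟨e, he⟩ := exists_pairing π l D.dta D.pr D.dvd
  obtain ⟨c, y, G⟩ := exists_gl D he hN hLT hlw hfx hm
  have hmono : ∀ s ∈ N'.fixingSubgroup, s ∈ N.fixingSubgroup := fun s hs =>
    IntermediateField.fixingSubgroup_antitone hNN hs
  refine ⟨c, ⟨fun s hs t ht => G.cc.mul s (hmono s hs) t (hmono t ht), ?_⟩, fun s hs =>
    lcb_l D (G.cc.val s (hmono s hs)), fun V hV => ?_, ?_⟩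
  · obtain ⟨M, hM, h2⟩ := G.cc.cont
    exact ⟨M, hM, fun s hs hsM => h2 s (hmono s hs) hsM⟩
  · exact G.local he hNN (fun V hV a ha h0 => H13Y.ram_step D.hl hNN hn hd hr hV ha h0) hV
  · rintro ⟨T, hT, h⟩
    refine G.not_cob he ⟨T, hT, ?_⟩
    exact H13Y.cob_down (WAB A B) l hNN hn (fun R hR hfix => no_tors D hN' hR hfix)
      G.cc.mul (fun s hs => lcb_l D (G.cc.val s hs)) hT h

omit [IsAlgClosure F Ω] [IQ F] in
/-- v unramified in N and ramified in K: some prime w of N above v is ramified in K. -/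
theorem ram_upR {M N K : IntermediateField F Ω}
    [NumberField M] [NumberField N] [NumberField K] (hMN : M ≤ N) (hNK : N ≤ K) (v : HeightOneSpectrum (𝓞 M))
    (hK : Ram M K v.asIdeal) (hN : ¬ Ram M N v.asIdeal) : ∃ w : HeightOneSpectrum (𝓞 N),
      (∀ (x : 𝓞 M) (y : 𝓞 N), ((y : N) : Ω) = ((x : M) : Ω) → (x ∈ v.asIdeal ↔ y ∈ w.asIdeal)) ∧ Ram N K w.asIdeal := by
  obtain ⟨W, hWp, hW⟩ := hK
  letI : Algebra M N := (IntermediateField.inclusion hMN).toRingHom.toAlgebra
  letI : Algebra N K := (IntermediateField.inclusion hNK).toRingHom.toAlgebra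
  letI : Algebra M K := (IntermediateField.inclusion (hMN.trans hNK)).toRingHom.toAlgebra
  have t1 : IsScalarTower M N K := IsScalarTower.of_algebraMap_eq fun x => rfl
  obtain ⟨w, hw1, hw2, h | h⟩ := H55P.i3_tower (M := M) (N := N) (K := K) v W fun x hx => hW x _ hx rfl
  · refine absurd ⟨w.asIdeal, w.isPrime, fun x y hx hxy => ?_⟩ hN
    have h3 : y = algebraMap (𝓞 M) (𝓞 N) x := by
      apply RingOfIntegers.ext
      apply Subtype.ext
      exact hxy
    rw [h3]
    exact h x hx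
  · refine ⟨w, fun x y hxy => ?_, W, hWp, fun x y hx hxy => ?_⟩
    · have h3 : y = algebraMap (𝓞 M) (𝓞 N) x := by
        apply RingOfIntegers.ext
        apply Subtype.ext
        exact hxy
      rw [h3, ← hw2]
      rfl
    · have hl : W.LiesOver w.asIdeal := ⟨hw1.symm⟩
      have h2 := H55P.s13_le_sq w.asIdeal w.ne_bot W h x hx
      have h3 : y = algebraMap (𝓞 N) (𝓞 K) x := by
        apply RingOfIntegers.ext
        apply Subtype.ext
        exact hxy
      rw [h3]
      exact h2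

end step

section chain

variable {F : Type} [Field F] [NumberField F] [IQ F] {A B : F} {Om : ℂ} [DecidableEq (AlgebraicClosure F)]
  {j : AlgebraicClosure F →+* ℂ} {act : 𝓞 F →+* AddMonoid.End (Pt (WAB A B) (AlgebraicClosure F))} {mo : Ideal (𝓞 F)}
  {ψ : Ideal (𝓞 F) →*₀ 𝓞 F} {π : 𝓞 F} {l : ℕ}

/-- The prime of M below. -/
theorem abv_downR {M N : IntermediateField F (AlgebraicClosure F)} [NumberField M] [NumberField N] (hMN : M ≤ N)
    {V : ValuationSubring (AlgebraicClosure F)} {v : HeightOneSpectrum (𝓞 M)} {w : HeightOneSpectrum (𝓞 N)}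
    (h : ∀ (x : 𝓞 M) (y : 𝓞 N), ((y : N) : AlgebraicClosure F) = ((x : M) : AlgebraicClosure F) → (x ∈ v.asIdeal ↔ y ∈ w.asIdeal))
    (hV : Abv N V w) : Abv M V v := by
  let _ : Algebra M N := (IntermediateField.inclusion hMN).toRingHom.toAlgebra
  have t : IsScalarTower M N (AlgebraicClosure F) := IsScalarTower.of_algebraMap_eq fun x => rfl
  have h1 : Abw V w := hV
  exact h1.below (K := M) (v := v) (HeightOneSpectrum.ext (by
    ext x
    exact (h x (algebraMap (𝓞 M) (𝓞 N) x) rfl).symm))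

/-- THEOREM X over M. -/
theorem x_coreR (D : Dat A B Om j act mo ψ π l) (hlF : UnrP l F) {M L₀ : IntermediateField F (AlgebraicClosure F)}
    [NumberField M] [NumberField L₀] (hL : PExt l M L₀)
    (hU : UnrP l L₀) (K : IntermediateField F (AlgebraicClosure F)) [NumberField K] (hMK : M ≤ K) (hKL : K ≤ L₀)
    {v : HeightOneSpectrum (𝓞 M)}
    (hr : Ram M K v.asIdeal) (hl : (l : 𝓞 M) ∉ v.asIdeal) {V₀ : ValuationSubring (AlgebraicClosure F)} (hV₀ : Abv M V₀ v)
    (hfx : ∀ s, DecN M V₀ s → ∀ T ∈ Tor act π, ac (WAB A B) s T = T) : SelNon (WAB A B) l K := by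
  have hL₀f : FiniteDimensional F L₀ := hL.fin
  have hdown : ∀ {N : IntermediateField F (AlgebraicClosure F)} [NumberField N], N ≤ L₀ → UnrP l N := by
    intro N _ hNL
    letI : Algebra N L₀ := (IntermediateField.inclusion hNL).toRingHom.toAlgebra
    exact H55P.UnrP.down N L₀ l D.hl hU
  obtain ⟨n, hn⟩ : ∃ n, Module.finrank F K = n := ⟨_, rfl⟩
  induction n using Nat.strong_induction_on generalizing K with
  | _ n ih =>
    have hKf : FiniteDimensional F K := H55P.finDim_of_le hKL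
    have hne : K ≠ M := by
      rintro rfl
      exact H55P.ram_self _ v hr
    obtain ⟨N, hMN, hNK, hd, hnorm⟩ := H55P.chain_step l D.hl M K L₀ hL hMK hKL hne
    have hNf : FiniteDimensional F N := H55P.finDim_of_le hNK
    have hNn : NumberField N := NumberField.of_module_finite F N
    have hlt : Module.finrank F N < n := by
      have h0 : 0 < Module.finrank F N := Module.finrank_pos
      have h2 := D.hl.two_le
      rw [← hn, hd]
      nlinarith
    have hUK : UnrP l K := hdown hKL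
    have hUN : UnrP l N := hdown (hNK.trans hKL)
    have hKN : Nb l K := nb_ofR D.hl hlF hUK
    have hNN : Nb l N := nb_ofR D.hl hlF hUN
    by_cases hrN : Ram M N v.asIdeal
    · exact H13Y.non_up (WAB A B) l hNK hnorm (fun R hR hfix => no_tors D hKN hR hfix)
        (ih _ hlt N hMN (hNK.trans hKL) hrN rfl)
    · obtain ⟨w, hw, hram⟩ := ram_upR hMN hNK v hr hrN
      have hlw : (l : 𝓞 N) ∉ w.asIdeal := by
        intro h
        exact hl ((hw (l : 𝓞 M) (l : 𝓞 N) (by simp)).2 h)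
      refine sel_stepR D hNN hKN hUN hNK hnorm hd hlw hram fun V hV s hs T hT => ?_
      have hVv : Abv M V v := abv_downR hMN hw hV
      obtain ⟨σ, hσM, hσ⟩ := trans_V M hV₀ hVv
      have hD : DecN M V₀ (σ⁻¹ * s * σ) := by
        refine ⟨mul_mem (mul_mem (inv_mem hσM) (IntermediateField.fixingSubgroup_antitone hMN hs.1)) hσM, fun x => ?_⟩
        have h1 := hσ (σ⁻¹ (s (σ x)))
        have h2 : σ (σ⁻¹ (s (σ x))) = s (σ x) := σ.apply_symm_apply _
        rw [h2] at h1
        exact h1.symm.trans ((hs.2 (σ x)).trans (hσ x))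
      have h3 := hfx _ hD (ac (WAB A B) σ⁻¹ T) (ac_mem D.cma σ⁻¹ hT)
      rw [← ac_mul, show σ⁻¹ * s * σ * σ⁻¹ = σ⁻¹ * s by group, ac_mul] at h3
      have h4 := congrArg (ac (WAB A B) σ) h3
      have h5 : ∀ P, ac (WAB A B) σ (ac (WAB A B) σ⁻¹ P) = P := fun P => by
        rw [← ac_mul, mul_inv_cancel, ac_one]
      rwa [h5, h5] at h4

end chain

end H13R
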