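import Mathlib
import Pool.Agent.Lib.H13R.D
import Pool.Agent.Lib.H13R.G4
import Pool.Agent.Lib.H13R.R6
import Pool.Agent.Lib.H13X.XF

/-! # H13R: a bad ramified prime gives a nonzero Selmer class, over M -/

open NumberField IsDedekindDomain WeierstrassCurve

namespace H13R

open H55P (IQ embF eF LF Per IsHecke Pt ac Inert Dec Nm Coc PExt UnrP Ram RamF pt8_norm)
open H35P (WAB Ker tt)
open H55K (Tor ak xc yc CMA Dta GV GMod cj cj_cj mul_cj cj_prime cj_dvd cj_nat Nm_cj Nm_mul Nm_nat exists_abw)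
open H55K.S
open H55R (Pl)
open H13S (Abv)
open H13Z (SelNon)
open H55K.TQ (BaseH PrimeH NoAn)
open H13X

theorem g6_ram_p {F : Type} [Field F] [NumberField F] {Ω : Type} [Field Ω] [DecidableEq Ω] [Algebra F Ω] [IsAlgClosure F Ω]
    {p : ℕ} (hp : p.Prime) {M L K : IntermediateField F Ω} [NumberField M] [NumberField K] (hL : PExt p M L) (hMK : M ≤ K)
    (hK : K ≤ L) (hU : UnrP p K) {v : HeightOneSpectrum (𝓞 M)} (hv : Ram M K v.asIdeal) : (p : 𝓞 M) ∉ v.asIdeal := by
  have hcl0 : IsAlgClosed Ω := IsAlgClosure.isAlgClosed F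
  have hal0 : Algebra.IsAlgebraic F Ω := IsAlgClosure.isAlgebraic
  have hc0 : CharZero Ω := charZero_of_injective_algebraMap (algebraMap F Ω).injective
  have hn := H55P.ram_norm p hp M L hL K hMK hK hU v hv
  intro hpv
  have h1 : v.asIdeal ∣ Ideal.span {(p : 𝓞 M)} := by
    rw [Ideal.dvd_iff_le, Ideal.span_singleton_le_iff_mem]
    exact hpv
  have h2 := map_dvd Ideal.absNorm h1
  rw [Ideal.absNorm_span_natCast] at h2
  obtain ⟨k, -, hk⟩ := (Nat.dvd_prime_pow hp).1 h2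
  have hk0 : k ≠ 0 := by
    rintro rfl
    rw [pow_zero, Ideal.absNorm_eq_one_iff] at hk
    exact v.isPrime.ne_top hk
  have h3 : p ∣ Ideal.absNorm v.asIdeal := by
    rw [hk]
    exact dvd_pow_self p hk0
  have h4 : 0 < Ideal.absNorm v.asIdeal := by
    rw [hk]
    exact pow_pos hp.pos k
  have h5 : p ∣ 1 := by
    have h6 := Nat.dvd_sub h3 hn
    rwa [Nat.sub_sub_self h4] at h6
  exact hp.one_lt.ne' (Nat.dvd_one.1 h5)

section main

variable {F : Type} [Field F] [NumberField F] [IQ F] {W₀ : WeierstrassCurve (𝓞 F)} {Om : ℂ}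
    {m : Ideal (𝓞 F)} {ψ : Ideal (𝓞 F) →*₀ 𝓞 F} {p : ℕ}

open Classical in
/-- THEOREM X over M. If some prime v of M not dividing the discriminant, at which the number of points is divisible by p, is
ramified in K then the classical p-Selmer group over K is not zero. -/
theorem nonselR (hH : BaseH F W₀ Om m ψ) (hp : PrimeH F W₀ p) {M L K : IntermediateField F (AlgebraicClosure F)}
    [NumberField M] [NumberField L] [NumberField K] (hL : PExt p M L) (hU : UnrP p L) (hMK : M ≤ K) (hKL : K ≤ L)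
    (hN : ¬ NoRel p W₀ M K) : SelNon (W₀⁄F) p K := by
  obtain ⟨v, hr, hΔ, hpts⟩ : ∃ v : HeightOneSpectrum (𝓞 M), Ram M K v.asIdeal ∧
      algebraMap (𝓞 F) (𝓞 M) W₀.Δ ∉ v.asIdeal ∧
      p ∣ Nat.card (W₀⁄(𝓞 M ⧸ v.asIdeal)).toAffine.Point := by
    unfold NoRel at hN
    push Not at hN
    exact hN
  have hB := H55K.TQ.base_of hH hp
  obtain ⟨j, hj⟩ := H55K.exists_j F (AlgebraicClosure F)
  obtain ⟨A, hA⟩ : ∃ A : F, A = -(algebraMap (𝓞 F) F W₀.c₄) / 48 := ⟨_, rfl⟩
  obtain ⟨B, hB'⟩ : ∃ B : F, B = -(algebraMap (𝓞 F) F W₀.c₆) / 864 := ⟨_, rfl⟩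
  have hd := H55K.y3_ne W₀ hA hB' hB.data.ell
  have hper : Per F (embF F A) (embF F B) Om := by
    have e1 : embF F A = -(eF F W₀.c₄) / 48 := by
      rw [hA, map_div₀, map_neg, map_ofNat]
      rfl
    have e2 : embF F B = -(eF F W₀.c₆) / 864 := by
      rw [hB', map_div₀, map_neg, map_ofNat]
      rfl
    rw [e1, e2]
    exact hB.data.per
  obtain ⟨act, hact⟩ := H55K.exists_CMA F A B Om j hd hper hj
  have hG : ∀ V : ValuationSubring (AlgebraicClosure F),
      ∃ (Kg : AddSubgroup (Pt (WAB A B) (AlgebraicClosure F))) (u : AlgebraicClosure F),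
        GMod (WAB A B) V Kg u := fun V => H55K.exists_gmod hd (H55K.y3_j W₀ hA hB' hB.jint) V
  have hD : Dta A B Om j act m ψ p := H55K.mk_Dta hB hA hB' hact hG
  have hUK : UnrP p K := by
    let _ : Algebra K L := (IntermediateField.inclusion hKL).toRingHom.toAlgebra
    exact H55P.UnrP.down K L p hp.prime hU
  have hpv : (p : 𝓞 M) ∉ v.asIdeal := g6_ram_p hp.prime hL hMK hKL hUK hr
  obtain ⟨V, hV⟩ : ∃ V : ValuationSubring (AlgebraicClosure F), Abv M V v := exists_abw (AlgebraicClosure F) v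
  obtain ⟨T, hT0, hT, hf⟩ := lk_decR hact W₀ hB.data.ell hA hB' M hΔ hV hp.prime hp.five hpv hpts
  obtain ⟨π, hπ, hd', hfx⟩ := lk_piR hact hp.prime hB.unr M hT0 hT hf
  have D : Dat A B Om j act m ψ π p := ⟨hD, hπ, hd'⟩
  exact xf_short W₀ hA hB' hB.data.ell p K (x_coreR D hp.unr hL hU K hMK hKL hr hpv hV hfx)

end main

end H13R
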