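import Mathlib
import Pool.Agent.Lib.H13Y.D2

/-! # H13R: the Selmer group with inertia conditions along a quadratic extension -/

open NumberField IsDedekindDomain WeierstrassCurve

namespace H13R

open H55P (Pt ac Inert Dec Coc SelZero)
open H13Y

/-- Chunk N1 (S/M). H13Y.cor_two (D2.lean) with Inert in place of Dec: copy its proof. The only changes: all valuation rings V (no condition V ≠ ⊤), and the group DD = elements of K.fixingSubgroup with Inert V s; it is a subgroup: there is H13S or H55P lemma inS / decS (H55P/S13 or S14: grep inS, Inert; inS F V is the inertia group as a subgroup, so DD = K.fixingSubgroup ⊓ H55P.inS k V, membership Iff.rfl as in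
H55K/NA5.lean hI). For s in K₁.fixingSubgroup with Inert V s: τ⁻¹ s τ lies in the inertia group of V' = V.comap τ: for x in V' (τ x in V): V'.valuation (τ⁻¹ s τ x - x) < 1 iff V.valuation (s τ x - τ x) < 1 (see hlt in H55P/Z12.lean: lt1_iff, ValuationSubring.mem_comap). -/
theorem cor_twoI {k : Type} [Field k] {Ω : Type} [Field Ω] [DecidableEq Ω] [Algebra k Ω] [IsAlgClosure k Ω]
    [CharZero k] (W : WeierstrassCurve k) {p : ℕ} (hp : p % 2 = 1) {K K₁ : IntermediateField k Ω}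
    [FiniteDimensional k K₁] (hK : K ≤ K₁) (hn : ∀ s ∈ K.fixingSubgroup, ∀ x ∈ K₁, s x ∈ K₁)
    {τ : Ω ≃ₐ[k] Ω} (hτ : τ ∈ K.fixingSubgroup) (hτ1 : τ ∉ K₁.fixingSubgroup)
    (h2 : ∀ s ∈ K.fixingSubgroup, s ∉ K₁.fixingSubgroup → s * τ ∈ K₁.fixingSubgroup ∧
      τ⁻¹ * s ∈ K₁.fixingSubgroup)
    {d : (Ω ≃ₐ[k] Ω) → Pt W Ω} (hd : Coc W K₁ d) (hpd : ∀ s ∈ K₁.fixingSubgroup, p • d s = 0)
    (hV : ∀ V : ValuationSubring Ω, ∃ P : Pt W Ω, ∀ s ∈ K₁.fixingSubgroup, Inert V s →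
      d s = ac W s P - P) :
    ∃ C : (Ω ≃ₐ[k] Ω) → Pt W Ω, Coc W K C ∧ (∀ s ∈ K.fixingSubgroup, p • C s = 0) ∧
      (∀ V : ValuationSubring Ω, ∃ P : Pt W Ω, ∀ s ∈ K.fixingSubgroup, Inert V s →
        C s = ac W s P - P) ∧
      ∀ s ∈ K₁.fixingSubgroup, C s = d s + ac W τ (d (τ⁻¹ * s * τ)) := by
  classical
  have hle : K₁.fixingSubgroup ≤ K.fixingSubgroup := IntermediateField.fixingSubgroup_antitone hK
  have hnor : ∀ s ∈ K.fixingSubgroup, ∀ t ∈ K₁.fixingSubgroup, s⁻¹ * t * s ∈ K₁.fixingSubgroup := by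
    intro s hs t ht
    rw [IntermediateField.mem_fixingSubgroup_iff] at ht ⊢
    intro x hx
    have e : (s⁻¹ * t * s) x = s⁻¹ (t (s x)) := rfl
    rw [e, ht _ (hn s hs x hx)]
    exact s.symm_apply_apply x
  have hτi : ∀ t ∈ K₁.fixingSubgroup, τ⁻¹ * t * τ ∈ K₁.fixingSubgroup := hnor τ hτ
  obtain ⟨C, hC⟩ : ∃ C : (Ω ≃ₐ[k] Ω) → Pt W Ω, ∀ s, C s = if s ∈ K₁.fixingSubgroup then
      d s + ac W τ (d (τ⁻¹ * s * τ)) else ac W τ (d (τ⁻¹ * s)) + d (s * τ) := ⟨_, fun _ => rfl⟩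
  have hCy : ∀ s ∈ K₁.fixingSubgroup, C s = d s + ac W τ (d (τ⁻¹ * s * τ)) := by
    intro s hs
    rw [hC, if_pos hs]
  have hCn : ∀ s, s ∉ K₁.fixingSubgroup → C s = ac W τ (d (τ⁻¹ * s)) + d (s * τ) := by
    intro s hs
    rw [hC, if_neg hs]
  have hmul : ∀ s ∈ K.fixingSubgroup, ∀ t ∈ K.fixingSubgroup, C (s * t) = C s + ac W s (C t) := by
    intro s hs t ht
    by_cases hs1 : s ∈ K₁.fixingSubgroup
    · by_cases ht1 : t ∈ K₁.fixingSubgroup
      · rw [hCy _ (mul_mem hs1 ht1), hCy _ hs1, hCy _ ht1, hd.mul s hs1 t ht1]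
        have e : τ⁻¹ * (s * t) * τ = (τ⁻¹ * s * τ) * (τ⁻¹ * t * τ) := by group
        rw [e, hd.mul _ (hτi s hs1) _ (hτi t ht1), map_add, map_add, ← YD2_mul, ← YD2_mul]
        have e2 : τ * (τ⁻¹ * s * τ) = s * τ := by group
        rw [e2]
        abel
      · obtain ⟨h3, h4⟩ := h2 t ht ht1
        have hst : s * t ∉ K₁.fixingSubgroup := fun h => ht1 ((Subgroup.mul_mem_cancel_left _ hs1).1 h)
        rw [hCn _ hst, hCy _ hs1, hCn _ ht1]
        have e1 : τ⁻¹ * (s * t) = (τ⁻¹ * s * τ) * (τ⁻¹ * t) := by group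
        have e2 : s * t * τ = s * (t * τ) := by group
        rw [e1, e2, hd.mul _ (hτi s hs1) _ h4, hd.mul _ hs1 _ h3, map_add, map_add, ← YD2_mul, ← YD2_mul]
        have e3 : τ * (τ⁻¹ * s * τ) = s * τ := by group
        rw [e3]
        abel
    · obtain ⟨h3, h4⟩ := h2 s hs hs1
      by_cases ht1 : t ∈ K₁.fixingSubgroup
      · have hst : s * t ∉ K₁.fixingSubgroup := fun h => hs1 ((Subgroup.mul_mem_cancel_right _ ht1).1 h)
        rw [hCn _ hst, hCn _ hs1, hCy _ ht1]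
        have e1 : τ⁻¹ * (s * t) = (τ⁻¹ * s) * t := by group
        have e2 : s * t * τ = (s * τ) * (τ⁻¹ * t * τ) := by group
        rw [e1, e2, hd.mul _ h4 _ ht1, hd.mul _ h3 _ (hτi t ht1), map_add, map_add, ← YD2_mul, ← YD2_mul]
        have e3 : τ * (τ⁻¹ * s) = s := by group
        rw [e3]
        abel
      · obtain ⟨h5, h6⟩ := h2 t ht ht1
        have hst : s * t ∈ K₁.fixingSubgroup := by
          have e : s * t = (s * τ) * (τ⁻¹ * t) := by group
          rw [e]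
          exact mul_mem h3 h6
        rw [hCy _ hst, hCn _ hs1, hCn _ ht1]
        have e1 : s * t = (s * τ) * (τ⁻¹ * t) := by group
        have e2 : τ⁻¹ * (s * t) * τ = (τ⁻¹ * s) * (t * τ) := by group
        rw [e2, e1, hd.mul _ h3 _ h6, hd.mul _ h4 _ h5, map_add, map_add, ← YD2_mul, ← YD2_mul]
        have e3 : τ * (τ⁻¹ * s) = s := by group
        rw [e3]
        abel
  have hpC : ∀ s ∈ K.fixingSubgroup, p • C s = 0 := by
    intro s hs
    by_cases hs1 : s ∈ K₁.fixingSubgroup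
    · rw [hCy _ hs1, smul_add, ← map_nsmul, hpd s hs1, hpd _ (hτi s hs1), map_zero, add_zero]
    · obtain ⟨h3, h4⟩ := h2 s hs hs1
      rw [hCn _ hs1, smul_add, ← map_nsmul, hpd _ h3, hpd _ h4, map_zero, add_zero]
  refine ⟨C, ⟨hmul, ?_⟩, hpC, ?_, hCy⟩
  · obtain ⟨L, hL, hLd⟩ := hd.cont
    let em := IntermediateField.intermediateFieldMap τ L
    have hLm : FiniteDimensional k (L.map τ.toAlgHom) := Module.Finite.equiv em.toLinearEquiv
    refine ⟨(L ⊔ K₁) ⊔ L.map τ.toAlgHom, IntermediateField.finiteDimensional_sup _ _, fun s hs hsL => ?_⟩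
    rw [IntermediateField.fixingSubgroup_sup, IntermediateField.fixingSubgroup_sup] at hsL
    obtain ⟨⟨hs1, hs2⟩, hs3⟩ := hsL
    have h7 : τ⁻¹ * s * τ ∈ L.fixingSubgroup := by
      rw [IntermediateField.mem_fixingSubgroup_iff]
      intro x hx
      have e : (τ⁻¹ * s * τ) x = τ⁻¹ (s (τ x)) := rfl
      have h8 : s (τ x) = τ x := (IntermediateField.mem_fixingSubgroup_iff _ s).1 hs3 (τ x) ⟨x, hx, rfl⟩
      rw [e, h8]
      exact τ.symm_apply_apply x
    rw [hCy s hs2, hLd s hs2 hs1, hLd _ (hτi s hs2) h7, map_zero, add_zero]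
  · intro V
    obtain ⟨P, hP⟩ := hV V
    have hm : ∀ x, x ∈ V.comap (τ : Ω →+* Ω) ↔ τ x ∈ V := fun x => ValuationSubring.mem_comap
    have hlt : ∀ x, (V.comap (τ : Ω →+* Ω)).valuation x < 1 ↔ V.valuation (τ x) < 1 := by
      intro x
      rw [H55P.lt1_iff, H55P.lt1_iff, hm, map_inv₀]
      simp
    obtain ⟨P', hP'⟩ := hV (V.comap (τ : Ω →+* Ω))
    let DD : Subgroup (Ω ≃ₐ[k] Ω) := K.fixingSubgroup ⊓ H55P.inS k V
    have hDD : ∀ s, s ∈ DD ↔ s ∈ K.fixingSubgroup ∧ Inert V s := fun _ => Iff.rfl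
    have hnD : ∀ s ∈ DD, s ∉ DD ⊓ K₁.fixingSubgroup → s ∉ K₁.fixingSubgroup :=
      fun s hs h h' => h (Subgroup.mem_inf.2 ⟨hs, h'⟩)
    have hcob := cob_two (fun s : Ω ≃ₐ[k] Ω => ac W s) (YD2_one W) (fun s t m => YD2_mul W s t m) DD
      (DD ⊓ K₁.fixingSubgroup) inf_le_left
      (fun s hs t ht => Subgroup.mem_inf.2 ⟨mul_mem (mul_mem (inv_mem hs) ht.1) hs,
        hnor s hs.1 t ht.2⟩)
      (fun s hs hs' t ht ht' => Subgroup.mem_inf.2 ⟨mul_mem hs (inv_mem ht), by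
        have e : s * t⁻¹ = (s * τ) * (t * τ)⁻¹ := by group
        rw [e]
        exact mul_mem (h2 s hs.1 (hnD s hs hs')).1 (inv_mem (h2 t ht.1 (hnD t ht ht')).1)⟩)
      (fun s hs hs' => Subgroup.mem_inf.2 ⟨mul_mem hs hs, by
        have e : s * s = (s * τ) * (τ⁻¹ * s) := by group
        rw [e]
        exact mul_mem (h2 s hs.1 (hnD s hs hs')).1 (h2 s hs.1 (hnD s hs hs')).2⟩)
      C (fun s hs t ht => hmul s hs.1 t ht.1) hp (fun s hs => hpC s hs.1)
      ⟨P + ac W τ P', fun s hs => by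
        have hs1 : s ∈ K₁.fixingSubgroup := hs.2
        have hdec : Inert V s := hs.1.2
        have h8 : Inert (V.comap (τ : Ω →+* Ω)) (τ⁻¹ * s * τ) := by
          intro x hx
          rw [hlt, map_sub]
          have e : τ ((τ⁻¹ * s * τ) x) = s (τ x) := τ.apply_symm_apply _
          rw [e]
          exact hdec (τ x) ((hm x).1 hx)
        rw [hCy s hs1, hP s hs1 hdec, hP' _ (hτi s hs1) h8, map_sub, map_add, ← YD2_mul, ← YD2_mul]
        have e3 : τ * (τ⁻¹ * s * τ) = s * τ := by group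
        rw [e3]
        abel⟩
    obtain ⟨R, hR⟩ := hcob
    exact ⟨R, fun s hs hs' => hR s ⟨hs, hs'⟩⟩

end H13R
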