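import Mathlib
import Pool.Agent.Lib.H13Z.TR

/-! # H13R: transport of the vanishing of the Selmer group -/

open NumberField IsDedekindDomain WeierstrassCurve

namespace H13R

open H55P
open H13Z (SelNon SelNonT)

/-- Chunk N3 (S/M). The positive version of H13Y.non_base (D1.lean) for the inertia conditions: given a class c for W⁄F over K (as in SelZero) the function c' of the proof of non_base is a class for W over K.restrictScalars k; Inert V (t.restrictScalars k) iff Inert V t (same function; V = ⊤ allowed). hS gives T', and φ T' works for c (end of that proof). -/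
theorem zero_base {k F Ω : Type} [Field k] [Field F] [Field Ω] [DecidableEq Ω] [Algebra k F] [Algebra k Ω]
    [Algebra F Ω] [IsScalarTower k F Ω] [FiniteDimensional k F] (W : WeierstrassCurve k) (p : ℕ)
    (K : IntermediateField F Ω) [FiniteDimensional F K] (hS : SelZero W p (K.restrictScalars k)) :
    SelZero (W⁄F) p K := by
  classical
  intro c hc hp hV
  obtain ⟨φ, hφ⟩ := base_iso (F := F) (Ω := Ω) W
  obtain ⟨c', hc'⟩ : ∃ c' : (Ω ≃ₐ[k] Ω) → Pt W Ω, ∀ t : Ω ≃ₐ[F] Ω, t ∈ K.fixingSubgroup →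
      c' (t.restrictScalars k) = φ.symm (c t) := by
    refine ⟨fun s => if h : ∃ t : Ω ≃ₐ[F] Ω, t.restrictScalars k = s ∧ t ∈ K.fixingSubgroup then
      φ.symm (c h.choose) else 0, fun t ht => ?_⟩
    have h : ∃ t' : Ω ≃ₐ[F] Ω, t'.restrictScalars k = t.restrictScalars k ∧ t' ∈ K.fixingSubgroup :=
      ⟨t, rfl, ht⟩
    have h2 : h.choose = t := AlgEquiv.restrictScalars_injective k h.choose_spec.1
    show (if h : ∃ t' : Ω ≃ₐ[F] Ω, t'.restrictScalars k = t.restrictScalars k ∧ t' ∈ K.fixingSubgroup then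
      φ.symm (c h.choose) else 0) = _
    rw [dif_pos h, h2]
  have hac : ∀ (t : Ω ≃ₐ[F] Ω) (Q : Pt (W⁄F) Ω), ac W (t.restrictScalars k) (φ.symm Q) =
      φ.symm (ac (W⁄F) t Q) := by
    intro t Q
    apply φ.injective
    rw [hφ, AddEquiv.apply_symm_apply, AddEquiv.apply_symm_apply]
  have g1 : Coc W (K.restrictScalars k) c' := by
    refine ⟨?_, ?_⟩
    · intro s hs s' hs'
      obtain ⟨t, rfl, ht⟩ := Z11_lift K s hs
      obtain ⟨t', rfl, ht'⟩ := Z11_lift K s' hs'
      have h2 : (t.restrictScalars k) * (t'.restrictScalars k) = (t * t').restrictScalars k := rfl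
      rw [h2, hc' _ (mul_mem ht ht'), hc' _ ht, hc' _ ht', hc.mul t ht t' ht', map_add, hac]
    · obtain ⟨L, hL, hLc⟩ := hc.cont
      refine ⟨L.restrictScalars k, ?_, ?_⟩
      · have : FiniteDimensional k L := FiniteDimensional.trans k F L
        exact this
      · intro s hs hsL
        obtain ⟨t, rfl, ht⟩ := Z11_lift K s hs
        have htL : t ∈ L.fixingSubgroup := by
          rw [IntermediateField.mem_fixingSubgroup_iff] at hsL ⊢
          exact hsL
        rw [hc' _ ht, hLc _ ht htL, map_zero]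
  have g2 : ∀ s ∈ (K.restrictScalars k).fixingSubgroup, p • c' s = 0 := by
    intro s hs
    obtain ⟨t, rfl, ht⟩ := Z11_lift K s hs
    rw [hc' _ ht, ← map_nsmul, hp _ ht, map_zero]
  have g3 : ∀ V : ValuationSubring Ω, ∃ P : Pt W Ω, ∀ s ∈ (K.restrictScalars k).fixingSubgroup,
      Inert V s → c' s = ac W s P - P := by
    intro V
    obtain ⟨P, hP⟩ := hV V
    refine ⟨φ.symm P, fun s hs hD => ?_⟩
    obtain ⟨t, rfl, ht⟩ := Z11_lift K s hs
    have hDt : Inert V t := fun x hx => hD x hx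
    rw [hc' _ ht, hP t ht hDt, map_sub, hac]
  obtain ⟨T, hpT, hcT⟩ := hS c' g1 g2 g3
  refine ⟨φ T, ?_, fun t ht => ?_⟩
  · rw [← map_nsmul, hpT, map_zero]
  · have h1 := hcT _ (Z11_mem (k := k) K t ht)
    rw [hc' _ ht] at h1
    have h2 := congrArg φ h1
    rw [AddEquiv.apply_symm_apply, map_sub, hφ] at h2
    exact h2

theorem n3_core {k : Type} [Field k] (W : WeierstrassCurve k) (K : Type) [Field K]
    [Algebra k K] [FiniteDimensional k K] {Ω : Type} [Field Ω] [DecidableEq Ω] [Algebra k Ω]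
    [IsAlgClosed Ω] [Algebra.IsAlgebraic k Ω] (ι : K →ₐ[k] Ω) [DecidableEq (AlgebraicClosure K)] :
    ∃ (Φ : Pt (W⁄K) (AlgebraicClosure K) ≃+ Pt W Ω)
      (hat : (AlgebraicClosure K ≃ₐ[K] AlgebraicClosure K) → (Ω ≃ₐ[k] Ω)),
      (∀ s t, hat (s * t) = hat s * hat t) ∧
      (∀ t, t ∈ ι.fieldRange.fixingSubgroup ↔ ∃ s, hat s = t) ∧
      (∀ s P, Φ (ac (W⁄K) s P) = ac W (hat s) (Φ P)) ∧
      (∀ L' : IntermediateField k Ω, FiniteDimensional k L' →
        ∃ L : IntermediateField K (AlgebraicClosure K), FiniteDimensional K L ∧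
          ∀ s ∈ L.fixingSubgroup, hat s ∈ L'.fixingSubgroup) ∧
      (∀ V' : ValuationSubring (AlgebraicClosure K), ∃ V : ValuationSubring Ω, ∀ s,
        Inert V' s → Inert V (hat s)) := by
  let algKΩ : Algebra K Ω := ι.toRingHom.toAlgebra
  have htow : IsScalarTower k K Ω := IsScalarTower.of_algebraMap_eq fun x => (ι.commutes x).symm
  have halg : Algebra.IsAlgebraic K Ω := Algebra.IsAlgebraic.tower_top (K := k) K
  have hcl : IsAlgClosure K Ω := ⟨inferInstance, halg⟩
  let θ : AlgebraicClosure K ≃ₐ[K] Ω := IsAlgClosure.equiv K (AlgebraicClosure K) Ω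
  let θk : AlgebraicClosure K ≃ₐ[k] Ω := θ.restrictScalars k
  obtain ⟨φ, hφ⟩ := base_iso (k := k) (F := K) (Ω := AlgebraicClosure K) W
  refine ⟨φ.symm.trans (z12_pt W θk), z12_hat θk, ?_, ?_, ?_, ?_, ?_⟩
  · intro s t
    apply AlgEquiv.ext
    intro x
    rw [AlgEquiv.mul_apply, z12_hat_apply, z12_hat_apply, z12_hat_apply, θk.symm_apply_apply,
      AlgEquiv.mul_apply]
  · intro t
    rw [IntermediateField.mem_fixingSubgroup_iff]
    constructor
    · intro ht
      have h1 : ∀ x : K, t (algebraMap K Ω x) = algebraMap K Ω x := fun x => ht _ ⟨x, rfl⟩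
      let tK : Ω ≃ₐ[K] Ω := AlgEquiv.ofRingEquiv (f := (t : Ω ≃+* Ω)) h1
      refine ⟨(θ.trans tK).trans θ.symm, AlgEquiv.ext fun x => ?_⟩
      rw [z12_hat_apply]
      show θ (θ.symm (t (θ (θ.symm x)))) = t x
      rw [θ.apply_symm_apply, θ.apply_symm_apply]
    · rintro ⟨s, rfl⟩ x ⟨y, rfl⟩
      rw [z12_hat_apply]
      show θ (s (θ.symm (algebraMap K Ω y))) = algebraMap K Ω y
      rw [θ.symm.commutes, s.commutes, θ.commutes]
  · intro s P
    have h1 : φ.symm (ac (W⁄K) s P) = ac W (s.restrictScalars k) (φ.symm P) := by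
      apply φ.injective
      rw [hφ, φ.apply_symm_apply, φ.apply_symm_apply]
    show z12_pt W θk (φ.symm (ac (W⁄K) s P)) = ac W (z12_hat θk s) (z12_pt W θk (φ.symm P))
    rw [h1]
    generalize φ.symm P = Q
    show Affine.Point.map (W' := W.toAffine) θk.toAlgHom
      (Affine.Point.map (W' := W.toAffine) (s.restrictScalars k).toAlgHom Q) =
      Affine.Point.map (W' := W.toAffine) (z12_hat θk s).toAlgHom
        (Affine.Point.map (W' := W.toAffine) θk.toAlgHom Q)
    rw [Affine.Point.map_map, Affine.Point.map_map]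
    congr 1
    congr 1
    ext x
    show θk (s x) = z12_hat θk s (θk x)
    rw [z12_hat_apply, θk.symm_apply_apply]
  · intro L' hL'
    obtain ⟨L'', hL'', h1⟩ := Z11_field (F := K) L'
    let e := IntermediateField.intermediateFieldMap θ.symm L''
    refine ⟨L''.map θ.symm.toAlgHom, Module.Finite.equiv e.toLinearEquiv, ?_⟩
    intro s hs
    rw [IntermediateField.mem_fixingSubgroup_iff] at hs
    have h2 := h1 ((θ.symm.trans s).trans θ) (by
      rw [IntermediateField.mem_fixingSubgroup_iff]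
      intro x hx
      show θ (s (θ.symm x)) = x
      rw [hs (θ.symm x) ⟨x, hx, rfl⟩, θ.apply_symm_apply])
    exact h2
  · intro V'
    have hm : ∀ x, x ∈ V'.comap (θk.symm : Ω →+* AlgebraicClosure K) ↔ θk.symm x ∈ V' := fun x =>
      ValuationSubring.mem_comap
    have hlt : ∀ x, (V'.comap (θk.symm : Ω →+* AlgebraicClosure K)).valuation x < 1 ↔
        V'.valuation (θk.symm x) < 1 := by
      intro x
      rw [lt1_iff, lt1_iff, hm, map_inv₀]
      simp
    refine ⟨V'.comap (θk.symm : Ω →+* AlgebraicClosure K), fun s h x hx => ?_⟩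
    have h1 := h (θk.symm x) ((hm x).1 hx)
    rw [hlt, map_sub, z12_hat_apply, θk.symm_apply_apply]
    exact h1

/-- Chunk N3 (M). The converse of H55P.sel_transport (Z12.lean). Port of H13Z.tr_core and non_transport (TR.lean) with Inert in place of Dec: the last item of tr_core becomes: for all V' there is V (= V'.comap θk.symm) with Inert V' s → Inert V (hat s) for all s (as in z12_core: hlt, lt1_iff). Then: given a class c for W over ι.fieldRange, s ↦ Φ.symm (c (hat s)) is a class for W⁄K as in non_transport;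
SelTriv gives T, and Φ T works for c. unfold SelTriv; open Classical instances as in non_transport (classical at the beginning). -/
theorem zero_transport {k : Type} [Field k] (W : WeierstrassCurve k) (p : ℕ) (K : Type) [Field K]
    [Algebra k K] [FiniteDimensional k K] {Ω : Type} [Field Ω] [DecidableEq Ω] [Algebra k Ω]
    [IsAlgClosed Ω] [Algebra.IsAlgebraic k Ω] (ι : K →ₐ[k] Ω) (hS : SelTriv (W⁄K) p) :
    SelZero W p ι.fieldRange := by
  classical
  intro c hc hp hV
  unfold SelTriv at hS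
  obtain ⟨Φ, hat, hmul, hfix, hact, hfield, hval⟩ := n3_core W K ι
  have hmem : ∀ s, hat s ∈ ι.fieldRange.fixingSubgroup := fun s => (hfix _).2 ⟨s, rfl⟩
  have hact' : ∀ s P, Φ.symm (ac W (hat s) P) = ac (W⁄K) s (Φ.symm P) := by
    intro s P
    apply Φ.injective
    rw [hact, Φ.apply_symm_apply, Φ.apply_symm_apply]
  obtain ⟨T, hpT, hcT⟩ := hS (fun s => Φ.symm (c (hat s))) ⟨by
    intro s t
    show Φ.symm (c (hat (s * t))) = Φ.symm (c (hat s)) + ac (W⁄K) s (Φ.symm (c (hat t)))
    rw [hmul, hc.mul _ (hmem s) _ (hmem t), map_add, hact'], by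
    obtain ⟨L', hL', hLc⟩ := hc.cont
    obtain ⟨L, hL, h1⟩ := hfield L' hL'
    refine ⟨L, hL, ?_⟩
    intro s hs
    show Φ.symm (c (hat s)) = 0
    rw [hLc _ (hmem s) (h1 s hs), map_zero]⟩ (by
    intro s
    show p • Φ.symm (c (hat s)) = 0
    rw [← map_nsmul, hp _ (hmem s), map_zero]) (by
    intro V'
    obtain ⟨V, h1⟩ := hval V'
    obtain ⟨P, hP⟩ := hV V
    refine ⟨Φ.symm P, ?_⟩
    intro s hs
    show Φ.symm (c (hat s)) = _
    rw [hP _ (hmem s) (h1 s hs), map_sub, hact'])
  refine ⟨Φ T, ?_, ?_⟩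
  · rw [← map_nsmul, hpT, map_zero]
  · intro t ht
    obtain ⟨s, rfl⟩ := (hfix _).1 ht
    have h1 : Φ.symm (c (hat s)) = ac (W⁄K) s T - T := hcT s
    have h2 := congrArg Φ h1
    rwa [Φ.apply_symm_apply, map_sub, hact] at h2

end H13R
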