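import Mathlib
import Pool.Agent.Lib.H13R.N2
import Pool.Agent.Lib.H13R.N3
import Pool.Agent.Lib.H55K.FB9B
import Pool.Agent.Lib.H55K.NK3

/-! # H13R: Selmer groups over K and over the field generated by F over K -/

open NumberField IsDedekindDomain WeierstrassCurve

namespace H13R

open H55P (IQ embF eF LF Per IsHecke Pt ac Inert Dec Nm UnitP UnrP)
open H35P (WAB Ker tt GoodW IntW)
open H55K.MG (VC Crd)
open H55K H55K.TQ

variable {F : Type} [Field F] [NumberField F] [IQ F] {W : WeierstrassCurve ℤ} {Om : ℂ}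
    {m : Ideal (𝓞 F)} {ψ : Ideal (𝓞 F) →*₀ 𝓞 F} {p : ℕ}

open Classical in
/-- Descent from KG to K. -/
theorem sel_absR (hH : BaseH F (W⁄(𝓞 F)) Om m ψ) (hp : PrimeH F (W⁄(𝓞 F)) p)
    (K : Type) [Field K] [NumberField K] (ι : K →ₐ[ℚ] AlgebraicClosure F) [FiniteDimensional F (KG F K ι)]
    (hT : ∀ T : Pt ((W⁄(𝓞 F))⁄F) (AlgebraicClosure F), p • T = 0 →
      (∀ s ∈ (KG F K ι).fixingSubgroup, ac ((W⁄(𝓞 F))⁄F) s T = T) → T = 0)
    (hS : H55P.SelG p (W⁄(𝓞 F)) (KG F K ι)) :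
    H55P.SelTriv (W⁄K) p ∧ H55P.ShaTriv (W⁄K) p ∧
      Finite (W⁄K).toAffine.Point ∧ ¬ p ∣ Nat.card (W⁄K).toAffine.Point := by
  classical
  have hQF := tower_QFF F
  have hQA := alg_QFF F
  have hd : W.Δ ≠ 0 := by
    intro h
    apply hH.data.ell
    have e := WeierstrassCurve.map_Δ W (algebraMap ℤ (𝓞 F))
    rw [h, map_zero] at e
    exact e
  have hell : (W⁄ℚ).IsElliptic := by
    rw [WeierstrassCurve.isElliptic_iff]
    have e := WeierstrassCurve.map_Δ W (algebraMap ℤ ℚ)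
    refine IsUnit.mk0 _ ?_
    intro h
    apply hd
    have h1 : (algebraMap ℤ ℚ) W.Δ = 0 := e.symm.trans h
    rw [eq_intCast] at h1
    exact_mod_cast h1
  have e1 : ((W⁄ℚ)⁄F) = ((W⁄(𝓞 F))⁄F) := by
    rw [fb9b_map, fb9b_map]
  have hS0 : H55P.SelZero ((W⁄ℚ)⁄F) p (KG F K ι) := by
    rw [e1]
    exact hS
  have hS1 : H55P.SelZero (W⁄ℚ) p ((KG F K ι).restrictScalars ℚ) :=
    H55P.sel_base (F := F) (W⁄ℚ) p (KG F K ι) hS0
  have hT0 : ∀ T : Pt ((W⁄ℚ)⁄F) (AlgebraicClosure F), p • T = 0 →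
      (∀ s ∈ (KG F K ι).fixingSubgroup, ac ((W⁄ℚ)⁄F) s T = T) → T = 0 := by
    rw [e1]
    exact hT
  have hT1 : ∀ T : Pt (W⁄ℚ) (AlgebraicClosure F), p • T = 0 →
      (∀ s ∈ ((KG F K ι).restrictScalars ℚ).fixingSubgroup, ac (W⁄ℚ) s T = T) → T = 0 :=
    H55P.tors_base (F := F) (W⁄ℚ) p (KG F K ι) hT0
  have hKQ : FiniteDimensional ℚ ((KG F K ι).restrictScalars ℚ) := by
    have : FiniteDimensional ℚ (KG F K ι) := Module.Finite.trans F (KG F K ι)
    exact this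
  have hS2 : H55P.SelZero (W⁄ℚ) p ι.fieldRange :=
    H55P.sel_down (W⁄ℚ) p ι.fieldRange ((KG F K ι).restrictScalars ℚ) (kg_le F K ι) (kg_norm F K ι) hT1 hS1
  have hfr : FiniteDimensional ℚ ι.fieldRange :=
    Module.Finite.equiv (AlgEquiv.ofInjectiveField ι).toLinearEquiv
  have hpt := fb9b_pts (W⁄ℚ) K ι p (H55P.pts_fin (W⁄ℚ) p hp.prime ι.fieldRange hS2)
  have hsel := H55P.sel_transport (W⁄ℚ) p K ι hS2
  have hsha := H55P.sha_transport (W⁄ℚ) p K ι (H55P.sha_zero (W⁄ℚ) p hp.prime _ hS2)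
  have e2 : ((W⁄ℚ)⁄K) = (W⁄K) := fb9b_map W
  change Finite ((W⁄ℚ)⁄K).toAffine.Point ∧ ¬ p ∣ Nat.card ((W⁄ℚ)⁄K).toAffine.Point at hpt
  rw [e2] at hpt hsel hsha
  exact ⟨hsel, hsha, hpt.1, hpt.2⟩

open Classical in
/-- Ascent from K to KG. -/
theorem selG_of_triv (hH : BaseH F (W⁄(𝓞 F)) Om m ψ) {p : ℕ} (hp : p.Prime) (hp2 : p ≠ 2) (hU : UnrP p F)
    (K : Type) [Field K] [NumberField K] (ι : K →ₐ[ℚ] AlgebraicClosure F) [NumberField (KG F K ι)]
    (h : H55P.SelTriv (W⁄K) p) : H55P.SelG p (W⁄(𝓞 F)) (KG F K ι) := by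
  set Ω := AlgebraicClosure F with hΩ
  have hcl : IsAlgClosure ℚ Ω := ⟨inferInstance, Algebra.IsAlgebraic.trans ℚ F Ω⟩
  have hal : Algebra.IsAlgebraic ℚ Ω := IsAlgClosure.isAlgebraic
  have hfd : FiniteDimensional F (KG F K ι) := FiniteDimensional.right ℚ F (KG F K ι)
  have hfq : FiniteDimensional ℚ ((KG F K ι).restrictScalars ℚ) := by
    have : FiniteDimensional ℚ (KG F K ι) := inferInstance
    exact this
  have hWF : (W⁄ℚ)⁄F = (W⁄(𝓞 F))⁄F := by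
    ext <;> simp [WeierstrassCurve.map, WeierstrassCurve.baseChange]
  have hWK : (W⁄ℚ)⁄K = W⁄K := by
    ext <;> simp [WeierstrassCurve.map, WeierstrassCurve.baseChange]
  obtain ⟨δ, hδ, hNδ⟩ := nk2_delta hp hp2 hU
  obtain ⟨S, hS, hS1, hS2⟩ := exists_sd hH δ hδ
  have hδ0 : δ ≠ 0 := by
    rintro rfl
    apply hNδ
    have e : Nm (0 : 𝓞 F) = 0 := H55P.Nm_eq_zero.2 rfl
    rw [e]
    exact dvd_zero p
  have hak : ak Ω δ ≠ 0 := by
    intro h0
    apply hδ0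
    have e1 : algebraMap F Ω (δ : F) = algebraMap F Ω 0 := by rw [map_zero]; exact h0
    have e2 := (algebraMap F Ω).injective e1
    exact_mod_cast e2
  have hneg : ak Ω (cj δ) = -ak Ω δ := by
    rw [hδ]
    show algebraMap F Ω (algebraMap (𝓞 F) F (-δ)) = _
    rw [map_neg, map_neg]
  have hne : -ak Ω δ ≠ ak Ω δ := by
    intro h0
    have h2 : (2 : Ω) * ak Ω δ = 0 := by linear_combination -h0
    rcases mul_eq_zero.1 h2 with h3 | h3
    · exact two_ne_zero h3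
    · exact hak h3
  have hd1 : ∀ s : Ω ≃ₐ[ℚ] Ω, s (ak Ω δ) = ak Ω δ → ∀ x : F, s (algebraMap F Ω x) = algebraMap F Ω x := by
    intro s hs
    rcases nk2_dich (F := F) s with h2 | h2
    · exact h2
    · exfalso
      rw [h2, hneg] at hs
      exact hne hs
  have hd2 : ∀ s : Ω ≃ₐ[ℚ] Ω, s (ak Ω δ) ≠ ak Ω δ → ∀ a : 𝓞 F, s (ak Ω a) = ak Ω (cj a) := by
    intro s hs
    rcases nk2_dich (F := F) s with h2 | h2
    · exact absurd (h2 _) hs
    · exact h2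
  have hfixK : ∀ s : Ω ≃ₐ[ℚ] Ω, s ∈ ι.fieldRange.fixingSubgroup → ∀ x : K, s (ι x) = ι x := fun s hs x =>
    (IntermediateField.mem_fixingSubgroup_iff _ s).1 hs (ι x) ⟨x, rfl⟩
  have h' : H55P.SelTriv ((W⁄ℚ)⁄K) p := by
    rw [hWK]
    exact h
  have hz : H55P.SelZero (W⁄ℚ) p ι.fieldRange := zero_transport (W⁄ℚ) p K ι h'
  have hz1 : H55P.SelZero (W⁄ℚ) p ((KG F K ι).restrictScalars ℚ) := by
    refine nk_descI (W⁄ℚ) hp hp2 (kg_le F K ι) ?_ S (Nm δ) hNδ hS (ak Ω δ) (-ak Ω δ) ?_ ?_ ?_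
      (fun s hs => hS1 s (hd1 s hs)) (fun s hs => hS2 s (hd2 s hs)) hz
    · intro s hs x hx
      exact kg_stable F K ι s (hfixK s hs) x hx
    · intro s hs
      constructor
      · intro hs'
        exact (IntermediateField.mem_fixingSubgroup_iff _ s).1 hs' _ ((KG F K ι).algebraMap_mem (δ : F))
      · intro hs'
        rw [IntermediateField.mem_fixingSubgroup_iff]
        intro y hy
        have hF := hd1 s hs'
        refine IntermediateField.adjoin_induction F (p := fun x _ => s x = x) ?_ ?_ ?_ ?_ ?_ hy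
        · rintro _ ⟨x, rfl⟩
          exact hfixK s hs x
        · exact hF
        · intro x y _ _ h1 h2
          rw [map_add, h1, h2]
        · intro x _ h1
          rw [map_inv₀, h1]
        · intro x y _ _ h1 h2
          rw [map_mul, h1, h2]
    · intro s
      by_cases hs : s (ak Ω δ) = ak Ω δ
      · exact Or.inl hs
      · right
        rw [hd2 s hs, hneg]
    · intro s hs
      rw [map_neg, hs, neg_neg]
  have hz2 : H55P.SelZero ((W⁄ℚ)⁄F) p (KG F K ι) := zero_base (F := F) (W⁄ℚ) p (KG F K ι) hz1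
  rw [hWF] at hz2
  exact hz2

end H13R
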