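import Mathlib
import Pool.Agent.Lib.H55K.FB4

/-! # H13R: the L-function over K in terms of the Hecke L-series, under the hypothesis of bad reduction over K -/

open NumberField IsDedekindDomain WeierstrassCurve

namespace H13R

open H55P (IQ embF eF LF Per IsHecke Pt ac Inert Dec Nm UnitP)
open H35P (WAB Ker tt GoodW IntW)
open H55K.MG (VC Crd)
open H55K H55K.TQ

variable {F : Type} [Field F] [NumberField F] [IQ F] {W : WeierstrassCurve ℤ} {Om : ℂ}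
    {m : Ideal (𝓞 F)} {ψ : Ideal (𝓞 F) →*₀ 𝓞 F} {p : ℕ}

/-- Bad reduction over K. -/
theorem fb3b_badR
    (K : Type) [Field K] [NumberField K] [Algebra F K] (K' : IntermediateField F (AlgebraicClosure F)) [NumberField K']
    (hbad : ∀ w : HeightOneSpectrum (𝓞 K'), H55P.mK K' m ≤ w.asIdeal → ¬ GoodAt (((W⁄(𝓞 F))⁄F)⁄K') w) (θ : K ≃ₐ[F] K') (w : HeightOneSpectrum (𝓞 K)) (hw : H55P.mK K m ≤ w.asIdeal) :
    ¬ GoodAt (((W⁄(𝓞 F))⁄F)⁄K) w := by
  intro hgood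
  let _ : Algebra K K' := (θ : K →+* K').toAlgebra
  have hst : IsScalarTower F K K' := IsScalarTower.of_algebraMap_eq fun x => (θ.commutes x).symm
  have hwm := w.isMaximal
  obtain ⟨Q, hQ1, hQ2⟩ := Ideal.exists_maximal_ideal_liesOver_of_isIntegral (S := 𝓞 K') w.asIdeal
  have hQ0 : Q ≠ ⊥ := Ideal.ne_bot_of_liesOver_of_ne_bot w.ne_bot Q
  have hover : w.asIdeal = Q.under (𝓞 K) := hQ2.over
  have hmQ : H55P.mK K' m ≤ Q := by
    have h1 : H55P.mK K' m = (H55P.mK K m).map (algebraMap (𝓞 K) (𝓞 K')) := by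
      unfold H55P.mK
      rw [Ideal.map_map, ← IsScalarTower.algebraMap_eq]
    rw [h1, Ideal.map_le_iff_le_comap]
    exact hw.trans (le_of_eq hover)
  have hg : GoodAt ((((W⁄(𝓞 F))⁄F)⁄K)⁄K') ⟨Q, hQ1.isPrime, hQ0⟩ := good_up hover hgood
  refine hbad ⟨Q, hQ1.isPrime, hQ0⟩ hmQ ?_
  have he : (((W⁄(𝓞 F))⁄F)⁄K)⁄K' = ((W⁄(𝓞 F))⁄F)⁄K' := by
    rw [WeierstrassCurve.baseChange, WeierstrassCurve.baseChange, WeierstrassCurve.baseChange, WeierstrassCurve.map_map]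
    congr 1
    exact (IsScalarTower.algebraMap_eq F K K').symm
  rw [← he]
  exact hg

/-- Chunk FB3B (M). The L-series over K contains F. K' = KG F K ι, θ : K ≃ₐ[F] K' (kg_iso). lfun_K (DM.lean) for K: the condition hbad for W⁄K at w with mK K m ≤ w: a prime w' of K' above w (algebra K → K' by θ), mK K' m ≤ w', bad_K (T10.lean) for K' ≤ L, good_up (RG.lean). Then as in gen_lval (H55P/Gen.lean) or i5_lfun (I5.lean), with tm_congr. -/
theorem lser_FR (hH : BaseH F (W⁄(𝓞 F)) Om m ψ)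
    (K : Type) [Field K] [NumberField K] [Algebra F K] (K' : IntermediateField F (AlgebraicClosure F)) [NumberField K']
    (hbad : ∀ w : HeightOneSpectrum (𝓞 K'), H55P.mK K' m ≤ w.asIdeal → ¬ GoodAt (((W⁄(𝓞 F))⁄F)⁄K') w) (θ : K ≃ₐ[F] K') (Φ : ℂ → ℂ) (hΦ : ∀ s : ℂ, 3 / 2 < s.re → HasSum (H55N.tm (H55P.PsiP K' ψ) s) (Φ s)) (s : ℂ)
    (hs : 3 / 2 < s.re) :
    LSeriesHasSum (fun n => (((W⁄K).LFunction n : ℤ) : ℂ)) s (Φ s * (starRingEnd ℂ) (Φ ((starRingEnd ℂ) s))) := by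
  classical
  have hLs : ∀ s : ℂ, 3 / 2 < s.re → HasSum (H55N.tm (H55P.PsiP K ψ) s) (Φ s) := fun s hs => tm_congr K K' θ s _ (hΦ s hs)
  have hs' : 3 / 2 < ((starRingEnd ℂ) s).re := by simpa using hs
  have h := hH.data.hecke
  have h0 : H55P.PsiP K ψ ⊥ = 0 := (H55P.PsiP K ψ).map_zero
  have h1 := H55N.AI_LSeries (fun a => H55P.PsiP K ψ a) h0 s (H55N.tm_summable _ (H55P.PsiP_norm_le h) s hs)
  have h2 := H55N.AI_LSeries (fun a => (starRingEnd ℂ) (H55P.PsiP K ψ a)) (by rw [h0, map_zero]) s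
    (H55N.tm_summable _ (fun a => by rw [RCLike.norm_conj]; exact H55P.PsiP_norm_le h a) s hs)
  have e1 : ∑' a, H55N.tm (fun a => H55P.PsiP K ψ a) s a = Φ s := (hLs s hs).tsum_eq
  have e2 : ∑' a, H55N.tm (fun a => (starRingEnd ℂ) (H55P.PsiP K ψ a)) s a =
      (starRingEnd ℂ) (Φ ((starRingEnd ℂ) s)) := by
    have h3 := (Complex.hasSum_conj').2 (hLs _ hs')
    have h4 := h3.tsum_eq
    rw [← h4]
    exact tsum_congr fun a => H55N.H8_tm _ s a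
  rw [e1] at h1
  rw [e2] at h2
  have h3 := ArithmeticFunction.LSeriesHasSum_mul h1 h2
  have e3 : (fun n => (((W⁄K).LFunction n : ℤ) : ℂ)) = fun n =>
      (H55N.AI (H55P.PsiP K ψ) * H55N.AI (fun a => (starRingEnd ℂ) (H55P.PsiP K ψ a))) n := by
    funext n
    rw [← cur_eq (F := F) (W := W) K]
    exact lfun_K h (fun v hv _ => hH.deu v hv) (fun v hv => (hH.supp v).1 hv) (jint_of hH.data.per hH.data.ell)
      (fun w hw => fb3b_badR K K' hbad θ w hw) n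
  rw [e3]
  exact h3

theorem lser_QR (hH : BaseH F (W⁄(𝓞 F)) Om m ψ)
    (K₀ : Type) [Field K₀] [NumberField K₀] (K' : IntermediateField F (AlgebraicClosure F)) [NumberField K']
    [Algebra K₀ K'] (hbad : ∀ w : HeightOneSpectrum (𝓞 K'), H55P.mK K' m ≤ w.asIdeal → ¬ GoodAt (((W⁄(𝓞 F))⁄F)⁄K') w) (hQ : QuadG F K₀ K') (Φ : ℂ → ℂ)
    (hΦ : ∀ s : ℂ, 3 / 2 < s.re → HasSum (H55N.tm (H55P.PsiP K' ψ) s) (Φ s)) (s : ℂ) (hs : 3 / 2 < s.re) :
    LSeriesHasSum (fun n => (((W⁄K₀).LFunction n : ℤ) : ℂ)) s (Φ s) := by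
  obtain ⟨j₀, hj⟩ := jint_Z hH
  have hbad : ∀ w : HeightOneSpectrum (𝓞 K'), H55P.mK K' m ≤ w.asIdeal → ¬ GoodAt (W⁄K') w := by
    intro w hw
    have h1 := hbad w hw
    rw [cur_eq K'] at h1
    exact h1
  have hA : ∀ n : ℕ, (((W⁄K₀).LFunction n : ℤ) : ℂ) = H55N.AI (fun a => H55P.PsiP K' ψ a) n :=
    fun n => lfun_quad hQ hH.data.hecke (fun v hv _ => hH.deu v hv) hH.supp (hram_of hH) hj hbad n
  have h0 : H55P.PsiP K' ψ ⊥ = 0 := (H55P.PsiP K' ψ).map_zero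
  have h1 := H55N.AI_LSeries (fun a => H55P.PsiP K' ψ a) h0 s
    (H55N.tm_summable _ (H55P.PsiP_norm_le hH.data.hecke) s hs)
  have h2 : ∑' a : Ideal (𝓞 K'), H55N.tm (fun a => H55P.PsiP K' ψ a) s a = Φ s := (hΦ s hs).tsum_eq
  rw [h2] at h1
  have e1 : (fun n => (((W⁄K₀).LFunction n : ℤ) : ℂ)) = fun n => H55N.AI (fun a => H55P.PsiP K' ψ a) n :=
    funext hA
  rw [e1]
  exact h1

/-- Chunk FB4 (S/M). kg_dich (RP2.lean): first case kg_iso (RP3.lean), lser_FR, the degree: θ and [F : ℚ] = 2 (IQ.deg); second case lser_QR and quad_deg (RP3.lean). -/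
theorem lrelR (hH : BaseH F (W⁄(𝓞 F)) Om m ψ)
    (K : Type) [Field K] [NumberField K] (ι : K →ₐ[ℚ] AlgebraicClosure F) [NumberField (KG F K ι)]
    (hbad : ∀ w : HeightOneSpectrum (𝓞 (KG F K ι)), H55P.mK (KG F K ι) m ≤ w.asIdeal → ¬ GoodAt (((W⁄(𝓞 F))⁄F)⁄(KG F K ι)) w) : LRel W ψ K (KG F K ι) := by
  rcases kg_dich F K ι with ⟨f, hf⟩ | hQ
  · left
    letI : Algebra F K := f.toAlgebra
    obtain ⟨θ⟩ := kg_iso F K ι f hf
    refine ⟨?_, fun Φ hΦ s hs => lser_FR hH K (KG F K ι) hbad θ Φ hΦ s hs⟩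
    have h1 := Module.finrank_mul_finrank ℚ F K
    have h2 : Module.finrank F K = Module.finrank F (KG F K ι) := θ.toLinearEquiv.finrank_eq
    have h3 : Module.finrank ℚ F = 2 := IQ.deg
    rw [h3, h2] at h1
    exact h1.symm
  · right
    letI : Algebra K (KG F K ι) := (KGmap F K ι).toAlgebra
    exact ⟨quad_deg F hQ, fun Φ hΦ s hs => lser_QR hH K (KG F K ι) hbad hQ Φ hΦ s hs⟩

end H13R
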