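import Mathlib
import Pool.Agent.Lib.H13R.B3
import Pool.Agent.Lib.H13R.D
import Pool.Agent.Lib.H55K.FB8

/-! # H13R: the L-values over M and over K -/

open NumberField IsDedekindDomain WeierstrassCurve

namespace H13R

open H55P (IQ embF eF LF Per IsHecke Pt ac acR Inert Dec Nm UnitP Ram RamF PExt UnrP)
open H35P (WAB Ker tt GoodW IntW)
open H55K H55K.TQ

variable {F : Type} [Field F] [NumberField F] [IQ F] {W₀ : WeierstrassCurve (𝓞 F)} {Om : ℂ}
    {m : Ideal (𝓞 F)} {ψ : Ideal (𝓞 F) →*₀ 𝓞 F} {p : ℕ}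

theorem h1_pos (hH : BaseH F W₀ Om m ψ) {K : Type} [Field K] [NumberField K] [Algebra F K] (w : HeightOneSpectrum (𝓞 K)) :
    algebraMap (𝓞 F) (𝓞 K) W₀.Δ ∈ w.asIdeal ↔ H55P.mK K m ≤ w.asIdeal := by
  obtain ⟨v, hv, -, -, hmv⟩ := H55K.DD.below (m := m) w
  rw [hmv, ← hH.supp v, hv]
  rfl

/-- The condition at a prime of K. -/
theorem y10_locR (hH : BaseH F W₀ Om m ψ) (hp : p.Prime) {K : Type} [Field K] [NumberField K] [Algebra F K] (w : HeightOneSpectrum (𝓞 K)) :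
    ¬ p ∣ Ideal.absNorm (Ideal.span {1 - ψ (Ideal.relNorm (𝓞 F) w.asIdeal)}) ↔
      (algebraMap (𝓞 F) (𝓞 K) W₀.Δ ∉ w.asIdeal → ¬ p ∣ Nat.card (W₀⁄(𝓞 K ⧸ w.asIdeal)).toAffine.Point) := by
  by_cases h : algebraMap (𝓞 F) (𝓞 K) W₀.Δ ∈ w.asIdeal
  · obtain ⟨v, hv, hN, hf, hmv⟩ := H55K.DD.below (m := m) w
    have h1 : m ≤ v.asIdeal := hmv.1 ((h1_pos hH w).1 h)
    have h2 : ψ v.asIdeal = 0 := by
      apply hH.data.hecke.zero
      intro hc
      have h3 : v.asIdeal ⊔ m = ⊤ := Ideal.isCoprime_iff_sup_eq.1 hc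
      rw [sup_eq_left.2 h1] at h3
      exact v.isPrime.ne_top h3
    have h4 : ¬ p ∣ Ideal.absNorm (Ideal.span {1 - ψ (Ideal.relNorm (𝓞 F) w.asIdeal)}) := by
      rw [hN, map_pow, h2, zero_pow hf.ne', sub_zero, Ideal.span_singleton_one, Ideal.absNorm_top]
      exact hp.one_lt.ne' ∘ Nat.dvd_one.1
    exact ⟨fun _ hn => absurd h hn, fun _ => h4⟩
  · have h1 : Nat.card (W₀⁄(𝓞 K ⧸ w.asIdeal)).toAffine.Point =
        Ideal.absNorm (Ideal.span {1 - ψ (Ideal.relNorm (𝓞 F) w.asIdeal)}) :=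
      pts_w hH.data.hecke (fun v hv _ => hH.deu v hv) w h fun hm => h ((h1_pos hH w).2 hm)
    rw [h1]
    exact ⟨fun h _ => h, fun hn => hn h⟩

theorem gen_valR (hH : BaseH F W₀ Om m ψ) (hp : PrimeH F W₀ p) {M L K : IntermediateField F (AlgebraicClosure F)}
    [NumberField M] [NumberField K] (hUM : UnrP p M) (hL : PExt p M L) (hMK : M ≤ K) (hK : K ≤ L) (hU : UnrP p K) :
    H55P.ValG p Om ψ K ↔ H55P.ValG p Om ψ M ∧ NoRel p W₀ M K := by
  rw [H55P.gen_crit W₀ Om m ψ hH.data p hp.prime hp.five (y10_cop hH hp) M L hL (exists_goodGR hH hp M hUM) K hMK hK hU]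
  refine and_congr_right fun _ => ?_
  constructor
  · intro h v hr hΔ
    exact (y10_locR hH hp.prime v).1 (h v hr) hΔ
  · intro h v hr
    exact (y10_locR hH hp.prime v).2 (h v hr)

theorem gen_intR (hH : BaseH F W₀ Om m ψ) (hp : PrimeH F W₀ p) {M L K : IntermediateField F (AlgebraicClosure F)}
    [NumberField M] [NumberField K] (hUM : UnrP p M) (hL : PExt p M L) (hMK : M ≤ K) (hK : K ≤ L) (hU : UnrP p K) :
    H55P.IntG p Om ψ K :=
  H55P.gen_int W₀ Om m ψ hH.data p hp.prime hp.five (y10_cop hH hp) M L hL (exists_goodGR hH hp M hUM) K hMK hK hU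

theorem non_KR (hH : BaseH F W₀ Om m ψ) (hp : PrimeH F W₀ p) {M L K : IntermediateField F (AlgebraicClosure F)}
    [NumberField M] [NumberField K] (hUM : UnrP p M) (hL : PExt p M L) (hMK : M ≤ K) (hK : K ≤ L) (hU : UnrP p K)
    (hN : ¬ NoRel p W₀ M K) :
    ∃ Φ : ℂ → ℂ, AnalyticOnNhd ℂ Φ {s | 1 / 2 < s.re} ∧
      (∀ s : ℂ, 3 / 2 < s.re → HasSum (H55N.tm (H55P.PsiP K ψ) s) (Φ s)) ∧
      ∀ V : ValuationSubring ℂ, V.valuation (p : ℂ) < 1 →
        V.valuation (Φ 1 / Om ^ Module.finrank F K) * V.valuation ((starRingEnd ℂ) (Φ 1 / Om ^ Module.finrank F K)) < 1 := by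
  classical
  have hB := base_of hH hp
  have hLf : FiniteDimensional F L := hL.fin
  have hLn : NumberField L := H16C.FR_numberField L
  have hm : IsCoprime m (Ideal.span {(p : 𝓞 F)}) := hB.cop.of_mul_left_right
  obtain ⟨u₀, hu₀⟩ := exists_goodGR hH hp M hUM
  unfold NoRel at hN
  push Not at hN
  obtain ⟨v, hram, hΔ, hdvd⟩ := hN
  obtain ⟨Φ, h1, h2, h3⟩ := gen_intR hH hp hUM hL hMK hK hU
  refine ⟨Φ, h1, h2, fun V hV => ?_⟩
  set x : ℂ := Φ 1 / Om ^ Module.finrank F K with hx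
  have hV' := fb8_above p hp.prime V hV
  have hx1 : V.valuation x ≤ 1 := (V.valuation_le_one_iff _).2 (h3 V hV)
  have hx2 : V.valuation ((starRingEnd ℂ) x) ≤ 1 := by
    rw [V.valuation_le_one_iff]
    exact h3 _ hV'
  by_contra hlt
  have hy1 : V.valuation x = 1 := by
    refine le_antisymm hx1 (not_lt.1 fun h => hlt ?_)
    exact mul_lt_one_of_nonneg_of_lt_one_left zero_le h hx2
  have hy2 : V.valuation ((starRingEnd ℂ) x) = 1 := by
    refine le_antisymm hx2 (not_lt.1 fun h => hlt ?_)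
    exact mul_lt_one_of_nonneg_of_lt_one_right hx1 zero_le h
  have hx0 : x ≠ 0 := by
    intro h0
    rw [h0, map_zero] at hy1
    exact zero_ne_one hy1
  have hfac : 1 - (starRingEnd ℂ) (H55P.PsiP M ψ v.asIdeal) =
      eF F (1 - ψ (Ideal.relNorm (𝓞 F) v.asIdeal)) := by
    rw [H55P.PsiP_apply, Complex.conj_conj, map_sub, map_one]
  have key : ∀ A : ValuationSubring ℂ, A.valuation (p : ℂ) < 1 → A.valuation x = 1 →
      A.valuation (eF F (1 - ψ (Ideal.relNorm (𝓞 F) v.asIdeal))) = 1 := by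
    intro A hA h
    rw [← hfac]
    exact ((H55P.LVP_tower_iff p hp.prime M L hL hH.data.hecke hm _ _ Om hH.data.per A hA
      (H55P.gen_good p hp.prime hp.five W₀ hp.cop A hA)
      (H55P.gen_ntp p hp.prime M u₀ hu₀ A hA) K hMK hK hU).1 ⟨Φ, h1, h2, h⟩).2 v hram
  have k1 := key V hV hy1
  have k2 := key _ hV' ((fb8_conj V hx0).2 hy2)
  have hz0 : eF F (1 - ψ (Ideal.relNorm (𝓞 F) v.asIdeal)) ≠ 0 := by
    intro h0
    rw [h0, map_zero] at k1
    exact zero_ne_one k1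
  have k3 := (fb8_conj V hz0).1 k2
  have e1 : eF F (1 - ψ (Ideal.relNorm (𝓞 F) v.asIdeal)) * (starRingEnd ℂ) (eF F (1 - ψ (Ideal.relNorm (𝓞 F) v.asIdeal))) =
      ((Nm (1 - ψ (Ideal.relNorm (𝓞 F) v.asIdeal)) : ℕ) : ℂ) := by
    rw [Complex.mul_conj, Complex.normSq_eq_norm_sq, ← H55P.Nm_eq]
    norm_cast
  have k4 : V.valuation ((Nm (1 - ψ (Ideal.relNorm (𝓞 F) v.asIdeal)) : ℕ) : ℂ) = 1 := by
    rw [← e1, map_mul, k1, k3, one_mul]
  rw [pts_w hH.data.hecke (fun v hv _ => hH.deu v hv) v hΔ fun hm => hΔ ((h1_pos hH v).2 hm)] at hdvd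
  obtain ⟨t, ht⟩ := hdvd
  rw [ht, Nat.cast_mul, map_mul] at k4
  have h5 := mul_lt_one_of_lt_of_le hV (H55P.pt9_nat V t)
  rw [k4] at h5
  exact lt_irrefl _ h5

end H13R
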