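import Mathlib
import Pool.Agent.Lib.H13R.D
import Pool.Agent.Lib.H55K.FB6B
import Pool.Agent.Lib.H55P.I5

/-! # H13R: the analytic part over K (without the points) and the Hecke L-value -/

open NumberField IsDedekindDomain WeierstrassCurve

namespace H13R

open H55P (IQ embF eF LF Per IsHecke Pt ac Inert Dec Nm UnitP UnrP)
open H35P (WAB Ker tt GoodW IntW)
open H55K H55K.TQ

variable {F : Type} [Field F] [NumberField F] [IQ F] {W : WeierstrassCurve ℤ} {Om : ℂ}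
    {m : Ideal (𝓞 F)} {ψ : Ideal (𝓞 F) →*₀ 𝓞 F} {p : ℕ}

theorem lunit_iff (hH : BaseH F (W⁄(𝓞 F)) Om m ψ) (hp : PrimeH F (W⁄(𝓞 F)) p) (K : Type) [Field K] [NumberField K]
    (K' : IntermediateField F (AlgebraicClosure F)) [NumberField K'] (hR : LRel W ψ K K') (hU : H55P.UnrP p K)
    (hI : H55P.IntG p Om ψ K') : LUnitG p W K ↔ H55P.ValG p Om ψ K' := by
  constructor
  · intro hA
    obtain ⟨Φ, hΦa, hΦs, hΦi⟩ := hI
    obtain ⟨Λ, hΛa, hΛs, -, hΛv⟩ := lG_rel hH hp K K' hR hU hΦa hΦs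
    obtain ⟨⟨L, hL⟩, Λ', hΛa', hΛs', -, hΛu'⟩ := hA
    have e1 : Λ 1 = Λ' 1 := H55N.ident Λ Λ' hΛa hΛa' (fun s hs => by
      rw [(hΛs s hs).2, (hΛs' s hs).2]) 1 (by norm_num)
    have hunit : UnitP p (Φ 1 / Om ^ Module.finrank F K') := by
      intro V hV
      have hx : V.valuation (Φ 1 / Om ^ Module.finrank F K') ≤ 1 :=
        (V.valuation_le_one_iff _).2 (hΦi V hV)
      have hxc : V.valuation ((starRingEnd ℂ) (Φ 1 / Om ^ Module.finrank F K')) ≤ 1 := by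
        refine H55P.i5_conj V _ ?_
        rw [ValuationSubring.valuation_le_one_iff]
        exact hΦi _ (H55P.i5_above p hp.prime V hV)
      have hl1 : V.valuation (lG K W L (Λ 1)) = 1 := by
        rw [e1]
        exact hΛu' L hL V hV
      rcases hΛv V hV L hL with h | h
      · rw [h, ← map_mul] at hl1
        exact H55P.i5_two V _ _ hx hxc hl1
      · rw [h.1] at hl1
        exact hl1
    refine ⟨Φ, hΦa, hΦs, ?_, hunit⟩
    intro h0
    apply H55P.pz6_ne hp.prime hunit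
    rw [h0, zero_div]
  · intro hV
    obtain ⟨Φ, hΦa, hΦs, hΦ1, hΦu⟩ := hV
    obtain ⟨Λ, hΛa, hΛs, hΛ1, hΛv⟩ := lG_rel hH hp K K' hR hU hΦa hΦs
    refine ⟨exists_perZ (perW_of hH), Λ, hΛa, hΛs, hΛ1 hΦ1, ?_⟩
    intro L hL V hV
    have hx := hΦu V hV
    have hxc := H55P.pz6_conj hp.prime (H55P.pz6_ne hp.prime hΦu) hΦu V hV
    rcases hΛv V hV L hL with h | h
    · rw [h, hx, hxc, one_mul]
    · rw [h.1, hx]

/-- The analytic part with the points. -/
theorem an_iff {p : ℕ} (hp : p.Prime) {K : Type} [Field K] [NumberField K]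
    (hE : ¬ p ∣ Nat.card (W⁄K).toAffine.Point) : AnUnitG p W K ↔ LUnitG p W K := by
  constructor
  · rintro ⟨h1, Λ, h2, h3, h4, h5⟩
    refine ⟨h1, Λ, h2, h3, h4, fun L hL V hV => ?_⟩
    have h6 := h5 L hL V hV
    rwa [shaG_lG, map_mul, map_pow, H55P.val_nat p hp V hV _ hE, one_pow, mul_one] at h6
  · rintro ⟨h1, Λ, h2, h3, h4, h5⟩
    refine ⟨h1, Λ, h2, h3, h4, fun L hL V hV => ?_⟩
    rw [shaG_lG, map_mul, map_pow, H55P.val_nat p hp V hV _ hE, one_pow, mul_one]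
    exact h5 L hL V hV

end H13R
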