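import Mathlib
import Pool.Agent.Lib.H13R.D1
import Pool.Agent.Lib.H13R.H1
import Pool.Agent.Lib.H13R.J4
import Pool.Agent.Lib.H13R.K0
import Pool.Agent.Lib.H55K.FC1
import Pool.Agent.Lib.H55K.FC2

/-! # H13R: almost all prime numbers, over M -/

open NumberField IsDedekindDomain WeierstrassCurve

namespace H13R

open H55P (IQ embF eF LF Per IsHecke Pt ac Inert Dec Nm UnitP UnrP PExt)
open H35P (WAB Ker tt GoodW IntW)
open H55K H55K.TQ

theorem pext_self {F : Type} [Field F] [NumberField F] {Ω : Type} [Field Ω] [Algebra F Ω] (p : ℕ) (M : IntermediateField F Ω)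
    [FiniteDimensional F M] : PExt p M M := by
  refine ⟨inferInstance, le_rfl, fun s hs x hx => ?_, 0, by rw [pow_zero, mul_one]⟩
  rw [IntermediateField.mem_fixingSubgroup_iff] at hs
  rw [hs x hx]
  exact hx

theorem unr_almost (K : Type) [Field K] [NumberField K] : {p : ℕ | p.Prime ∧ ¬ UnrP p K}.Finite := by
  have hD : (NumberField.discr K).natAbs ≠ 0 := by
    rw [Int.natAbs_ne_zero]
    exact NumberField.discr_ne_zero K
  refine Set.Finite.subset ((NumberField.discr K).natAbs.divisors.finite_toSet) ?_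
  rintro p ⟨hp, hnot⟩
  rw [Finset.mem_coe, Nat.mem_divisors]
  by_contra hcon
  push Not at hcon
  apply hnot
  apply FC2_unr hp
  intro hd
  exact hD (hcon (Int.natCast_dvd.1 hd))

theorem unr_KG {F : Type} [Field F] [NumberField F] [IQ F] {p : ℕ} (hp : p.Prime) (K : Type) [Field K] [NumberField K]
    (ι : K →ₐ[ℚ] AlgebraicClosure F) (h : UnrP p (KG F K ι)) : UnrP p K := by
  letI : Algebra K (KG F K ι) := (KGmap F K ι).toAlgebra
  exact H55P.UnrP.down K (KG F K ι) p hp h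

theorem unr_le {F : Type} [Field F] [NumberField F] [IQ F] {p : ℕ} (hp : p.Prime) {M L : IntermediateField F (AlgebraicClosure F)}
    [NumberField M] [NumberField L] (hML : M ≤ L) (h : UnrP p L) : UnrP p M := by
  letI : Algebra M L := (IntermediateField.inclusion hML).toRingHom.toAlgebra
  exact H55P.UnrP.down M L p hp h

section main

variable {F : Type} [Field F] [NumberField F] [IQ F] {W₀ : WeierstrassCurve (𝓞 F)} {Om : ℂ}
    {m : Ideal (𝓞 F)} {ψ : Ideal (𝓞 F) →*₀ 𝓞 F} {p : ℕ}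

theorem val_almostM (hH : BaseH F W₀ Om m ψ) (M : IntermediateField F (AlgebraicClosure F)) [NumberField M]
    (hL : ∃ Φ : ℂ → ℂ, AnalyticOnNhd ℂ Φ {s | 1 / 2 < s.re} ∧
      (∀ s : ℂ, 3 / 2 < s.re → HasSum (H55N.tm (H55P.PsiP M ψ) s) (Φ s)) ∧ Φ 1 ≠ 0) :
    {p : ℕ | PrimeH F W₀ p ∧ UnrP p M ∧ ¬ H55P.ValG p Om ψ M}.Finite := by
  have hfd : FiniteDimensional F M := FiniteDimensional.right ℚ F M
  by_cases hex : ∃ p, PrimeH F W₀ p ∧ UnrP p M
  swap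
  · refine Set.Finite.subset Set.finite_empty fun p hp => ?_
    exact absurd ⟨p, hp.1, hp.2.1⟩ hex
  obtain ⟨p₀, hp₀, hU₀⟩ := hex
  obtain ⟨Λ, ha, hs, hint⟩ := gen_intR hH hp₀ hU₀ (pext_self p₀ M) le_rfl le_rfl hU₀
  obtain ⟨Φ, hΦa, hΦs, hΦ1⟩ := hL
  have h1 : Λ 1 = Φ 1 := H55N.TW1_ident (1 / 2) Λ Φ ha hΦa
    (fun s hs' => (hs s hs').unique (hΦs s hs')) (by norm_num) 1 (by norm_num)
  have hne : Λ 1 ≠ 0 := by
    rw [h1]
    exact hΦ1
  have hOm : Om ≠ 0 := hH.data.per.ne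
  have hx : Λ 1 / Om ^ Module.finrank F M ≠ 0 := div_ne_zero hne (pow_ne_zero _ hOm)
  refine Set.Finite.subset (unit_almost hx (alg_of_int hp₀.prime hint)) ?_
  rintro p ⟨hp, -, hV⟩
  exact ⟨hp.prime, fun hU => hV ⟨Λ, ha, hs, hne, hU⟩⟩

theorem bad_of {M : IntermediateField F (AlgebraicClosure F)} [NumberField M] (hH : BaseH F W₀ Om m ψ) (hB : BadM W₀ M) :
    ∀ w : HeightOneSpectrum (𝓞 M), H55P.mK M m ≤ w.asIdeal → ¬ GoodAt ((W₀⁄F)⁄M) w :=
  fun w hw => hB w ((h1_pos hH w).2 hw)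

end main

section rat

variable {F : Type} [Field F] [NumberField F] [IQ F] {W : WeierstrassCurve ℤ} {Om : ℂ}
    {m : Ideal (𝓞 F)} {ψ : Ideal (𝓞 F) →*₀ 𝓞 F} {p : ℕ}

theorem lrelM (hH : BaseH F (W⁄(𝓞 F)) Om m ψ) (M : Type) [Field M] [NumberField M] (ι : M →ₐ[ℚ] AlgebraicClosure F)
    (hB : BadM (W⁄(𝓞 F)) (KG F M ι)) : LRel W ψ M (KG F M ι) :=
  lrelR hH M ι (bad_of hH hB)

/-- If L(W/M, 1) is not zero, its algebraic part is a p-adic unit for all but finitely many p. -/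
theorem lunit_almost (hH : BaseH F (W⁄(𝓞 F)) Om m ψ) (M : Type) [Field M] [NumberField M] (ι : M →ₐ[ℚ] AlgebraicClosure F)
    (hB : BadM (W⁄(𝓞 F)) (KG F M ι)) (hL : LNz W M) : {p : ℕ | p.Prime ∧ ¬ LUnitG p W M}.Finite := by
  classical
  have hfin := (prime_almost (W⁄(𝓞 F)) hH.data.ell).union (unr_almost (KG F M ι))
  by_cases hex : ∃ p, PrimeH F (W⁄(𝓞 F)) p ∧ UnrP p (KG F M ι)
  swap
  · refine hfin.subset ?_
    rintro p ⟨hp, -⟩
    by_cases h1 : PrimeH F (W⁄(𝓞 F)) p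
    · exact Or.inr ⟨hp, fun h2 => hex ⟨p, h1, h2⟩⟩
    · exact Or.inl ⟨hp, h1⟩
  obtain ⟨p₀, hp₀, hU₀⟩ := hex
  have hfd : FiniteDimensional F (KG F M ι) := kg_fin F M ι
  obtain ⟨Φ, hΦa, hΦs, -⟩ := gen_intR hH hp₀ hU₀ (pext_self p₀ (KG F M ι)) le_rfl le_rfl hU₀
  have hR := lrelM hH M ι hB
  obtain ⟨Λ, hΛa, hΛs, hΛ1⟩ := hL
  have hΦ1 : Φ 1 ≠ 0 := by
    rcases hR with ⟨-, hR⟩ | ⟨-, hR⟩
    · have h1 : Φ 1 * (starRingEnd ℂ) (Φ ((starRingEnd ℂ) 1)) = Λ 1 :=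
        H55N.TW1_ident (1 / 2) (fun z => Φ z * (starRingEnd ℂ) (Φ ((starRingEnd ℂ) z))) Λ (hΦa.mul (H55B.I4_conj hΦa)) hΛa
        (fun s hs => by
          rw [(hΛs s hs).2]
          exact ((hR Φ hΦs s hs).LSeries_eq).symm) (by norm_num) 1 (by norm_num)
      intro h0
      apply hΛ1
      rw [← h1, h0, zero_mul]
    · have h1 : Φ 1 = Λ 1 := H55N.TW1_ident (1 / 2) Φ Λ hΦa hΛa
        (fun s hs => by
          rw [(hΛs s hs).2]
          exact ((hR Φ hΦs s hs).LSeries_eq).symm) (by norm_num) 1 (by norm_num)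
      rw [h1]
      exact hΛ1
  have hval := val_almostM hH (KG F M ι) ⟨Φ, hΦa, hΦs, hΦ1⟩
  refine (hfin.union hval).subset ?_
  rintro p ⟨hp, hA⟩
  by_cases hP : PrimeH F (W⁄(𝓞 F)) p
  · by_cases hU : UnrP p (KG F M ι)
    · right
      refine ⟨hP, hU, fun hV => hA ?_⟩
      exact (lunit_iff hH hP M (KG F M ι) hR (unr_KG hp M ι hU)
        (gen_intR hH hP hU (pext_self p (KG F M ι)) le_rfl le_rfl hU)).2 hV
    · exact Or.inl (Or.inr ⟨hp, hU⟩)
  · exact Or.inl (Or.inl ⟨hp, hP⟩)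

end rat

end H13R
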