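import Mathlib
import Pool.Agent.Lib.H13R.E1
import Pool.Agent.Lib.H13R.G6
import Pool.Agent.Lib.H13R.J3
import Pool.Agent.Lib.H13R.K1
import Pool.Agent.Lib.H55K.F3

/-! # H13R: THE RELATIVE THEOREM -/

open NumberField IsDedekindDomain WeierstrassCurve

namespace H13R

open H55P (IQ embF eF LF Per IsHecke Pt ac Inert Dec Nm UnitP UnrP PExt)
open H35P (WAB Ker tt GoodW IntW)
open H55K H55K.TQ

/-- FM and FK are the fields generated by F and M, F and K in the algebraic closure of F. FM is contained in FK, FK is contained in a Galois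
extension L of FM of degree a power of p in which p is unramified, and W has bad reduction at all primes of FM which divide the discriminant
of W. -/
structure Tower (F : Type) [Field F] [NumberField F] (p : ℕ) (W : WeierstrassCurve ℤ) (M K : Type) [Field M] [NumberField M] [Field K]
    [NumberField K] (ιM : M →ₐ[ℚ] AlgebraicClosure F) (ιK : K →ₐ[ℚ] AlgebraicClosure F) : Prop where
  sub : KG F M ιM ≤ KG F K ιK
  ext : ∃ (L : IntermediateField F (AlgebraicClosure F)) (_ : NumberField L), PExt p (KG F M ιM) L ∧ UnrP p L ∧ KG F K ιK ≤ L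
  bad : BadM (W⁄(𝓞 F)) (KG F M ιM)

/-- The conclusions over K and M. NR: no prime v of FM, not dividing the discriminant of W, with p | #W(k_v), is ramified in FK. -/
structure Over (F : Type) [Field F] [NumberField F] (p : ℕ) (W : WeierstrassCurve ℤ) (M K : Type) [Field M] [NumberField M] [Field K]
    [NumberField K] (ιM : M →ₐ[ℚ] AlgebraicClosure F) (ιK : K →ₐ[ℚ] AlgebraicClosure F) : Prop where
  int : AnIntG p W K
  lval : LUnitG p W K ↔ LUnitG p W M ∧ NoRel p (W⁄(𝓞 F)) (KG F M ιM) (KG F K ιK)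
  sel : H55P.SelTriv (W⁄K) p ↔ H55P.SelTriv (W⁄M) p ∧ NoRel p (W⁄(𝓞 F)) (KG F M ιM) (KG F K ιK)
  bsd : BSDPG p W K ↔ BSDPG p W M ∧ NoRel p (W⁄(𝓞 F)) (KG F M ιM) (KG F K ιK)
  non : ¬ NoRel p (W⁄(𝓞 F)) (KG F M ιM) (KG F K ιK) → AnNonG p W K ∧ H13Z.SelNonT (W⁄K) p

variable {F : Type} [Field F] [NumberField F] [IQ F] {W : WeierstrassCurve ℤ} {Om : ℂ}
    {m : Ideal (𝓞 F)} {ψ : Ideal (𝓞 F) →*₀ 𝓞 F} {p : ℕ}

/-- The Hecke relation over K. -/
theorem lrelK (hH : BaseH F (W⁄(𝓞 F)) Om m ψ) (hp : PrimeH F (W⁄(𝓞 F)) p) {M : IntermediateField F (AlgebraicClosure F)}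
    [NumberField M] {L : IntermediateField F (AlgebraicClosure F)} (hL : PExt p M L) (hB : BadM (W⁄(𝓞 F)) M)
    (K : Type) [Field K] [NumberField K] (ι : K →ₐ[ℚ] AlgebraicClosure F) (hMK : M ≤ KG F K ι) (hKL : KG F K ι ≤ L) :
    LRel W ψ K (KG F K ι) :=
  lrelR hH K ι fun w hw => bad_KR hH hp hL hMK hKL hB w hw

open Classical in
/-- The Selmer group over K and over FK. -/
theorem sel_iff (hH : BaseH F (W⁄(𝓞 F)) Om m ψ) (hp : PrimeH F (W⁄(𝓞 F)) p) {M : IntermediateField F (AlgebraicClosure F)}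
    [NumberField M] {L : IntermediateField F (AlgebraicClosure F)} (hL : PExt p M L) (hUM : UnrP p M)
    (K : Type) [Field K] [NumberField K] (ι : K →ₐ[ℚ] AlgebraicClosure F) (hKL : KG F K ι ≤ L) :
    H55P.SelTriv (W⁄K) p ↔ H55P.SelG p (W⁄(𝓞 F)) (KG F K ι) := by
  have hfd : FiniteDimensional F (KG F K ι) := kg_fin F K ι
  refine ⟨fun h => selG_of_triv hH hp.prime (by have := hp.five; omega) hp.unr K ι h, fun h => ?_⟩
  exact (sel_absR hH hp K ι (fun T hT hf => tors_KR hH hp hUM hL hKL T hT hf) h).1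

open Classical in
/-- The Tate-Shafarevich group and the points. -/
theorem sel_rest (hH : BaseH F (W⁄(𝓞 F)) Om m ψ) (hp : PrimeH F (W⁄(𝓞 F)) p) {M : IntermediateField F (AlgebraicClosure F)}
    [NumberField M] {L : IntermediateField F (AlgebraicClosure F)} (hL : PExt p M L) (hUM : UnrP p M)
    (K : Type) [Field K] [NumberField K] (ι : K →ₐ[ℚ] AlgebraicClosure F) (hKL : KG F K ι ≤ L)
    (h : H55P.SelTriv (W⁄K) p) :
    H55P.SelTriv (W⁄K) p ∧ H55P.ShaTriv (W⁄K) p ∧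
      Finite (W⁄K).toAffine.Point ∧ ¬ p ∣ Nat.card (W⁄K).toAffine.Point := by
  have hfd : FiniteDimensional F (KG F K ι) := kg_fin F K ι
  exact sel_absR hH hp K ι (fun T hT hf => tors_KR hH hp hUM hL hKL T hT hf) ((sel_iff hH hp hL hUM K ι hKL).1 h)

theorem bsd_iff (hH : BaseH F (W⁄(𝓞 F)) Om m ψ) (hp : PrimeH F (W⁄(𝓞 F)) p) {M : IntermediateField F (AlgebraicClosure F)}
    [NumberField M] {L : IntermediateField F (AlgebraicClosure F)} (hL : PExt p M L) (hUM : UnrP p M)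
    (K : Type) [Field K] [NumberField K] (ι : K →ₐ[ℚ] AlgebraicClosure F) (hKL : KG F K ι ≤ L) :
    BSDPG p W K ↔ H55P.SelTriv (W⁄K) p ∧ LUnitG p W K := by
  constructor
  · rintro ⟨⟨h1, -, -, h2⟩, h3⟩
    exact ⟨h1, (an_iff hp.prime h2).1 h3⟩
  · rintro ⟨h1, h2⟩
    have h3 := sel_rest hH hp hL hUM K ι hKL h1
    exact ⟨h3, (an_iff hp.prime h3.2.2.2).2 h2⟩

/-- THE RELATIVE THEOREM. -/
theorem main_R (hH : BaseH F (W⁄(𝓞 F)) Om m ψ) (hp : PrimeH F (W⁄(𝓞 F)) p) (M K : Type) [Field M] [NumberField M]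
    [Field K] [NumberField K] (ιM : M →ₐ[ℚ] AlgebraicClosure F) (ιK : K →ₐ[ℚ] AlgebraicClosure F)
    (hT : Tower F p W M K ιM ιK) : Over F p W M K ιM ιK := by
  classical
  obtain ⟨hMK, ⟨L, hLn, hL, hU, hKL⟩, hB⟩ := hT
  have hUM : UnrP p (KG F M ιM) := unr_le hp.prime hL.le hU
  have hUK : UnrP p (KG F K ιK) := unr_le hp.prime hKL hU
  have hRM : LRel W ψ M (KG F M ιM) := lrelM hH M ιM hB
  have hRK : LRel W ψ K (KG F K ιK) := lrelK hH hp hL hB K ιK hMK hKL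
  have hIM := gen_intR hH hp hUM hL le_rfl hL.le hUM
  have hIK := gen_intR hH hp hUM hL hMK hKL hUK
  have hlval : LUnitG p W K ↔ LUnitG p W M ∧ NoRel p (W⁄(𝓞 F)) (KG F M ιM) (KG F K ιK) := by
    rw [lunit_iff hH hp K (KG F K ιK) hRK (unr_KG hp.prime K ιK hUK) hIK,
      lunit_iff hH hp M (KG F M ιM) hRM (unr_KG hp.prime M ιM hUM) hIM]
    exact gen_valR hH hp hUM hL hMK hKL hUK
  have hnon : ¬ NoRel p (W⁄(𝓞 F)) (KG F M ιM) (KG F K ιK) → AnNonG p W K ∧ H13Z.SelNonT (W⁄K) p := by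
    intro hN
    obtain ⟨Φ, a1, a2, a3⟩ := non_KR hH hp hUM hL hMK hKL hUK hN
    exact ⟨non_of hH hp K _ hRK (unr_KG hp.prime K ιK hUK) a1 a2 a3, non_abs hH hp K ιK (nonselR hH hp hL hU hMK hKL hN)⟩
  have hsel : H55P.SelTriv (W⁄K) p ↔ H55P.SelTriv (W⁄M) p ∧ NoRel p (W⁄(𝓞 F)) (KG F M ιM) (KG F K ιK) := by
    constructor
    · intro h
      have hN : NoRel p (W⁄(𝓞 F)) (KG F M ιM) (KG F K ιK) := by
        by_contra hN
        exact H13Z.not_selTriv _ p (hnon hN).2 h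
      refine ⟨(sel_iff hH hp hL hUM M ιM hL.le).2 ?_, hN⟩
      exact sel_downR hH hp hUM hL hMK hKL ((sel_iff hH hp hL hUM K ιK hKL).1 h)
    · rintro ⟨h, hN⟩
      refine (sel_iff hH hp hL hUM K ιK hKL).2 ?_
      exact (selR hH hp hUM hB hL hMK hKL hUK hN ((sel_iff hH hp hL hUM M ιM hL.le).1 h)).1
  refine ⟨int_of hH hp K _ hRK (unr_KG hp.prime K ιK hUK) hIK, hlval, hsel, ?_, hnon⟩
  rw [bsd_iff hH hp hL hUM K ιK hKL, bsd_iff hH hp hL hUM M ιM hL.le, hlval, hsel]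
  tauto

end H13R
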