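import Mathlib
import Pool.Agent.Lib.H13R.C3
import Pool.Agent.Lib.H13R.K1

/-! # H13R: unramified extensions keep bad reduction -/

open NumberField IsDedekindDomain WeierstrassCurve

namespace H13R

open H55P (IQ embF eF LF Per IsHecke Pt ac Inert Dec Nm UnitP PExt Ram RamF clos)
open H35P (WAB Ker tt GoodW IntW)
open H55K.MG (VC Crd)
open H55K H55K.TQ

variable {F : Type} [Field F] [NumberField F] [IQ F] {W₀ : WeierstrassCurve (𝓞 F)} {Om : ℂ}
    {m : Ideal (𝓞 F)} {ψ : Ideal (𝓞 F) →*₀ 𝓞 F} {p : ℕ}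

theorem exists_prime {F : Type} [Field F] [NumberField F] (W₀ : WeierstrassCurve (𝓞 F)) (h : W₀.Δ ≠ 0) : ∃ p : ℕ, PrimeH F W₀ p := by
  by_contra hcon
  push Not at hcon
  have h1 := prime_almost W₀ h
  have h2 : {p : ℕ | p.Prime ∧ ¬ PrimeH F W₀ p} = {p : ℕ | p.Prime} := by
    ext p
    exact ⟨fun h => h.1, fun h => ⟨h, hcon p⟩⟩
  rw [h2] at h1
  exact Nat.infinite_setOfPred_prime h1

/-- The base is bad at the primes of the discriminant. -/
theorem bad_bot (hH : BaseH F W₀ Om m ψ) [NumberField (⊥ : IntermediateField F (AlgebraicClosure F))] :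
    BadM W₀ (⊥ : IntermediateField F (AlgebraicClosure F)) := by
  obtain ⟨p, hp⟩ := exists_prime W₀ hH.data.ell
  intro w hw
  exact bad_K hH hp (pext_self p ⊥) le_rfl w ((h1_pos hH w).1 hw)

/-- A finite normal extension. -/
theorem exists_normal {F : Type} [Field F] [NumberField F] (M : IntermediateField F (AlgebraicClosure F)) [FiniteDimensional F M] :
    ∃ N : IntermediateField F (AlgebraicClosure F), FiniteDimensional F N ∧ M ≤ N ∧
      ∀ s : AlgebraicClosure F ≃ₐ[F] AlgebraicClosure F, ∀ x ∈ N, s x ∈ N := by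
  refine ⟨IntermediateField.normalClosure F M (AlgebraicClosure F), inferInstance, M.le_normalClosure, fun s x hx => ?_⟩
  have hn : Normal F (IntermediateField.normalClosure F M (AlgebraicClosure F)) := inferInstance
  have h1 := (IntermediateField.normal_iff_forall_map_le').1 hn s
  exact h1 ⟨x, hx, rfl⟩

/-- If the primes of F dividing the discriminant are unramified in M then W₀ has bad reduction at all primes of M dividing it. -/
theorem bad_unr (hH : BaseH F W₀ Om m ψ) (M : IntermediateField F (AlgebraicClosure F)) [NumberField M]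
    (h : ∀ v : HeightOneSpectrum (𝓞 F), W₀.Δ ∈ v.asIdeal → ¬ RamF M v.asIdeal) : BadM W₀ M := by
  classical
  intro w hΔw hgood
  have hMf : FiniteDimensional F M := FiniteDimensional.right ℚ F M
  obtain ⟨N, hNf, hMN, hNn⟩ := exists_normal M
  have hbn : NumberField (⊥ : IntermediateField F (AlgebraicClosure F)) := H16C.FR_numberField _
  obtain ⟨p, hp⟩ := exists_prime W₀ hH.data.ell
  obtain ⟨V, hV⟩ := exists_V M w
  obtain ⟨j, hj⟩ := exists_j F (AlgebraicClosure F)
  obtain ⟨A, hA⟩ : ∃ A : F, A = -(algebraMap (𝓞 F) F W₀.c₄) / 48 := ⟨_, rfl⟩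
  obtain ⟨B, hB'⟩ : ∃ B : F, B = -(algebraMap (𝓞 F) F W₀.c₆) / 864 := ⟨_, rfl⟩
  have hd := y3_ne W₀ hA hB' hH.data.ell
  have hper : Per F (embF F A) (embF F B) Om := by
    have e1 : embF F A = -(eF F W₀.c₄) / 48 := by
      rw [hA, map_div₀, map_neg, map_ofNat]
      rfl
    have e2 : embF F B = -(eF F W₀.c₆) / 864 := by
      rw [hB', map_div₀, map_neg, map_ofNat]
      rfl
    rw [e1, e2]
    exact hH.data.per
  obtain ⟨act, hact⟩ := exists_CMA F A B Om j hd hper hj
  obtain ⟨v, hvw⟩ := c3_below (M := ⊥) bot_le w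
  have hup : ∀ a : 𝓞 (⊥ : IntermediateField F (AlgebraicClosure F)), ∃ b : 𝓞 M,
      ((a : (⊥ : IntermediateField F (AlgebraicClosure F))) : AlgebraicClosure F) = ((b : M) : AlgebraicClosure F) := by
    intro a
    have hle : (⊥ : IntermediateField F (AlgebraicClosure F)) ≤ M := bot_le
    refine ⟨⟨⟨((a : (⊥ : IntermediateField F (AlgebraicClosure F))) : AlgebraicClosure F), hle a.1.2⟩, ?_⟩, rfl⟩
    have h2 : IsIntegral ℤ (a : (⊥ : IntermediateField F (AlgebraicClosure F))) := a.isIntegral_coe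
    have h3 : IsIntegral ℤ ((IntermediateField.inclusion hle) (a : (⊥ : IntermediateField F (AlgebraicClosure F)))) :=
      h2.map ((IntermediateField.inclusion hle).toRingHom.toIntAlgHom)
    exact h3
  have hv : ∀ a : 𝓞 (⊥ : IntermediateField F (AlgebraicClosure F)), a ∈ v.asIdeal →
      V.valuation ((a : (⊥ : IntermediateField F (AlgebraicClosure F))) : AlgebraicClosure F) < 1 := by
    intro a ha
    obtain ⟨b, hb⟩ := hup a
    rw [hb]
    exact hV b ((hvw a b hb).1 ha)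
  have hΔv : algebraMap (𝓞 F) (𝓞 (⊥ : IntermediateField F (AlgebraicClosure F))) W₀.Δ ∈ v.asIdeal :=
    (hvw _ (algebraMap (𝓞 F) (𝓞 M) W₀.Δ) rfl).2 hΔw
  have hVp : V.valuation (p : AlgebraicClosure F) = 1 := c3_vp hp hv hΔv
  have hGM := gmd_of_good W₀ hA hB' w hV hgood
  have hΔA : (WAB A B).Δ ≠ 0 := by
    have e : (WAB A B).Δ = -16 * (4 * A ^ 3 + 27 * B ^ 2) := by
      unfold WAB WeierstrassCurve.Δ WeierstrassCurve.b₂ WeierstrassCurve.b₄ WeierstrassCurve.b₆ WeierstrassCurve.b₈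
      ring
    rw [e]
    exact mul_ne_zero (by norm_num) hd
  obtain ⟨T, hT, hT0⟩ := c3_point hact hp.prime
  refine core_bad hH.data.ell (jint_of hH.data.per hH.data.ell) hp.prime hp.five hA hB' ⊥ (bad_bot hH) hΔv hv hVp hT hT0 ?_
  intro g hg0 hg
  have hCL : clos ⊥ M ≤ N := H55P.clos_le ⊥ M N hMN fun s _ x hx => hNn s x hx
  have hCf : FiniteDimensional F (clos ⊥ M) := H55P.finDim_of_le hCL
  have hgN : g ∈ (clos ⊥ M).fixingSubgroup := by
    refine H55P.inert_mem ⊥ (clos ⊥ M) bot_le (fun s hs x hx => H55P.clos_norm ⊥ M s hs x hx) V ?_ g hg0 hg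
    intro v' hbel hram
    have hr := H55P.clos_ram ⊥ M N bot_le hMN (fun s _ x hx => hNn s x hx) v' hram
    obtain ⟨v₀, hv₀⟩ : ∃ v₀ : HeightOneSpectrum (𝓞 F),
        ∀ x : 𝓞 F, x ∈ v₀.asIdeal ↔ algebraMap (𝓞 F) (𝓞 (⊥ : IntermediateField F (AlgebraicClosure F))) x ∈ v'.asIdeal :=
      ⟨⟨v'.asIdeal.under (𝓞 F), inferInstance, mt Ideal.eq_bot_of_comap_eq_bot v'.ne_bot⟩, fun x => Iff.rfl⟩
    refine h v₀ ?_ ((y9_ram hv₀ M).1 hr)
    rw [hv₀, hbel]
    exact hv _ hΔv
  refine inert_triv hΔA hGM g ?_ hg p hVp T hT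
  intro x hx
  exact (IntermediateField.mem_fixingSubgroup_iff _ _).1 hgN x (H55P.le_clos ⊥ M hx)

end H13R
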