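import Mathlib
import Pool.Agent.Lib.H13R.C4
import Pool.Agent.Lib.H13R.Main
import Pool.Agent.Lib.H28I.A0
import Pool.Agent.Lib.H28I.L0
import Pool.Agent.Lib.H28I.P3

/-! # H13R: the relative theorem for isogenous curves -/

open NumberField IsDedekindDomain WeierstrassCurve

namespace H13R

open H55P (IQ embF eF LF Per IsHecke Pt ac Inert Dec Nm UnitP UnrP PExt)
open H35P (WAB Ker tt GoodW IntW)
open H55K H55K.TQ
open H28I (TW Same tw_supp tw_good tw_deu tw_prime tw_iso disc_ne lrt_of lG_same iso6_symm Iso6 sel_iso sha_iso pts_iso selnon_iso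
  same_int same_non same_lnz a0_ser a0_disc)

variable {F : Type} [Field F] [NumberField F] [IQ F] {W W' : WeierstrassCurve ℤ} {Om : ℂ} {m : Ideal (𝓞 F)}
    {ψ : Ideal (𝓞 F) →*₀ 𝓞 F} {kap : ℤ} {e t u lam : ℚ} {p : ℕ}

/-- The primes of M dividing the discriminants. -/
theorem i1_supp (h : TW F W W' Om m ψ kap e t u lam) {M : Type} [Field M] [NumberField M] [Algebra F M] (w : HeightOneSpectrum (𝓞 M)) :
    algebraMap (𝓞 F) (𝓞 M) (W'⁄(𝓞 F)).Δ ∈ w.asIdeal ↔ algebraMap (𝓞 F) (𝓞 M) (W⁄(𝓞 F)).Δ ∈ w.asIdeal := by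
  obtain ⟨v, hv, -, -, -⟩ := H55K.DD.below (m := m) w
  have h1 := tw_supp h v
  rw [hv] at h1
  exact h1

theorem i1_bad (h : TW F W W' Om m ψ kap e t u lam) (M : IntermediateField F (AlgebraicClosure F)) [NumberField M] :
    BadM (W'⁄(𝓞 F)) M ↔ BadM (W⁄(𝓞 F)) M := by
  unfold BadM
  refine forall_congr' fun w => ?_
  rw [i1_supp h w, cur_eq M, cur_eq M, tw_good h M w]

theorem i1_pts (h : TW F W W' Om m ψ kap e t u lam) {M : Type} [Field M] [NumberField M] [Algebra F M] (w : HeightOneSpectrum (𝓞 M))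
    (hΔ : algebraMap (𝓞 F) (𝓞 M) (W⁄(𝓞 F)).Δ ∉ w.asIdeal) :
    Nat.card ((W'⁄(𝓞 F))⁄(𝓞 M ⧸ w.asIdeal)).toAffine.Point = Nat.card ((W⁄(𝓞 F))⁄(𝓞 M ⧸ w.asIdeal)).toAffine.Point := by
  have hm : ¬ H55P.mK M m ≤ w.asIdeal := fun hm => hΔ ((h1_pos h.base w).2 hm)
  rw [pts_w h.base.data.hecke (fun v hv _ => h.base.deu v hv) w hΔ hm,
    pts_w h.base.data.hecke (fun v hv _ => (tw_deu h v hv).2) w (fun h' => hΔ ((i1_supp h w).1 h')) hm]

theorem i1_norel (h : TW F W W' Om m ψ kap e t u lam) (M K : IntermediateField F (AlgebraicClosure F)) [NumberField M] :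
    NoRel p (W'⁄(𝓞 F)) M K ↔ NoRel p (W⁄(𝓞 F)) M K := by
  unfold NoRel
  refine forall_congr' fun w => imp_congr_right fun _ => ?_
  rw [i1_supp h w]
  refine imp_congr_right fun hΔ => ?_
  rw [i1_pts h w hΔ]

/-- The L-functions agree. -/
theorem i1_lfun (h : TW F W W' Om m ψ kap e t u lam) (K : Type) [Field K] [NumberField K] (ι : K →ₐ[ℚ] AlgebraicClosure F)
    (hbad : ∀ w : HeightOneSpectrum (𝓞 (KG F K ι)), H55P.mK (KG F K ι) m ≤ w.asIdeal → ¬ GoodAt (((W⁄(𝓞 F))⁄F)⁄(KG F K ι)) w) (n : ℕ) :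
    (W'⁄K).LFunction n = (W⁄K).LFunction n := by
  obtain ⟨j₀, hj⟩ := jint_Z h.base
  obtain ⟨j₁, hj₁⟩ := h.jint
  rcases kg_dich F K ι with ⟨f, hf⟩ | hQ
  · let _ : Algebra F K := f.toAlgebra
    obtain ⟨θ⟩ := kg_iso F K ι f hf
    have e1 : (((W⁄K).LFunction n : ℤ) : ℂ) =
        (H55N.AI (H55P.PsiP K ψ) * H55N.AI (fun a => (starRingEnd ℂ) (H55P.PsiP K ψ a))) n := by
      rw [← cur_eq (F := F) (W := W) K]
      exact H55K.lfun_K h.base.data.hecke (fun v hv _ => h.base.deu v hv) (fun v hv => (h.base.supp v).1 hv)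
        (H55K.jint_of h.base.data.per h.base.data.ell) (fun w hw => fb3b_badR K (KG F K ι) hbad θ w hw) n
    have hj' : ∃ j₁ : 𝓞 F, (W'⁄(𝓞 F)).c₄ ^ 3 = j₁ * (W'⁄(𝓞 F)).Δ := by
      refine ⟨algebraMap ℤ (𝓞 F) j₁, ?_⟩
      have e4 : (W'⁄(𝓞 F)).c₄ = algebraMap ℤ (𝓞 F) W'.c₄ := W'.map_c₄ (algebraMap ℤ (𝓞 F))
      have eD : (W'⁄(𝓞 F)).Δ = algebraMap ℤ (𝓞 F) W'.Δ := W'.map_Δ (algebraMap ℤ (𝓞 F))
      rw [e4, eD, ← map_pow, ← map_mul, hj₁]
    have e2 : (((W'⁄K).LFunction n : ℤ) : ℂ) =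
        (H55N.AI (H55P.PsiP K ψ) * H55N.AI (fun a => (starRingEnd ℂ) (H55P.PsiP K ψ a))) n := by
      rw [← cur_eq (F := F) (W := W') K]
      refine H55K.lfun_K h.base.data.hecke (fun v hv _ => (tw_deu h v hv).2) (fun v hv => (h.base.supp v).1 ((tw_supp h v).1 hv))
        hj' (fun w hw hg => ?_) n
      rw [cur_eq K] at hg
      refine fb3b_badR K (KG F K ι) hbad θ w hw ?_
      rw [cur_eq K]
      exact (tw_good h K w).1 hg
    exact Int.cast_injective (e2.trans e1.symm)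
  · let _ : Algebra K (KG F K ι) := (KGmap F K ι).toAlgebra
    have hbad' : ∀ w : HeightOneSpectrum (𝓞 (KG F K ι)), H55P.mK (KG F K ι) m ≤ w.asIdeal → ¬ H55K.GoodAt (W⁄(KG F K ι)) w := by
      intro w hw
      have h1 := hbad w hw
      rw [cur_eq (KG F K ι)] at h1
      exact h1
    have e1 : (((W⁄K).LFunction n : ℤ) : ℂ) = H55N.AI (fun a => H55P.PsiP (KG F K ι) ψ a) n :=
      lfun_quad hQ h.base.data.hecke (fun v hv _ => h.base.deu v hv) h.base.supp (hram_of h.base) hj hbad' n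
    have e2 : (((W'⁄K).LFunction n : ℤ) : ℂ) = H55N.AI (fun a => H55P.PsiP (KG F K ι) ψ a) n :=
      lfun_quad hQ h.base.data.hecke (fun v hv _ => (tw_deu h v hv).2)
        (fun v => (tw_supp h v).trans (h.base.supp v)) (fun v hv => (tw_supp h v).2 (hram_of h.base v hv)) hj₁
        (fun w hw hg => hbad' w hw ((tw_good h (KG F K ι) w).1 hg)) n
    exact Int.cast_injective (e2.trans e1.symm)

open Classical in
theorem i1_same (h : TW F W W' Om m ψ kap e t u lam) (hp : PrimeH F (W⁄(𝓞 F)) p) (K : Type) [Field K] [NumberField K]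
    (hl : ∀ n : ℕ, (W'⁄K).LFunction n = (W⁄K).LFunction n) : Same p W W' K := by
  have hp' := (tw_prime h).2 hp
  obtain ⟨L, hL⟩ := exists_perZ (perW_of h.base)
  exact ⟨hl, fun L L' hL hL' V hV x => lG_same h.ip hp.prime hp.five (fb6b_ndvd hp) (fb6b_ndvd hp')
    (jint_Z h.base) h.jint K hL hL' x V hV, ⟨L, hL⟩, (lrt_of h.ip hL).1, tw_iso h K, (disc_ne h.ip).1, (disc_ne h.ip).2⟩

/-- The analytic parts agree. -/
theorem i1_lunit {K : Type} [Field K] [NumberField K] (h : Same p W W' K) : LUnitG p W' K ↔ LUnitG p W K := by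
  obtain ⟨L, hL⟩ := h.ex
  obtain ⟨L', hL'⟩ := h.ex'
  constructor
  · rintro ⟨-, Λ, hΛ, hs, hne, hu⟩
    refine ⟨h.ex, Λ, hΛ, (a0_ser h Λ).1 hs, hne, fun L₁ hL₁ V hV => ?_⟩
    rw [← h.per L₁ L' hL₁ hL' V hV]
    exact hu L' hL' V hV
  · rintro ⟨-, Λ, hΛ, hs, hne, hu⟩
    refine ⟨h.ex', Λ, hΛ, (a0_ser h Λ).2 hs, hne, fun L₁ hL₁ V hV => ?_⟩
    rw [h.per L L₁ hL hL₁ V hV]
    exact hu L hL V hV

open Classical in
theorem i1_sel (hp : p.Prime) (h5 : 5 ≤ p) {K : Type} [Field K] [NumberField K] (h : Same p W W' K) :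
    H55P.SelTriv (W'⁄K) p ↔ H55P.SelTriv (W⁄K) p :=
  ⟨sel_iso hp h5 (iso6_symm h.iso), sel_iso hp h5 h.iso⟩

/-- THE RELATIVE THEOREM for isogenous curves. -/
theorem rel_iso (h : TW F W W' Om m ψ kap e t u lam) (hp' : PrimeH F (W'⁄(𝓞 F)) p) (M K : Type) [Field M] [NumberField M]
    [Field K] [NumberField K] (ιM : M →ₐ[ℚ] AlgebraicClosure F) (ιK : K →ₐ[ℚ] AlgebraicClosure F)
    (hT : Tower F p W' M K ιM ιK) : Over F p W' M K ιM ιK := by
  classical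
  have hp := (tw_prime h).1 hp'
  have hT' : Tower F p W M K ιM ιK := ⟨hT.sub, hT.ext, (i1_bad h _).1 hT.bad⟩
  have hO := main_R h.base hp M K ιM ιK hT'
  obtain ⟨hMK, ⟨L, hLn, hL, hU, hKL⟩, hB⟩ := hT'
  have hUM : UnrP p (KG F M ιM) := unr_le hp.prime hL.le hU
  have hSM := i1_same h hp M (i1_lfun h M ιM (bad_of h.base hB))
  have hSK := i1_same h hp K (i1_lfun h K ιK fun w hw => bad_KR h.base hp hL hMK hKL hB w hw)
  have hbsd : ∀ (X : Type) [Field X] [NumberField X] (ι : X →ₐ[ℚ] AlgebraicClosure F) (_ : KG F X ι ≤ L) (_ : Same p W W' X),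
      BSDPG p W' X ↔ BSDPG p W X := by
    intro X _ _ ι hXL hS
    rw [bsd_iff h.base hp hL hUM X ι hXL, ← i1_sel hp.prime hp.five hS, ← i1_lunit hS]
    constructor
    · rintro ⟨⟨h1, -, -, h2⟩, h3⟩
      exact ⟨h1, (an_iff hp.prime h2).1 h3⟩
    · rintro ⟨h1, h2⟩
      obtain ⟨-, r1, r2, r3⟩ := sel_rest h.base hp hL hUM X ι hXL ((i1_sel hp.prime hp.five hS).1 h1)
      obtain ⟨q1, q2⟩ := pts_iso hp.prime hp.five (a0_disc hS.disc' X) hS.iso r2 r3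
      exact ⟨⟨h1, sha_iso hp.prime hp.five hS.iso r1, q1, q2⟩, (an_iff hp.prime q2).2 h2⟩
  refine ⟨same_int hSK hO.int, ?_, ?_, ?_, fun hN => ?_⟩
  · rw [i1_norel h, i1_lunit hSK, i1_lunit hSM]
    exact hO.lval
  · rw [i1_norel h, i1_sel hp.prime hp.five hSK, i1_sel hp.prime hp.five hSM]
    exact hO.sel
  · rw [i1_norel h, hbsd K ιK hKL hSK, hbsd M ιM hL.le hSM]
    exact hO.bsd
  · rw [i1_norel h] at hN
    obtain ⟨a, b⟩ := hO.non hN
    exact ⟨same_non hSK a, selnon_iso hp.prime hp.five hSK.iso b⟩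

/-- Almost all prime numbers, for isogenous curves. -/
theorem lunit_almost_iso (h : TW F W W' Om m ψ kap e t u lam) (M : Type) [Field M] [NumberField M]
    (ι : M →ₐ[ℚ] AlgebraicClosure F) (hB : BadM (W'⁄(𝓞 F)) (KG F M ι)) (hL : LNz W' M) : {p : ℕ | p.Prime ∧ ¬ LUnitG p W' M}.Finite := by
  have hB' := (i1_bad h _).1 hB
  have hl := i1_lfun h M ι (bad_of h.base hB')
  have hL' : LNz W M := by
    obtain ⟨Λ, hΛ, hs, hne⟩ := hL
    refine ⟨Λ, hΛ, fun s h32 => ?_, hne⟩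
    have e : (fun n => (((W'⁄M).LFunction n : ℤ) : ℂ)) = fun n => (((W⁄M).LFunction n : ℤ) : ℂ) := by
      funext n
      rw [hl n]
    obtain ⟨a, b⟩ := hs s h32
    rw [e] at a
    refine ⟨a, b.trans ?_⟩
    show LSeries (fun n => (((W'⁄M).LFunction n : ℤ) : ℂ)) s = LSeries (fun n => (((W⁄M).LFunction n : ℤ) : ℂ)) s
    rw [e]
  refine ((prime_almost (W⁄(𝓞 F)) h.base.data.ell).union (lunit_almost h.base M ι hB' hL')).subset ?_
  rintro p ⟨hp, hA⟩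
  by_cases hP : PrimeH F (W⁄(𝓞 F)) p
  · exact Or.inr ⟨hp, fun hV => hA ((i1_lunit (i1_same h hP M hl)).2 hV)⟩
  · exact Or.inl ⟨hp, hP⟩

/-- If the primes of F dividing the discriminant are unramified in M then W' has bad reduction at all primes of M dividing it. -/
theorem bad_unr_iso (h : TW F W W' Om m ψ kap e t u lam) (M : IntermediateField F (AlgebraicClosure F)) [NumberField M]
    (hU : ∀ v : HeightOneSpectrum (𝓞 F), (W'⁄(𝓞 F)).Δ ∈ v.asIdeal → ¬ H55P.RamF M v.asIdeal) : BadM (W'⁄(𝓞 F)) M :=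
  (i1_bad h M).2 (bad_unr h.base M fun v hv => hU v ((tw_supp h v).2 hv))

end H13R
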